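import Pool.Agent.Q148.BA.Fam

/-! The values of linear forms at the primes. -/

set_option autoImplicit false

namespace Pool.Agent.Q148.BA

open Finset Filter
open Pool.Agent.H560R3.GB (C₂ sing)

/-- inverses modulo all moduli -/
theorem exists_inv (a : ℕ) : ∃ u : ℕ → ℕ, (∀ q, 1 ≤ q → (u q).Coprime q) ∧
    ∀ q, 1 ≤ q → a.Coprime q → a * u q ≡ 1 [MOD q] := by
  have h : ∀ q : ℕ, ∃ w : ℕ, (1 ≤ q → w.Coprime q) ∧ (1 ≤ q → a.Coprime q → a * w ≡ 1 [MOD q]) := by
    intro q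
    by_cases hc : a.Coprime q
    · rcases Nat.lt_or_ge 1 q with hq | hq
      · obtain ⟨w, hw⟩ := Nat.exists_mul_mod_eq_one_of_coprime hc hq
        have h1 : a * w ≡ 1 [MOD q] := by
          unfold Nat.ModEq
          rw [hw.2, Nat.mod_eq_of_lt hq]
        refine ⟨w, fun _ => ?_, fun _ _ => h1⟩
        have h2 : (a * w).Coprime q := by
          have := h1.gcd_eq
          unfold Nat.Coprime
          rw [this]
          simp
        exact Nat.Coprime.coprime_mul_left h2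
      · refine ⟨1, fun _ => Nat.coprime_one_left q, fun hq1 _ => ?_⟩
        have : q = 1 := by omega
        subst this
        exact Nat.modEq_one
    · exact ⟨1, fun _ => Nat.coprime_one_left q, fun _ hc' => absurd hc' hc⟩
  choose u hu using h
  exact ⟨u, fun q hq => (hu q).1 hq, fun q hq hc => (hu q).2 hq hc⟩

/-- the absolute value of `a p - b` -/
def dif (a b p : ℕ) : ℕ := (a * p - b) + (b - a * p)

theorem dif_dvd (a b p q : ℕ) : q ∣ dif a b p ↔ a * p ≡ b [MOD q] := by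
  unfold dif
  rcases le_total b (a * p) with h | h
  · rw [Nat.sub_eq_zero_of_le h, Nat.add_zero]
    exact (Nat.modEq_iff_dvd' h).symm.trans ⟨fun h => h.symm, fun h => h.symm⟩
  · rw [Nat.sub_eq_zero_of_le h, Nat.zero_add]
    exact (Nat.modEq_iff_dvd' h).symm

theorem cancel_iff {a w q x y : ℕ} (h : a * w ≡ 1 [MOD q]) : a * x ≡ y [MOD q] ↔ x ≡ y * w [MOD q] := by
  constructor
  · intro h1
    calc x = 1 * x := (one_mul x).symm
      _ ≡ (a * w) * x [MOD q] := (h.symm).mul_right x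
      _ = (a * x) * w := by ring
      _ ≡ y * w [MOD q] := h1.mul_right w
  · intro h1
    calc a * x ≡ a * (y * w) [MOD q] := h1.mul_left a
      _ = y * (a * w) := by ring
      _ ≡ y * 1 [MOD q] := h.mul_left y
      _ = y := mul_one y

theorem one_aux (N : ℕ) (v : ℕ → ℕ) (q h : ℕ) (hq : ¬ q.Coprime h)
    (H : ∀ r : ℕ, r.Prime → r ∣ q → r ∣ h → ∀ p : ℕ, p.Prime → q ∣ v p → r ∣ p) :
    ((PP N).filter (fun p => q ∣ v p)).card ≤ 1 := by
  obtain ⟨r, hr, hrq, hrh⟩ := Nat.Prime.not_coprime_iff_dvd.1 hq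
  refine (card_le_card (t := {r}) ?_).trans (by simp)
  intro p hp
  rw [mem_filter, mem_PP] at hp
  rw [mem_singleton]
  exact ((Nat.prime_dvd_prime_iff_eq hr hp.1.1).1 (H r hr hrq hrh p hp.1.1 hp.2)).symm

/-- the sequence `|a p - b|` -/
theorem seq_dif (N A₀ a b : ℕ) (ha : 1 ≤ a) (hab : a.Coprime b)
    (hN : (a : ℝ) * N ≤ N * Real.log N ^ A₀) (hb : (b : ℝ) ≤ N * Real.log N ^ A₀) (u : ℕ → ℕ)
    (hu : ∀ q, 1 ≤ q → (u q).Coprime q) (hu2 : ∀ q, 1 ≤ q → a.Coprime q → a * u q ≡ 1 [MOD q]) :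
    Seq N A₀ (a * b) (dif a b) (fun q => b * u q) where
  le := by
    intro p hp hpN
    have h1 : dif a b p ≤ a * N ∨ dif a b p ≤ b := by
      unfold dif
      have h2 : a * p ≤ a * N := Nat.mul_le_mul_left a hpN
      omega
    rcases h1 with h1 | h1
    · have h2 : (dif a b p : ℝ) ≤ a * N := by exact_mod_cast h1
      exact h2.trans hN
    · have h2 : (dif a b p : ℝ) ≤ b := by exact_mod_cast h1
      exact h2.trans hb
  two := by
    intro m hm
    have hsub : (PP N).filter (fun p => dif a b p = m) ⊆ {(b + m) / a, (b - m) / a} := by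
      intro p hp
      rw [mem_filter] at hp
      rw [mem_insert, mem_singleton]
      have h1 := hp.2
      unfold dif at h1
      rcases le_total b (a * p) with h | h
      · left
        have h2 : a * p = b + m := by omega
        rw [← h2, Nat.mul_div_cancel_left p ha]
      · right
        have h2 : a * p = b - m := by omega
        rw [← h2, Nat.mul_div_cancel_left p ha]
    exact (card_le_card hsub).trans card_le_two
  cop := by
    intro q hq hc
    exact (Nat.Coprime.coprime_mul_left_right hc).symm.mul_left (hu q hq)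
  iff := by
    intro q hq hc p _ _
    have hc' : a.Coprime q := (Nat.Coprime.coprime_mul_right_right hc).symm
    rw [dif_dvd]
    exact cancel_iff (hu2 q hq hc')
  one := by
    intro q hq hc
    apply one_aux N _ q (a * b) hc
    intro r hr hrq hrh p hp hqv
    rw [dif_dvd] at hqv
    have h1 : a * p ≡ b [MOD r] := hqv.of_dvd hrq
    rcases (Nat.Prime.dvd_mul hr).1 hrh with h2 | h2
    · exfalso
      have h3 : r ∣ b := (h1.dvd_iff dvd_rfl).1 (h2.mul_right p)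
      have h4 := Nat.dvd_gcd h2 h3
      rw [hab] at h4
      exact hr.one_lt.ne' (Nat.dvd_one.1 h4)
    · have h3 : r ∣ a * p := (h1.dvd_iff dvd_rfl).2 h2
      rcases (Nat.Prime.dvd_mul hr).1 h3 with h4 | h4
      · exfalso
        have h5 := Nat.dvd_gcd h4 h2
        rw [hab] at h5
        exact hr.one_lt.ne' (Nat.dvd_one.1 h5)
      · exact h4

theorem neg_iff {q x b : ℕ} (hq : 1 ≤ q) : q ∣ x + b ↔ x ≡ b * (q - 1) [MOD q] := by
  have h1 : b * (q - 1) + b ≡ 0 [MOD q] := by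
    have : b * (q - 1) + b = b * q := by
      obtain ⟨k, rfl⟩ := Nat.exists_eq_add_of_le hq
      rw [Nat.add_sub_cancel_left]
      ring
    rw [this]
    exact (Nat.modEq_zero_iff_dvd).2 (dvd_mul_left q b)
  constructor
  · intro h
    have h2 : x + b ≡ b * (q - 1) + b [MOD q] := ((Nat.modEq_zero_iff_dvd).2 h).trans h1.symm
    exact Nat.ModEq.add_right_cancel' b h2
  · intro h
    exact (Nat.modEq_zero_iff_dvd).1 ((h.add_right b).trans h1)

/-- the sequence `a p + b` -/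
theorem seq_add (N A₀ a b : ℕ) (ha : 1 ≤ a) (hab : a.Coprime b)
    (hN : (a : ℝ) * N + b ≤ N * Real.log N ^ A₀) (u : ℕ → ℕ)
    (hu : ∀ q, 1 ≤ q → (u q).Coprime q) (hu2 : ∀ q, 1 ≤ q → a.Coprime q → a * u q ≡ 1 [MOD q]) :
    Seq N A₀ (a * b) (fun p => a * p + b) (fun q => b * (u q * (q - 1))) where
  le := by
    intro p hp hpN
    have h1 : (p : ℝ) ≤ N := by exact_mod_cast hpN
    push_cast
    have h2 := mul_le_mul_of_nonneg_left h1 (Nat.cast_nonneg (α := ℝ) a)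
    linarith
  two := by
    intro m hm
    refine (card_le_card (t := {(m - b) / a}) ?_).trans (by simp)
    intro p hp
    rw [mem_filter] at hp
    rw [mem_singleton]
    have h2 : a * p = m - b := by omega
    rw [← h2, Nat.mul_div_cancel_left p ha]
  cop := by
    intro q hq hc
    refine (Nat.Coprime.coprime_mul_left_right hc).symm.mul_left ((hu q hq).mul_left ?_)
    have h1 : (q - 1).Coprime (q - 1 + 1) := by simp
    rwa [Nat.sub_add_cancel hq] at h1
  iff := by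
    intro q hq hc p _ _
    have hc' : a.Coprime q := (Nat.Coprime.coprime_mul_right_right hc).symm
    rw [neg_iff hq, cancel_iff (hu2 q hq hc')]
    have e : b * (u q * (q - 1)) = b * (q - 1) * u q := by ring
    rw [e]
  one := by
    intro q hq hc
    apply one_aux N _ q (a * b) hc
    intro r hr hrq hrh p hp hqv
    have h0 : r ∣ a * p + b := hrq.trans hqv
    rcases (Nat.Prime.dvd_mul hr).1 hrh with h2 | h2
    · exfalso
      have h3 : r ∣ b := (Nat.dvd_add_right (h2.mul_right p)).1 h0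
      have h4 := Nat.dvd_gcd h2 h3
      rw [hab] at h4
      exact hr.one_lt.ne' (Nat.dvd_one.1 h4)
    · have h3 : r ∣ a * p := (Nat.dvd_add_left h2).1 h0
      rcases (Nat.Prime.dvd_mul hr).1 h3 with h4 | h4
      · exfalso
        have h5 := Nat.dvd_gcd h4 h2
        rw [hab] at h5
        exact hr.one_lt.ne' (Nat.dvd_one.1 h5)
      · exact h4

/-- **the linear forms `a p + b`, `|a p - b|`** -/
theorem forms : ∃ C : ℝ, 0 < C ∧ ∀ κ : ℝ, 0 < κ → κ ≤ 1 / 8 → ∀ A₀ : ℕ,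
    ∃ N0 : ℕ, ∀ N : ℕ, N0 ≤ N → ∃ Ex : Finset ℕ, (Ex.card : ℝ) ≤ (N : ℝ) ^ (1 - κ) ∧
    ∀ b : ℕ, 1 ≤ b → (b : ℝ) ≤ N * Real.log N ^ A₀ → b ∉ Ex → ∀ a : ℕ, 1 ≤ a → (a : ℝ) ≤ Real.log N ^ A₀ →
      a.Coprime b → Even (a * b) → ∀ y : ℕ, y ≤ N →
      |∑ p ∈ PP y, L2 (a * p + b) - 2 * sing (a * b) * y| ≤
        C * (κ * Real.log (1 / κ) ^ 2) * sing (a * b) * N ∧
      |∑ p ∈ PP y, L2 (dif a b p) - 2 * sing (a * b) * y| ≤
        C * (κ * Real.log (1 / κ) ^ 2) * sing (a * b) * N := by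
  classical
  obtain ⟨C, hC, H⟩ := fam
  refine ⟨C, hC, ?_⟩
  intro κ hκ hκ8 A₀
  obtain ⟨N0, HN⟩ := H κ hκ hκ8 (A₀ + 1)
  have e1 := Pool.Agent.H398R2.BV.ev_log 2 A₀ (κ / 2) (by positivity)
  have e2 := Real.tendsto_log_atTop.eventually_ge_atTop 2
  have e3 := Pool.Agent.H398R2.BV.ev_log 1 (A₀ + A₀) 1 (by norm_num)
  obtain ⟨N2, HN2⟩ := eventually_atTop.1 ((tendsto_natCast_atTop_atTop (R := ℝ)).eventually
    (e1.and (e2.and (e3.and (eventually_ge_atTop 1)))))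
  refine ⟨max N0 N2, fun N hN => ?_⟩
  obtain ⟨f1, f2, f3, f4⟩ := HN2 N ((le_max_right _ _).trans hN)
  have hN0 : (0 : ℝ) < N := by linarith
  rw [Real.rpow_one, one_mul] at f3
  have hLA : 1 ≤ Real.log N ^ A₀ := one_le_pow₀ (by linarith)
  obtain ⟨M, hM⟩ : ∃ M : ℕ, M = ⌊Real.log N ^ A₀⌋₊ := ⟨_, rfl⟩
  obtain ⟨I, hI⟩ : ∃ I : Finset ℕ, I = Icc 1 ⌊(N : ℝ) * Real.log N ^ A₀⌋₊ := ⟨_, rfl⟩
  have hN2 : (N : ℝ) * Real.log N ^ A₀ ≤ (N : ℝ) ^ (2 : ℝ) := by
    rw [Real.rpow_two, pow_two]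
    apply mul_le_mul_of_nonneg_left _ hN0.le
    refine le_trans ?_ f3
    rw [pow_add]
    exact le_mul_of_one_le_right (by linarith) hLA
  have hIb : ∀ b ∈ I, (b : ℝ) ≤ (N : ℝ) ^ (2 : ℝ) := by
    intro b hb
    rw [hI, mem_Icc] at hb
    exact (Nat.le_floor_iff (by positivity)).1 hb.2 |>.trans hN2
  have hinv : ∀ a : ℕ, ∃ u : ℕ → ℕ, (∀ q, 1 ≤ q → (u q).Coprime q) ∧
    ∀ q, 1 ≤ q → a.Coprime q → a * u q ≡ 1 [MOD q] := exists_inv
  choose u hu1 hu2 using hinv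
  have hneg : ∀ a q : ℕ, 1 ≤ q → (u a q * (q - 1)).Coprime q := by
    intro a q hq
    refine (hu1 a q hq).mul_left ?_
    have h1 : (q - 1).Coprime (q - 1 + 1) := by simp
    rwa [Nat.sub_add_cancel hq] at h1
  have hex1 := fun a : ℕ => HN N ((le_max_left _ _).trans hN) (u a) (hu1 a) I hIb
  have hex2 := fun a : ℕ => HN N ((le_max_left _ _).trans hN) (fun q => u a q * (q - 1)) (hneg a) I hIb
  choose E1 hE1 hF1 using hex1
  choose E2 hE2 hF2 using hex2
  refine ⟨(Icc 1 M).biUnion (fun a => E1 a ∪ E2 a), ?_, ?_⟩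
  · have h1 : (((Icc 1 M).biUnion (fun a => E1 a ∪ E2 a)).card : ℝ) ≤
        ∑ a ∈ Icc 1 M, (((E1 a ∪ E2 a).card : ℕ) : ℝ) := by
      exact_mod_cast card_biUnion_le
    have h2 : ∀ a ∈ Icc 1 M, (((E1 a ∪ E2 a).card : ℕ) : ℝ) ≤ 2 * (N : ℝ) ^ (1 - 3 / 2 * κ) := by
      intro a _
      have h3 : (((E1 a ∪ E2 a).card : ℕ) : ℝ) ≤ (E1 a).card + (E2 a).card := by
        exact_mod_cast card_union_le _ _
      linarith [hE1 a, hE2 a]
    have h3 : (M : ℝ) ≤ Real.log N ^ A₀ := by rw [hM]; exact Nat.floor_le (by positivity)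
    have h4 : (N : ℝ) ^ (1 - κ) = (N : ℝ) ^ (1 - 3 / 2 * κ) * (N : ℝ) ^ (κ / 2) := by
      rw [← Real.rpow_add hN0]
      congr 1
      ring
    rw [h4]
    calc (((Icc 1 M).biUnion (fun a => E1 a ∪ E2 a)).card : ℝ) ≤ ∑ a ∈ Icc 1 M, 2 * (N : ℝ) ^ (1 - 3 / 2 * κ) :=
          h1.trans (sum_le_sum h2)
      _ = M * (2 * (N : ℝ) ^ (1 - 3 / 2 * κ)) := by
          rw [sum_const, Nat.card_Icc, nsmul_eq_mul, Nat.add_sub_cancel]
      _ ≤ Real.log N ^ A₀ * (2 * (N : ℝ) ^ (1 - 3 / 2 * κ)) := mul_le_mul_of_nonneg_right h3 (by positivity)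
      _ = (N : ℝ) ^ (1 - 3 / 2 * κ) * (2 * Real.log N ^ A₀) := by ring
      _ ≤ _ := mul_le_mul_of_nonneg_left f1 (by positivity)
  · intro b hb1 hb2 hbE a ha1 ha2 hab hev y hy
    have haM : a ∈ Icc 1 M := by
      rw [mem_Icc, hM]
      exact ⟨ha1, Nat.le_floor ha2⟩
    have hbI : b ∈ I := by
      rw [hI, mem_Icc]
      exact ⟨hb1, Nat.le_floor hb2⟩
    have hbE1 : b ∉ E1 a := fun h => hbE (mem_biUnion.2 ⟨a, haM, mem_union_left _ h⟩)
    have hbE2 : b ∉ E2 a := fun h => hbE (mem_biUnion.2 ⟨a, haM, mem_union_right _ h⟩)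
    have hh1 : 1 ≤ a * b := Nat.mul_pos ha1 hb1
    have hh2 : ((a * b : ℕ) : ℝ) ≤ (N : ℝ) ^ (2 : ℝ) := by
      push_cast
      calc (a : ℝ) * b ≤ Real.log N ^ A₀ * (N * Real.log N ^ A₀) := mul_le_mul ha2 hb2 (Nat.cast_nonneg b) (by positivity)
        _ = N * Real.log N ^ (A₀ + A₀) := by rw [pow_add]; ring
        _ ≤ N * N := mul_le_mul_of_nonneg_left f3 hN0.le
        _ = _ := by rw [Real.rpow_two, pow_two]
    have hL2 : 2 * (N * Real.log N ^ A₀) ≤ N * Real.log N ^ (A₀ + 1) := by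
      rw [pow_succ]
      have : 0 ≤ (N : ℝ) * Real.log N ^ A₀ := by positivity
      nlinarith
    have haN : (a : ℝ) * N ≤ N * Real.log N ^ A₀ := by
      rw [mul_comm]
      exact mul_le_mul_of_nonneg_left ha2 hN0.le
    have hp0 : 0 ≤ (N : ℝ) * Real.log N ^ A₀ := by positivity
    constructor
    · exact hF2 a b hbI hbE2 (a * b) hh1 hev hh2 _ (seq_add N (A₀ + 1) a b ha1 hab (by linarith) (u a) (hu1 a) (hu2 a)) y hy
    · exact hF1 a b hbI hbE1 (a * b) hh1 hev hh2 _ (seq_dif N (A₀ + 1) a b ha1 hab (by linarith) (by linarith) (u a)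
        (hu1 a) (hu2 a)) y hy

end Pool.Agent.Q148.BA
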