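import Pool.Agent.Q148.BA.Tot

/-! The asymptotic sieve for `Λ₂`: the bounds for the error terms. -/

set_option autoImplicit false

namespace Pool.Agent.Q148.BA

open Finset

theorem B_nonneg (S : Finset ℕ) (v : ℕ → ℕ) (q : ℕ) (P : Finset ℕ) : 0 ≤ B S v q P := by
  unfold B
  positivity

/-- the error in terms of the parameters -/
theorem abs2 : ∃ (C : ℕ) (C1 : ℝ), 1 ≤ C ∧ 0 < C1 ∧ ∀ (S : Finset ℕ) (v : ℕ → ℕ) (X : ℝ) (g r : ℕ → ℝ)
    (N M T D E K b J J' Q z w : ℕ) (ℓ lam : ℝ), Dens S v X g r → z = 2 ^ 2 ^ J → w = 2 ^ 2 ^ J' → C ≤ b → J ≤ J' →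
    z ^ 2 * w ^ 2 ≤ T → (∀ n ∈ S, v n ≤ M) →
    (∀ m, 1 ≤ m → (S.filter (fun n => v n = m)).card ≤ 2) → M < z ^ K →
    D ≤ N → 1 ≤ D → N ≤ M → M ≤ D * E → z ≤ E → z ≤ D → 1 ≤ Q →
    D * (C * z ^ (C * b)) ≤ Q → E * (C * z ^ (C * b)) ≤ Q →
    z ^ 2 * (C * w ^ (C * C)) ≤ Q →
    (∀ m : ℕ, T < m → m ≤ M → |Real.log m - Real.log N| ≤ ℓ) →
    (∀ d : ℕ, D < d → d ≤ M → |Real.log (N / (d : ℝ))| ≤ lam) → 0 ≤ ℓ →
    |∑ n ∈ S, L2 (v n) - X * (∏ p ∈ PP z, (1 - g p)) * GG z D N g| ≤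
      2 * (T + 2 * (M / (z : ℝ))) * (2 * Real.log M ^ 2 + 2 ^ K * Real.log N ^ 2) +
      (8 * C1 * (X * (∏ p ∈ PP w, (1 - g p))) * (Real.log M * Real.log z) +
        2 * (Real.log z * Real.log M) * ((J' + 1) * (2 * Real.log Q * ∑ m ∈ Icc 1 Q, r m))) +
      (2 ^ K * (ℓ * (2 * Real.log M)) + lam ^ 2) * (2 * (X * (∏ p ∈ PP z, (1 - g p))) *
        (V1 z / V1 E) + (J + 1) * ∑ m ∈ Icc 1 Q, r m) +
      Real.log N ^ 2 * ((1 / 2 : ℝ) ^ b * (X * (∏ p ∈ PP z, (1 - g p))) * (V1 z / V1 D) +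
        (J + 1) * ∑ m ∈ Icc 1 Q, r m) := by
  classical
  obtain ⟨C, hC, HC⟩ := cnt
  obtain ⟨C1, hC1, HL⟩ := logsum
  refine ⟨C, C1, hC, hC1, ?_⟩
  intro S v X g r N M T D E K b J J' Q z w ℓ lam H hz hw hb hJ hT hv hm hK hD hD1 hNM hE hzE hzD hQ1 hQ2 hQ3 hQ4 hℓ hlam hℓ0
  have hz2 : 2 ≤ z := by
    rw [hz]
    calc 2 = 2 ^ 1 := by norm_num
      _ ≤ 2 ^ 2 ^ J := Nat.pow_le_pow_right (by norm_num) (Nat.one_le_two_pow)
  have hzw : z ≤ w := by
    rw [hz, hw]
    exact Nat.pow_le_pow_right (by norm_num) (Nat.pow_le_pow_right (by norm_num) hJ)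
  set V := ∏ p ∈ PP z, (1 - g p) with hV
  set W := ∏ p ∈ PP w, (1 - g p) with hW
  have hX0 := H.X0
  have hr0 : ∀ m, 1 ≤ m → 0 ≤ r m := fun m h => H.r0 h
  have hV0 : 0 ≤ V := prod_nonneg fun p hp => by
    have := H.half p (mem_PP.1 hp).1
    linarith
  have hW0 : 0 ≤ W := prod_nonneg fun p hp => by
    have := H.half p (mem_PP.1 hp).1
    linarith
  set R := ∑ m ∈ Icc 1 Q, r m with hR
  have hR0 : 0 ≤ R := sum_nonneg fun m hm => hr0 m (mem_Icc.1 hm).1
  have hmono : ∀ Q' : ℕ, Q' ≤ Q → ∑ m ∈ Icc 1 Q', r m ≤ R := by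
    intro Q' h
    apply sum_le_sum_of_subset_of_nonneg
    · intro m hm
      rw [mem_Icc] at hm ⊢
      omega
    · intro m hm _
      exact hr0 m (mem_Icc.1 hm).1
  have hPz : ∀ p ∈ PP z, p.Prime ∧ p ≤ 2 ^ 2 ^ J := fun p hp => by
    rw [← hz]
    exact mem_PP.1 hp
  have hbnd : ∀ q ∈ DD z Q ∪ (DD z D ∪ DD z E), |B S v q (PP z) - X * (g q * V)| ≤
      (1 / 2 : ℝ) ^ b * (X * (g q * V)) + (J + 1) * Rs r q (PP z) (C * z ^ (C * b)) := by
    intro q hq
    have hq' : 1 ≤ q ∧ Squarefree q ∧ Rough z q := by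
      rw [mem_union, mem_union, mem_DD, mem_DD, mem_DD] at hq
      rcases hq with h | h | h
      · exact ⟨h.1.1, h.2⟩
      · exact ⟨h.1.1, h.2⟩
      · exact ⟨h.1.1, h.2⟩
    have h := HC b J (PP z) hb hPz S v X g r H q hq'.1 (H.sqf_nn q hq'.2.1)
      (fun p hp => hq'.2.2 p (mem_PP.1 hp).1 (mem_PP.1 hp).2)
    rw [← hz] at h
    exact h
  have hhalf : (1 / 2 : ℝ) ^ b ≤ 1 := pow_le_one₀ (by norm_num) (by norm_num)
  have hJ0 : (0 : ℝ) ≤ J + 1 := by positivity
  -- sum over e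
  have sE : ∑ e ∈ DD z E, B S v e (PP z) ≤ 2 * (X * V) * (V1 z / V1 E) + (J + 1) * R := by
    calc ∑ e ∈ DD z E, B S v e (PP z) ≤
        ∑ e ∈ DD z E, (2 * (X * V) * g e + (J + 1) * Rs r e (PP z) (C * z ^ (C * b))) := by
          apply sum_le_sum
          intro e he
          have h1 := hbnd e (mem_union_right _ (mem_union_right _ he))
          have hge : 0 ≤ g e := H.sqf_nn e (mem_DD.1 he).2.1
          have h2 : 0 ≤ X * (g e * V) := by positivity
          have h3 := (abs_le.1 h1).2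
          have h4 := mul_le_mul_of_nonneg_right hhalf h2
          linarith
      _ = 2 * (X * V) * ∑ e ∈ DD z E, g e + (J + 1) * ∑ e ∈ DD z E, Rs r e (PP z) (C * z ^ (C * b)) := by
          rw [sum_add_distrib, mul_sum, mul_sum]
      _ ≤ _ := by
          apply add_le_add
          · exact mul_le_mul_of_nonneg_left (gsum H z E hzE) (by positivity)
          · exact mul_le_mul_of_nonneg_left ((errsum1 r hr0 z E _).trans (hmono _ hQ3)) hJ0
  have s1 : B S v 1 (PP z) ≤ ∑ e ∈ DD z E, B S v e (PP z) := by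
    apply single_le_sum (f := fun e => B S v e (PP z)) (fun e _ => B_nonneg S v e _)
    rw [mem_DD]
    refine ⟨⟨le_rfl, by omega⟩, squarefree_one, ?_⟩
    intro p hp _ h
    exact hp.one_lt.ne' (Nat.dvd_one.1 h)
  have sD : ∑ d ∈ DD z D, |B S v d (PP z) - X * (g d * V)| ≤
      (1 / 2 : ℝ) ^ b * (X * V) * (V1 z / V1 D) + (J + 1) * R := by
    calc ∑ d ∈ DD z D, |B S v d (PP z) - X * (g d * V)| ≤
        ∑ d ∈ DD z D, ((1 / 2 : ℝ) ^ b * (X * V) * g d + (J + 1) * Rs r d (PP z) (C * z ^ (C * b))) := by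
          apply sum_le_sum
          intro d hd
          refine (hbnd d (mem_union_right _ (mem_union_left _ hd))).trans (le_of_eq ?_)
          ring
      _ = (1 / 2 : ℝ) ^ b * (X * V) * ∑ d ∈ DD z D, g d +
          (J + 1) * ∑ d ∈ DD z D, Rs r d (PP z) (C * z ^ (C * b)) := by
          rw [sum_add_distrib, mul_sum, mul_sum]
      _ ≤ _ := by
          apply add_le_add
          · exact mul_le_mul_of_nonneg_left (gsum H z D hzD) (by positivity)
          · exact mul_le_mul_of_nonneg_left ((errsum1 r hr0 z D _).trans (hmono _ hQ2)) hJ0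
  -- sum over the prime powers
  have hlz : 0 ≤ Real.log z := Real.log_natCast_nonneg z
  have hlM : 0 ≤ Real.log M := Real.log_natCast_nonneg M
  have hJ'0 : (0 : ℝ) ≤ J' + 1 := by positivity
  have sK : ∑ x ∈ KK z (z ^ 2), 2 * (Real.log x.1 * Real.log M) * B S v (x.1 ^ x.2) ((PP w).erase x.1) ≤
      8 * C1 * (X * W) * (Real.log M * Real.log z) +
        2 * (Real.log z * Real.log M) * ((J' + 1) * (2 * Real.log Q * R)) := by
    have h1 : ∀ x ∈ KK z (z ^ 2), 2 * (Real.log x.1 * Real.log M) * B S v (x.1 ^ x.2) ((PP w).erase x.1) ≤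
        8 * (X * W) * Real.log M * (Real.log x.1 * g (x.1 ^ x.2)) +
        2 * (Real.log z * Real.log M) * ((J' + 1) * Rs r (x.1 ^ x.2) ((PP w).erase x.1) (C * w ^ (C * C))) := by
      intro x hx
      unfold KK at hx
      rw [mem_filter, mem_product, mem_PP, mem_Icc] at hx
      obtain ⟨⟨⟨hp, hpz⟩, ha1, _⟩, _⟩ := hx
      have hpw : x.1 ∈ PP w := mem_PP.2 ⟨hp, hpz.trans hzw⟩
      have hnn := H.nn x.1 x.2 hp
      have h2 := HC C J' ((PP w).erase x.1) le_rfl (by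
        intro p hp'
        have := mem_PP.1 (mem_of_mem_erase hp')
        rw [← hw]
        exact this) S v X g r H (x.1 ^ x.2) (Nat.one_le_pow _ _ hp.pos) hnn (by
        intro p hp' hdvd
        have h3 := mem_PP.1 (mem_of_mem_erase hp')
        have := (Nat.prime_dvd_prime_iff_eq h3.1 hp).1 (h3.1.dvd_of_dvd_pow hdvd)
        exact ne_of_mem_erase hp' this)
      rw [← hw] at h2
      have h3 : ∏ p ∈ (PP w).erase x.1, (1 - g p) ≤ 2 * W := by
        have h4 : W = (1 - g x.1) * ∏ p ∈ (PP w).erase x.1, (1 - g p) := by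
          exact (mul_prod_erase (PP w) (fun p => 1 - g p) hpw).symm
        have h5 := H.half x.1 hp
        have h6 : 0 ≤ ∏ p ∈ (PP w).erase x.1, (1 - g p) := prod_nonneg fun p hp' => by
          have := H.half p (mem_PP.1 (mem_of_mem_erase hp')).1
          linarith
        nlinarith
      have h6 : 0 ≤ ∏ p ∈ (PP w).erase x.1, (1 - g p) := prod_nonneg fun p hp' => by
        have := H.half p (mem_PP.1 (mem_of_mem_erase hp')).1
        linarith
      have hhalf' : (1 / 2 : ℝ) ^ C ≤ 1 := pow_le_one₀ (by norm_num) (by norm_num)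
      have h7 : 0 ≤ X * (g (x.1 ^ x.2) * ∏ p ∈ (PP w).erase x.1, (1 - g p)) := by positivity
      have h8 := mul_le_mul_of_nonneg_right hhalf' h7
      have h9 := (abs_le.1 h2).2
      have h10 : X * (g (x.1 ^ x.2) * ∏ p ∈ (PP w).erase x.1, (1 - g p)) ≤ X * (g (x.1 ^ x.2) * (2 * W)) :=
        mul_le_mul_of_nonneg_left (mul_le_mul_of_nonneg_left h3 hnn) hX0
      have h11 : B S v (x.1 ^ x.2) ((PP w).erase x.1) ≤ 4 * (X * W) * g (x.1 ^ x.2) +
          (J' + 1) * Rs r (x.1 ^ x.2) ((PP w).erase x.1) (C * w ^ (C * C)) := by linarith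
      have hlx : 0 ≤ Real.log x.1 := Real.log_natCast_nonneg _
      have hlxz : Real.log x.1 ≤ Real.log z := log_le' hp.one_le hpz
      have hRs : 0 ≤ Rs r (x.1 ^ x.2) ((PP w).erase x.1) (C * w ^ (C * C)) := by
        unfold Rs
        apply sum_nonneg
        intro T hT
        rw [mem_filter, mem_powerset] at hT
        apply hr0
        apply Nat.one_le_iff_ne_zero.2
        apply Nat.mul_ne_zero (pow_ne_zero _ hp.ne_zero)
        apply prod_ne_zero_iff.2
        intro p hp'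
        exact (mem_PP.1 (mem_of_mem_erase (hT.1 hp'))).1.ne_zero
      have h12 := mul_le_mul_of_nonneg_left h11 (by positivity : (0 : ℝ) ≤ 2 * (Real.log x.1 * Real.log M))
      have h13 : 2 * (Real.log x.1 * Real.log M) * ((J' + 1) * Rs r (x.1 ^ x.2) ((PP w).erase x.1) (C * w ^ (C * C))) ≤
          2 * (Real.log z * Real.log M) * ((J' + 1) * Rs r (x.1 ^ x.2) ((PP w).erase x.1) (C * w ^ (C * C))) := by
        apply mul_le_mul_of_nonneg_right _ (by positivity)
        have := mul_le_mul_of_nonneg_right hlxz hlM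
        linarith
      have e : 2 * (Real.log x.1 * Real.log M) * (4 * (X * W) * g (x.1 ^ x.2) +
          (J' + 1) * Rs r (x.1 ^ x.2) ((PP w).erase x.1) (C * w ^ (C * C))) =
          8 * (X * W) * Real.log M * (Real.log x.1 * g (x.1 ^ x.2)) +
          2 * (Real.log x.1 * Real.log M) * ((J' + 1) * Rs r (x.1 ^ x.2) ((PP w).erase x.1) (C * w ^ (C * C))) := by
        ring
      rw [e] at h12
      linarith
    refine (sum_le_sum h1).trans ?_
    rw [sum_add_distrib, ← mul_sum, ← mul_sum, ← mul_sum]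
    apply add_le_add
    · have h2 := HL S v X g r H z (z ^ 2) hz2
      have h3 := mul_le_mul_of_nonneg_left h2 (by positivity : (0 : ℝ) ≤ 8 * (X * W) * Real.log M)
      refine h3.trans (le_of_eq ?_)
      ring
    · apply mul_le_mul_of_nonneg_left _ (by positivity)
      apply mul_le_mul_of_nonneg_left _ hJ'0
      refine (errsum2 r hr0 z (z ^ 2) w _).trans ?_
      rw [hR, mul_sum]
      have h2 : ∑ m ∈ Icc 1 (z ^ 2 * (C * w ^ (C * C))), (m.primeFactors.card : ℝ) * r m ≤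
          ∑ m ∈ Icc 1 Q, (m.primeFactors.card : ℝ) * r m := by
        apply sum_le_sum_of_subset_of_nonneg
        · intro m hm
          rw [mem_Icc] at hm ⊢
          omega
        · intro m hm _
          have := hr0 m (mem_Icc.1 hm).1
          positivity
      refine h2.trans (sum_le_sum fun m hm => ?_)
      rw [mem_Icc] at hm
      exact mul_le_mul_of_nonneg_right (card_pf m Q hm.1 hm.2) (hr0 m hm.1)
  have hmain := abs1 S v X g N M z w T D E K ℓ lam hz2 hzw hT hv hm hK hD hD1 hNM hE hℓ hlam hℓ0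
  have hK0 : (0 : ℝ) ≤ 2 ^ K * (ℓ * (2 * Real.log M)) := by positivity
  have t1 := mul_le_mul_of_nonneg_right (s1.trans sE) hK0
  have t2 := mul_le_mul_of_nonneg_left sE (sq_nonneg lam)
  have t3 := mul_le_mul_of_nonneg_left sD (sq_nonneg (Real.log N))
  have e1 : (2 * (X * V) * (V1 z / V1 E) + (J + 1) * R) * (2 ^ K * (ℓ * (2 * Real.log M))) +
      lam ^ 2 * (2 * (X * V) * (V1 z / V1 E) + (J + 1) * R) =
      (2 ^ K * (ℓ * (2 * Real.log M)) + lam ^ 2) * (2 * (X * V) * (V1 z / V1 E) + (J + 1) * R) := by ring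
  linarith

end Pool.Agent.Q148.BA
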