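import Pool.Agent.Q148.BA.Gc

/-! The asymptotic sieve for `Λ₂` on the shifted primes. -/

set_option autoImplicit false

namespace Pool.Agent.Q148.BA

open Finset Filter
open Pool.Agent.H560R3.GB (C₂ sing)

theorem V1_le_one (z : ℕ) : V1 z ≤ 1 := by
  unfold V1
  apply prod_le_one
  · intro p hp
    have h2 : (2 : ℝ) ≤ p := by exact_mod_cast (mem_PP.1 hp).1.two_le
    rw [sub_nonneg, div_le_one (by linarith)]
    linarith
  · intro p _
    have : 0 ≤ 1 / (p : ℝ) := by positivity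
    linarith

theorem app1 : ∃ C : ℝ, 0 < C ∧ ∀ κ : ℝ, 0 < κ → κ ≤ 1 / 8 → ∀ A₀ : ℕ,
    ∃ N0 : ℕ, ∀ N : ℕ, N0 ≤ N → ∀ h : ℕ, 1 ≤ h → Even h → (h : ℝ) ≤ (N : ℝ) ^ (2 : ℝ) →
    ∀ (S : Finset ℕ) (v : ℕ → ℕ) (X : ℝ), 0 ≤ X →
      (∀ n ∈ S, (v n : ℝ) ≤ N * Real.log N ^ A₀) →
      (∀ m, 1 ≤ m → (S.filter (fun n => v n = m)).card ≤ 2) →
      ∑ q ∈ Icc 1 ⌊(N : ℝ) ^ (1 - κ)⌋₊, |A S v q - X * gh h q| ≤ N / Real.log N ^ 10 →
      |∑ n ∈ S, L2 (v n) - 2 * (X * sing h * Real.log N)| ≤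
        C * (κ * Real.log (1 / κ) ^ 2) * (X * sing h * Real.log N) + κ * N := by
  obtain ⟨C, hC, H⟩ := bas2
  refine ⟨4 * C + 6, by positivity, ?_⟩
  intro κ hκ hκ8 A₀
  obtain ⟨θ, hθ, N0, HN⟩ := H κ hκ hκ8 A₀
  obtain ⟨K, hK⟩ : ∃ K : ℕ, K = ⌈2 / θ⌉₊ + 1 := ⟨_, rfl⟩
  have hKθ : 2 < θ * K := by
    have h1 : 2 / θ ≤ ⌈2 / θ⌉₊ := Nat.le_ceil _
    have h2 : 2 / θ + 1 ≤ K := by rw [hK]; push_cast; linarith
    have h3 := mul_le_mul_of_nonneg_left h2 hθ.le
    have h4 : θ * (2 / θ + 1) = 2 + θ := by field_simp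
    linarith
  have hlk : 1 ≤ Real.log (1 / κ) := by
    rw [Real.le_log_iff_exp_le (by positivity), le_div_iff₀ hκ]
    have := Real.exp_one_lt_d9
    nlinarith
  have hlk2 : κ ≤ κ * Real.log (1 / κ) ^ 2 := le_mul_of_one_le_right hκ.le (one_le_pow₀ hlk)
  have e1 := Pool.Agent.H398R2.BV.ev_log (2 * (2 ^ K * (1 + K)) / κ) 3 θ hθ
  have e2 := Real.tendsto_log_atTop.eventually_ge_atTop 1
  have e3 := (tendsto_rpow_atTop hθ).eventually_ge_atTop (2 + (3 + K) / κ)
  obtain ⟨N2, HN2⟩ := eventually_atTop.1 ((tendsto_natCast_atTop_atTop (R := ℝ)).eventually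
    (e1.and (e2.and (e3.and (eventually_ge_atTop 2)))))
  refine ⟨max N0 N2, fun N hN h hh1 hhe hh2 S v X hX hv hm hR => ?_⟩
  obtain ⟨z, D, h1, h2, h3, h4, h5⟩ := HN N ((le_max_left _ _).trans hN)
  obtain ⟨f1, f2, f3, f4⟩ := HN2 N ((le_max_right _ _).trans hN)
  have hN0 : (0 : ℝ) < N := by linarith
  have hzr : 2 + (3 + K) / κ ≤ z := f3.trans h1
  have hK0 : (0 : ℝ) ≤ K := Nat.cast_nonneg K
  have hκinv : 1 ≤ 1 / κ := by rw [le_div_iff₀ hκ]; linarith
  have hz5 : (5 : ℝ) ≤ z := by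
    have : (3 : ℝ) ≤ (3 + K) / κ := by
      rw [le_div_iff₀ hκ]
      nlinarith
    linarith
  have hz3 : 3 ≤ z := by
    have : (3 : ℝ) ≤ z := by linarith
    exact_mod_cast this
  have hKh : h < z ^ K := by
    have h6 : (h : ℝ) < (z : ℝ) ^ K := by
      calc (h : ℝ) ≤ (N : ℝ) ^ (2 : ℝ) := hh2
        _ < (N : ℝ) ^ (θ * K) := Real.rpow_lt_rpow_of_exponent_lt (by linarith) hKθ
        _ = ((N : ℝ) ^ θ) ^ K := by rw [Real.rpow_mul hN0.le, Real.rpow_natCast]
        _ ≤ (z : ℝ) ^ K := pow_le_pow_left₀ (by positivity) h1 _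
    exact_mod_cast h6
  have hKD : D < z ^ K := by
    have h6 : (D : ℝ) < (z : ℝ) ^ K := by
      calc (D : ℝ) ≤ (N : ℝ) ^ (1 : ℝ) := by rw [Real.rpow_one]; exact_mod_cast h3
        _ < (N : ℝ) ^ (θ * K) := Real.rpow_lt_rpow_of_exponent_lt (by linarith) (by linarith)
        _ = ((N : ℝ) ^ θ) ^ K := by rw [Real.rpow_mul hN0.le, Real.rpow_natCast]
        _ ≤ (z : ℝ) ^ K := pow_le_pow_left₀ (by positivity) h1 _
    exact_mod_cast h6
  have hD1 : 1 ≤ D := by omega
  -- the singular series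
  obtain ⟨s, hs⟩ : ∃ s, s = sing h := ⟨_, rfl⟩
  have hs1 : 1 ≤ s := by rw [hs]; exact sing_ge h
  have hFle : ∀ y : ℕ, z ≤ y → 2 * P3 y * D3 h y ≤ 2 * s := by
    intro y hy
    have hKy : h < y ^ K := hKh.trans_le (Nat.pow_le_pow_left hy K)
    have h6 := (sing_cmp h y K hh1 hKy (hz3.trans hy)).1
    rw [← hs] at h6
    have hy5 : (5 : ℝ) ≤ y := hz5.trans (by exact_mod_cast hy)
    have h7 : 1 / (y : ℝ) ≤ 1 / 2 := one_div_le_one_div_of_le (by norm_num) (by linarith)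
    have h8 : 0 ≤ 2 * P3 y * D3 h y := by
      have := P3_pos y
      have := D3_ge h y
      positivity
    have h9 : 2 * P3 y * D3 h y * (1 / 2) ≤ 2 * P3 y * D3 h y * (1 - 1 / (y : ℝ)) :=
      mul_le_mul_of_nonneg_left (by linarith) h8
    linarith
  have hW : ∀ y : ℕ, z ≤ y → y ≤ N → ∏ p ∈ PP y, (1 - gh h p) ≤ (2 * s) * V1 y := by
    intro y hy _
    rw [V_form h y hhe (by omega), mul_comm]
    exact mul_le_mul_of_nonneg_right (hFle y hy) (V1_pos y).le
  have hsv := h5 S v X (gh h) (fun q => |A S v q - X * gh h q|) (2 * s) (dens_gh h hhe S v X hX) hv hm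
    (by positivity) hW hR
  have hcmp := GG_cmp (dens_gh h hhe S v X hX) z D N K (by omega) hKD h3
  have hds := dsum h z D K hh1 hKh (by omega)
  rw [V_form h z hhe (by omega)] at hsv
  obtain ⟨F, hF⟩ : ∃ F, F = 2 * P3 z * D3 h z := ⟨_, rfl⟩
  obtain ⟨L, hL⟩ : ∃ L, L = Real.log N := ⟨_, rfl⟩
  obtain ⟨G, hG⟩ : ∃ G, G = GG z D N (gh h) := ⟨_, rfl⟩
  obtain ⟨G1, hG1⟩ : ∃ G1, G1 = GG z D N (fun q => 1 / (q : ℝ)) := ⟨_, rfl⟩
  obtain ⟨V, hV⟩ : ∃ V, V = V1 z := ⟨_, rfl⟩
  obtain ⟨lk, hlkd⟩ : ∃ lk, lk = κ * Real.log (1 / κ) ^ 2 := ⟨_, rfl⟩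
  have hF2 : F ≤ 2 * s := by rw [hF]; exact hFle z le_rfl
  have hF0 : 0 ≤ F := by
    rw [hF]
    have := P3_pos z
    have := D3_ge h z
    positivity
  have hV0 : 0 ≤ V := by rw [hV]; exact (V1_pos z).le
  have hV1 : V ≤ 1 := by rw [hV]; exact V1_le_one z
  have hsc := sing_cmp h z K hh1 hKh hz3
  rw [← hF, ← hs] at hsc
  have hFs : |F - s| ≤ κ * s := by
    have hzi : 1 / (z : ℝ) ≤ κ / 2 := by
      rw [div_le_div_iff₀ (by linarith) (by norm_num)]
      have h6 : (3 + K) / κ ≤ z := by linarith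
      rw [div_le_iff₀ hκ] at h6
      linarith
    have hzj : K * (1 / ((z : ℝ) - 2)) ≤ κ := by
      rw [mul_one_div, div_le_iff₀ (by linarith)]
      have h6 : (3 + K) / κ ≤ z - 2 := by linarith
      rw [div_le_iff₀ hκ] at h6
      linarith
    have h6 : (1 + 1 / ((z : ℝ) - 2)) ^ K ≤ Real.exp κ := by
      have h7 : 0 ≤ 1 / ((z : ℝ) - 2) := div_nonneg zero_le_one (by linarith)
      calc (1 + 1 / ((z : ℝ) - 2)) ^ K ≤ (Real.exp (1 / ((z : ℝ) - 2))) ^ K := by
            apply pow_le_pow_left₀ (by linarith)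
            have := Real.add_one_le_exp (1 / ((z : ℝ) - 2))
            linarith
        _ = Real.exp (K * (1 / ((z : ℝ) - 2))) := by rw [← Real.exp_nat_mul]
        _ ≤ _ := Real.exp_le_exp.2 hzj
    have h7 : s ≤ F * Real.exp κ := hsc.2.trans (mul_le_mul_of_nonneg_left h6 hF0)
    have h8 : s * (1 - κ) ≤ F := by
      have h9 : 1 - κ ≤ Real.exp (-κ) := by
        have := Real.add_one_le_exp (-κ)
        linarith
      calc s * (1 - κ) ≤ s * Real.exp (-κ) := mul_le_mul_of_nonneg_left h9 (by linarith)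
        _ ≤ F * Real.exp κ * Real.exp (-κ) := mul_le_mul_of_nonneg_right h7 (Real.exp_pos _).le
        _ = F := by rw [mul_assoc, ← Real.exp_add]; simp
    have h10 : F * (1 - κ / 2) ≤ s := by
      refine le_trans (mul_le_mul_of_nonneg_left ?_ hF0) hsc.1
      linarith
    have h11 : F * (κ / 2) ≤ 2 * s * (κ / 2) := mul_le_mul_of_nonneg_right hF2 (by positivity)
    rw [abs_le]
    constructor
    · linarith
    · linarith
  rw [← hF, ← hV, ← hG, ← hL, ← hlkd] at hsv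
  rw [← hG, ← hG1, ← hL] at hcmp
  rw [← hG1, ← hV, ← hL, ← hlkd] at h4
  rw [← hlkd] at hlk2
  rw [← hL] at f1 f2
  rw [← hs, ← hL, ← hlkd]
  have hzθ : 0 < (N : ℝ) ^ θ := by positivity
  have hcmp2 : |G - G1| ≤ κ := by
    refine hcmp.trans ?_
    have h6 : Real.log D ≤ L := by rw [hL]; exact log_le' hD1 h3
    have h7 : (∑ p ∈ PP D \ PP z, |gh h p - 1 / p|) * (1 + Real.log D) ≤ (1 + K) / (z : ℝ) * (2 * L) := by
      apply mul_le_mul hds (by linarith) _ (by positivity)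
      have : 0 ≤ Real.log D := Real.log_natCast_nonneg D
      linarith
    calc L ^ 2 * (2 ^ K * ((∑ p ∈ PP D \ PP z, |gh h p - 1 / p|) * (1 + Real.log D))) ≤
        L ^ 2 * (2 ^ K * ((1 + K) / (z : ℝ) * (2 * L))) := by
          apply mul_le_mul_of_nonneg_left _ (by positivity)
          exact mul_le_mul_of_nonneg_left h7 (by positivity)
      _ = κ * ((2 * (2 ^ K * (1 + K)) / κ * L ^ 3) / z) := by
          field_simp
      _ ≤ κ * 1 := by
          apply mul_le_mul_of_nonneg_left _ hκ.le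
          rw [div_le_one (by linarith)]
          exact f1.trans h1
      _ = κ := mul_one κ
  have hXs : 0 ≤ X * s := by positivity
  have hlk0 : 0 ≤ lk := by linarith
  have hL0 : 0 ≤ L := by linarith
  have m1 : |X * (V * F) * G - 2 * (X * s * L)| ≤ (2 * C + 6) * lk * (X * s * L) := by
    have e : X * (V * F) * G - 2 * (X * s * L) = (X * F) * (V * G1 - 2 * L) + (X * F) * (V * (G - G1)) +
        2 * X * L * (F - s) := by ring
    have hXF : 0 ≤ X * F := by positivity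
    have a1 : |(X * F) * (V * G1 - 2 * L)| ≤ (X * (2 * s)) * (C * lk * L) := by
      rw [abs_mul, abs_of_nonneg hXF]
      exact mul_le_mul (mul_le_mul_of_nonneg_left hF2 hX) h4 (abs_nonneg _) (by positivity)
    have a2 : |(X * F) * (V * (G - G1))| ≤ (X * (2 * s)) * κ := by
      rw [abs_mul, abs_of_nonneg hXF, abs_mul, abs_of_nonneg hV0]
      apply mul_le_mul (mul_le_mul_of_nonneg_left hF2 hX) _ (by positivity) (by positivity)
      calc V * |G - G1| ≤ 1 * κ := mul_le_mul hV1 hcmp2 (abs_nonneg _) zero_le_one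
        _ = κ := one_mul κ
    have a3 : |2 * X * L * (F - s)| ≤ 2 * X * L * (κ * s) := by
      rw [abs_mul, abs_of_nonneg (by positivity : 0 ≤ 2 * X * L)]
      exact mul_le_mul_of_nonneg_left hFs (by positivity)
    have a4 : (X * (2 * s)) * κ ≤ 2 * lk * (X * s * L) := by
      calc (X * (2 * s)) * κ = 2 * κ * (X * s * 1) := by ring
        _ ≤ 2 * lk * (X * s * L) := mul_le_mul (by linarith) (mul_le_mul_of_nonneg_left f2 hXs) (by positivity)
            (by positivity)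
    have a5 : 2 * X * L * (κ * s) ≤ 2 * lk * (X * s * L) := by
      calc 2 * X * L * (κ * s) = 2 * κ * (X * s * L) := by ring
        _ ≤ 2 * lk * (X * s * L) := mul_le_mul_of_nonneg_right (by linarith) (by positivity)
    rw [e]
    have a6 := abs_add_le ((X * F) * (V * G1 - 2 * L) + (X * F) * (V * (G - G1))) (2 * X * L * (F - s))
    have a7 := abs_add_le ((X * F) * (V * G1 - 2 * L)) ((X * F) * (V * (G - G1)))
    have a8 : 0 ≤ lk * (X * s * L) := by positivity
    have a9 : (2 * C + 6) * lk * (X * s * L) = (X * (2 * s)) * (C * lk * L) + 2 * lk * (X * s * L) +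
        2 * lk * (X * s * L) + 2 * (lk * (X * s * L)) := by ring
    rw [a9]
    linarith
  have m2 := abs_sub_le (∑ n ∈ S, L2 (v n)) (X * (V * F) * G) (2 * (X * s * L))
  have m3 : (4 * C + 6) * lk * (X * s * L) = C * lk * (X * (2 * s) * L) + (2 * C + 6) * lk * (X * s * L) := by ring
  rw [m3]
  linarith

/-- the number of the primes -/
theorem pi_unif (ε : ℝ) (hε : 0 < ε) (hε1 : ε ≤ 1) : ∃ N0 : ℕ, ∀ N : ℕ, N0 ≤ N → ∀ y : ℕ, y ≤ N →
    |((PP y).card : ℝ) * Real.log N - y| ≤ ε * N := by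
  have h0 := Pool.Agent.Cov.PNT.pi_tendsto
  obtain ⟨δ, hδ⟩ : ∃ δ, δ = ε / 4 := ⟨_, rfl⟩
  have hδ0 : 0 < δ := by rw [hδ]; positivity
  have e1 := h0.eventually_le_const (show (1 : ℝ) < 1 + δ by linarith)
  have e2 := h0.eventually_const_le (show (1 - δ : ℝ) < 1 by linarith)
  obtain ⟨Y, HY⟩ := eventually_atTop.1 (e1.and (e2.and (eventually_gt_atTop 0)))
  have t1 : Tendsto (fun N : ℝ => δ * N) atTop atTop := tendsto_id.const_mul_atTop hδ0
  have e3 := t1.eventually_ge_atTop (max Y 1)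
  have e4 := (Real.tendsto_log_atTop.comp t1).eventually_ge_atTop (2 * Real.log (1 / δ) / δ + 1)
  obtain ⟨N0, HN⟩ := eventually_atTop.1 ((tendsto_natCast_atTop_atTop (R := ℝ)).eventually (e3.and e4))
  have hcard : ∀ y : ℕ, (Nat.primeCounting ⌊(y : ℝ)⌋₊ : ℝ) = ((PP y).card : ℝ) := by
    intro y
    rw [Nat.floor_natCast, Nat.primeCounting, Nat.primeCounting', Nat.count_eq_card_filter_range]
    congr 2
    ext p
    rw [mem_filter, mem_range, mem_PP]
    exact ⟨fun hp => ⟨hp.2, by omega⟩, fun hp => ⟨by omega, hp.1⟩⟩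
  refine ⟨N0, fun N hN => ?_⟩
  obtain ⟨f3, f4⟩ := HN N hN
  simp only [Function.comp] at f4
  have hδN1 : 1 ≤ δ * N := (le_max_right _ _).trans f3
  have hδNY : Y ≤ δ * N := (le_max_left _ _).trans f3
  have hN0 : (0 : ℝ) < N := by
    by_contra hcon
    nlinarith
  have hδ1 : δ ≤ 1 / 4 := by linarith
  have hlδ : 0 ≤ Real.log (1 / δ) := by
    apply Real.log_nonneg
    rw [le_div_iff₀ hδ0]
    linarith
  have key : ∀ y : ℕ, δ * N ≤ y → y ≤ N → |((PP y).card : ℝ) * Real.log N - y| ≤ 2 * δ * N := by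
    intro y hy hyN
    obtain ⟨g1, g2, g3⟩ := HY y (hδNY.trans hy)
    rw [hcard, div_le_iff₀ g3] at g1
    rw [hcard, le_div_iff₀ g3] at g2
    have hyN' : (y : ℝ) ≤ N := by exact_mod_cast hyN
    have h1 : Real.log N - Real.log y ≤ Real.log (1 / δ) := by
      have h2 : Real.log (δ * N) ≤ Real.log y := Real.log_le_log (by linarith) hy
      rw [Real.log_mul hδ0.ne' hN0.ne'] at h2
      rw [one_div, Real.log_inv]
      linarith
    have h2 : 0 ≤ Real.log N - Real.log y := by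
      have := Real.log_le_log g3 hyN'
      linarith
    have h3 : 2 * Real.log (1 / δ) / δ + 1 ≤ Real.log y := f4.trans (Real.log_le_log (by linarith) hy)
    have h4 : 0 < Real.log y := by
      have : 0 ≤ 2 * Real.log (1 / δ) / δ := by positivity
      linarith
    have h5 : ((PP y).card : ℝ) * (Real.log N - Real.log y) ≤ δ * N := by
      have h6 : ((PP y).card : ℝ) * (Real.log N - Real.log y) ≤ ((PP y).card : ℝ) * Real.log (1 / δ) :=
        mul_le_mul_of_nonneg_left h1 (Nat.cast_nonneg _)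
      have h7 : 2 * Real.log (1 / δ) ≤ δ * Real.log y := by
        have h8 : 2 * Real.log (1 / δ) / δ ≤ Real.log y := by linarith
        rw [div_le_iff₀ hδ0] at h8
        linarith
      have h9 : ((PP y).card : ℝ) * Real.log (1 / δ) ≤ ((PP y).card : ℝ) * (δ * Real.log y / 2) :=
        mul_le_mul_of_nonneg_left (by linarith) (Nat.cast_nonneg _)
      have h10 : ((PP y).card : ℝ) * (δ * Real.log y / 2) = δ / 2 * (((PP y).card : ℝ) * Real.log y) := by ring
      have h11 : δ / 2 * (((PP y).card : ℝ) * Real.log y) ≤ δ / 2 * ((1 + δ) * y) :=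
        mul_le_mul_of_nonneg_left g1 (by positivity)
      have h12 : δ / 2 * ((1 + δ) * y) ≤ δ / 2 * (2 * N) := by
        apply mul_le_mul_of_nonneg_left _ (by positivity)
        apply mul_le_mul (by linarith) hyN' g3.le (by norm_num)
      linarith
    have h6 : 0 ≤ ((PP y).card : ℝ) * (Real.log N - Real.log y) := mul_nonneg (Nat.cast_nonneg _) h2
    have h7 : ((PP y).card : ℝ) * Real.log N = ((PP y).card : ℝ) * Real.log y +
        ((PP y).card : ℝ) * (Real.log N - Real.log y) := by ring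
    have h8 : δ * y ≤ δ * N := mul_le_mul_of_nonneg_left hyN' hδ0.le
    rw [h7, abs_le]
    constructor
    · linarith
    · linarith
  intro y hyN
  rcases le_or_gt (δ * N) (y : ℝ) with h | h
  · refine (key y h hyN).trans ?_
    rw [hδ]
    nlinarith
  · obtain ⟨y', hy'⟩ : ∃ y' : ℕ, y' = ⌈δ * N⌉₊ := ⟨_, rfl⟩
    have h1 : δ * N ≤ y' := by rw [hy']; exact Nat.le_ceil _
    have h2 : (y' : ℝ) < δ * N + 1 := by rw [hy']; exact Nat.ceil_lt_add_one (by positivity)
    have h3 : y' ≤ N := by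
      rw [hy']
      apply Nat.ceil_le.2
      nlinarith
    have h4 := (abs_le.1 (key y' h1 h3)).2
    have h5 : y ≤ y' := by
      have : (y : ℝ) ≤ y' := by linarith
      exact_mod_cast this
    have h6 : ((PP y).card : ℝ) ≤ (PP y').card := by
      have : (PP y).card ≤ (PP y').card := by
        apply card_le_card
        intro p hp
        rw [mem_PP] at hp ⊢
        exact ⟨hp.1, hp.2.trans h5⟩
      exact_mod_cast this
    have h7 : 0 ≤ Real.log N := Real.log_natCast_nonneg N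
    have h8 := mul_le_mul_of_nonneg_right h6 h7
    have h9 : 0 ≤ ((PP y).card : ℝ) * Real.log N := by positivity
    have h10 : (0 : ℝ) ≤ y := Nat.cast_nonneg y
    have h11 : ε * N = 4 * (δ * N) := by rw [hδ]; ring
    rw [h11, abs_le]
    constructor
    · linarith
    · linarith

end Pool.Agent.Q148.BA
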