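import Pool.Agent.Q148.BA.Real

/-! The asymptotic sieve for `Λ₂`: the summation of the error terms. -/

set_option autoImplicit false

namespace Pool.Agent.Q148.BA

theorem nm_alpha {κ C0 b : ℝ} (hκ : 0 < κ) (hκ8 : κ ≤ 1 / 8) (hC0 : 1 ≤ C0) (hb1 : 1 ≤ b) :
    κ / (2 * C0 * b) ≤ 1 := by
  rw [div_le_one (by positivity)]
  nlinarith [mul_le_mul hC0 hb1 (by norm_num) (by linarith)]

theorem nm_R {κ L x R : ℝ} (hx : 0 < x) (hκ : 0 < κ) (hL1 : 1 ≤ L) (hL : 128 ≤ κ * L) (hR : R ≤ x / L ^ 10) :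
    L ^ 4 * R ≤ κ / 128 * x := by
  have hL0 : 0 < L := by linarith
  have h1 : L ^ 4 * R ≤ L ^ 4 * (x / L ^ 10) := mul_le_mul_of_nonneg_left hR (by positivity)
  have h2 : L ^ 4 * (x / L ^ 10) = x / L ^ 6 := by field_simp
  have h3 : x / L ^ 6 ≤ κ / 128 * x := by
    rw [div_le_iff₀ (by positivity)]
    have h4 : L ≤ L ^ 6 := le_self_pow₀ hL1 (by norm_num)
    have h5 : 128 ≤ κ * L ^ 6 := hL.trans (mul_le_mul_of_nonneg_left h4 hκ.le)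
    have h6 := mul_le_mul_of_nonneg_right h5 hx.le
    linarith
  linarith

theorem nm_T1 {κ L x T Mz lM K2 : ℝ} (hκ : 0 < κ) (hx : 0 < x) (hL1 : 1 ≤ L) (hK2 : 1 ≤ K2)
    (hL16 : 16 * (8 + K2) ≤ κ * L) (hT : T ≤ x / L ^ 4) (hMz : 64 * (8 + K2) / κ * L ^ 2 * Mz ≤ x)
    (hT0 : 0 ≤ T) (hMz0 : 0 ≤ Mz) (hlM0 : 0 ≤ lM) (hlM : lM ≤ 2 * L) :
    2 * (T + 2 * Mz) * (2 * lM ^ 2 + K2 * L ^ 2) ≤ κ / 4 * x := by
  have hL0 : 0 < L := by linarith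
  have h1 : 2 * lM ^ 2 + K2 * L ^ 2 ≤ (8 + K2) * L ^ 2 := by
    have : lM ^ 2 ≤ (2 * L) ^ 2 := pow_le_pow_left₀ hlM0 hlM 2
    linarith
  have h2 : T * ((8 + K2) * L ^ 2) ≤ κ / 16 * x := by
    calc T * ((8 + K2) * L ^ 2) ≤ x / L ^ 4 * ((8 + K2) * L ^ 2) :=
          mul_le_mul_of_nonneg_right hT (by positivity)
      _ = (8 + K2) * x / L ^ 2 := by field_simp
      _ ≤ κ / 16 * x := by
        rw [div_le_iff₀ (by positivity)]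
        have h3 : L ≤ L ^ 2 := le_self_pow₀ hL1 (by norm_num)
        have h4 : 16 * (8 + K2) ≤ κ * L ^ 2 := hL16.trans (mul_le_mul_of_nonneg_left h3 hκ.le)
        have h5 := mul_le_mul_of_nonneg_right h4 hx.le
        linarith
  have h3 : Mz * ((8 + K2) * L ^ 2) ≤ κ / 64 * x := by
    have h4 : 64 * (8 + K2) / κ * L ^ 2 * Mz = 64 * (Mz * ((8 + K2) * L ^ 2)) / κ := by ring
    rw [h4, div_le_iff₀ hκ] at hMz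
    linarith
  have h9 : 0 < κ * x := by positivity
  calc 2 * (T + 2 * Mz) * (2 * lM ^ 2 + K2 * L ^ 2) ≤ 2 * (T + 2 * Mz) * ((8 + K2) * L ^ 2) :=
        mul_le_mul_of_nonneg_left h1 (by positivity)
    _ = 2 * (T * ((8 + K2) * L ^ 2)) + 4 * (Mz * ((8 + K2) * L ^ 2)) := by ring
    _ ≤ 2 * (κ / 16 * x) + 4 * (κ / 64 * x) := by linarith
    _ ≤ κ / 4 * x := by linarith

theorem nm_ab {κ C0 b : ℝ} (hκ : 0 < κ) (hC0 : 1 ≤ C0) (hb1 : 1 ≤ b) :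
    κ / (2 * C0 * b) / (1 / (8 * C0 ^ 2)) ≤ 4 * C0 * κ := by
  have : κ / (2 * C0 * b) / (1 / (8 * C0 ^ 2)) = 4 * C0 * κ / b := by
    field_simp
    ring
  rw [this]
  exact div_le_self (by positivity) hb1

theorem nm_T2' {κ L x R lz lM lQ J2 : ℝ} (hL0 : 0 < L) (hlz0 : 0 ≤ lz) (hlzL : lz ≤ L) (hlM0 : 0 ≤ lM)
    (hlM : lM ≤ 2 * L) (hlQ0 : 0 ≤ lQ) (hlQ : lQ ≤ L) (hR0 : 0 ≤ R) (hJ2 : 0 ≤ J2) (hJ2b : J2 ≤ 2 * L)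
    (hR1 : L ^ 4 * R ≤ κ / 128 * x) :
    2 * (lz * lM) * (J2 * (2 * lQ * R)) ≤ κ / 8 * x := by
  have h1 : lz * lM ≤ L * (2 * L) := mul_le_mul hlzL hlM hlM0 hL0.le
  have h2 : 2 * lQ * R ≤ 2 * L * R := mul_le_mul_of_nonneg_right (by linarith) hR0
  have h3 : J2 * (2 * lQ * R) ≤ 2 * L * (2 * L * R) := mul_le_mul hJ2b h2 (by positivity) (by positivity)
  calc 2 * (lz * lM) * (J2 * (2 * lQ * R)) ≤ 2 * (L * (2 * L)) * (2 * L * (2 * L * R)) :=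
        mul_le_mul (by linarith) h3 (by positivity) (by positivity)
    _ = 16 * (L ^ 4 * R) := by ring
    _ ≤ 16 * (κ / 128 * x) := by linarith
    _ = κ / 8 * x := by ring

theorem nm_co {κ L K2 ℓ lM : ℝ} (hL0 : 0 < L) (hlM0 : 0 ≤ lM) (hlM : lM ≤ 2 * L)
    (hℓ : K2 * ℓ ≤ κ ^ 2 * L) : K2 * (ℓ * (2 * lM)) + (2 * κ * L) ^ 2 ≤ 8 * κ ^ 2 * L ^ 2 := by
  have h1 : K2 * (ℓ * (2 * lM)) = (K2 * ℓ) * (2 * lM) := by ring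
  have h2 : (K2 * ℓ) * (2 * lM) ≤ (κ ^ 2 * L) * (4 * L) := mul_le_mul hℓ (by linarith) (by positivity) (by positivity)
  rw [h1]
  linarith

theorem nm_T3 {κ L x R Cm c C0 b lk P XV GE J1 co : ℝ} (hκ : 0 < κ) (hκ8 : κ ≤ 1 / 8) (hL0 : 0 < L)
    (hCm : 0 < Cm) (hc : 0 < c) (hC0 : 1 ≤ C0) (hb : 1 ≤ b) (hP : 0 ≤ P) (hXV0 : 0 ≤ XV) (hGE0 : 0 ≤ GE)
    (hJ1 : 0 ≤ J1) (hJ1b : J1 ≤ 2 * L) (hR0 : 0 ≤ R) (hbsq : b ^ 2 ≤ (C0 + 8) ^ 2 * lk ^ 2)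
    (hR3 : L ^ 3 * R ≤ κ / 128 * x)
    (r3 : XV * GE ≤ 4 * (Cm ^ 2 / c) * (3 * κ / (κ / (2 * C0 * b)) ^ 2) * (P / L))
    (hco : co ≤ 8 * κ ^ 2 * L ^ 2) :
    co * (2 * XV * GE + J1 * R) ≤
      768 * (Cm ^ 2 / c) * C0 ^ 2 * (C0 + 8) ^ 2 * (κ * lk ^ 2) * (P * L) + κ / 8 * x := by
  have h1 : co * (2 * XV * GE + J1 * R) ≤
      8 * κ ^ 2 * L ^ 2 * (2 * XV * GE + J1 * R) := mul_le_mul_of_nonneg_right hco (by positivity)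
  have h2 : 8 * κ ^ 2 * L ^ 2 * (2 * XV * GE) ≤
      768 * (Cm ^ 2 / c) * C0 ^ 2 * (C0 + 8) ^ 2 * (κ * lk ^ 2) * (P * L) := by
    calc 8 * κ ^ 2 * L ^ 2 * (2 * XV * GE) = 16 * κ ^ 2 * L ^ 2 * (XV * GE) := by ring
      _ ≤ 16 * κ ^ 2 * L ^ 2 * (4 * (Cm ^ 2 / c) * (3 * κ / (κ / (2 * C0 * b)) ^ 2) * (P / L)) :=
        mul_le_mul_of_nonneg_left r3 (by positivity)
      _ = 768 * (Cm ^ 2 / c) * C0 ^ 2 * κ * (P * L) * b ^ 2 := by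
        field_simp
        ring
      _ ≤ 768 * (Cm ^ 2 / c) * C0 ^ 2 * κ * (P * L) * ((C0 + 8) ^ 2 * lk ^ 2) :=
        mul_le_mul_of_nonneg_left hbsq (by positivity)
      _ = _ := by ring
  have h3 : 8 * κ ^ 2 * L ^ 2 * (J1 * R) ≤ κ / 8 * x := by
    have h4 : J1 * R ≤ 2 * L * R := mul_le_mul_of_nonneg_right hJ1b hR0
    have h5 : κ ^ 2 ≤ 1 := pow_le_one₀ hκ.le (by linarith)
    calc 8 * κ ^ 2 * L ^ 2 * (J1 * R) ≤ 8 * κ ^ 2 * L ^ 2 * (2 * L * R) :=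
          mul_le_mul_of_nonneg_left h4 (by positivity)
      _ = κ ^ 2 * (16 * (L ^ 3 * R)) := by ring
      _ ≤ 1 * (16 * (L ^ 3 * R)) := mul_le_mul_of_nonneg_right h5 (by positivity)
      _ ≤ 16 * (κ / 128 * x) := by linarith
      _ = κ / 8 * x := by ring
  linarith

theorem nm_T4 {κ L x R Cm c C0 b lk P XV GD J1 hb : ℝ} (hκ : 0 < κ) (hκ8 : κ ≤ 1 / 8) (hL0 : 0 < L) (hx : 0 < x)
    (hCm : 0 < Cm) (hc : 0 < c) (hC0 : 1 ≤ C0) (hb1 : 1 ≤ b) (hP : 0 ≤ P) (hXV0 : 0 ≤ XV) (hGD0 : 0 ≤ GD)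
    (hJ1b : J1 ≤ 2 * L) (hR0 : 0 ≤ R) (hbsq : b ^ 2 ≤ (C0 + 8) ^ 2 * lk ^ 2)
    (hR3 : L ^ 3 * R ≤ κ / 128 * x)
    (r4 : XV * GD ≤ 4 * (Cm ^ 2 / c) * (1 / (κ / (2 * C0 * b)) ^ 2) * (P / L))
    (hhb : hb ≤ κ ^ 4) :
    L ^ 2 * (hb * XV * GD + J1 * R) ≤
      16 * (Cm ^ 2 / c) * C0 ^ 2 * (C0 + 8) ^ 2 * (κ * lk ^ 2) * (P * L) + κ / 8 * x := by
  have hPL : 0 ≤ P * L := by positivity
  have h2 : L ^ 2 * (hb * XV * GD) ≤ 16 * (Cm ^ 2 / c) * C0 ^ 2 * (C0 + 8) ^ 2 * (κ * lk ^ 2) * (P * L) := by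
    have h3 : 0 ≤ XV * GD := by positivity
    have h6 : κ ^ 2 ≤ κ := by
      rw [pow_two]
      exact mul_le_of_le_one_left hκ.le (by linarith)
    calc L ^ 2 * (hb * XV * GD) = L ^ 2 * (hb * (XV * GD)) := by ring
      _ ≤ L ^ 2 * (κ ^ 4 * (XV * GD)) :=
        mul_le_mul_of_nonneg_left (mul_le_mul_of_nonneg_right hhb h3) (by positivity)
      _ ≤ L ^ 2 * (κ ^ 4 * (4 * (Cm ^ 2 / c) * (1 / (κ / (2 * C0 * b)) ^ 2) * (P / L))) :=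
        mul_le_mul_of_nonneg_left (mul_le_mul_of_nonneg_left r4 (by positivity)) (by positivity)
      _ = 16 * (Cm ^ 2 / c) * C0 ^ 2 * (κ ^ 2 * ((P * L) * b ^ 2)) := by
        field_simp
        ring
      _ ≤ 16 * (Cm ^ 2 / c) * C0 ^ 2 * (κ * ((P * L) * ((C0 + 8) ^ 2 * lk ^ 2))) := by
        apply mul_le_mul_of_nonneg_left _ (by positivity)
        exact mul_le_mul h6 (mul_le_mul_of_nonneg_left hbsq hPL) (by positivity) hκ.le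
      _ = _ := by ring
  have h3 : L ^ 2 * (J1 * R) ≤ κ / 8 * x := by
    have h4 : J1 * R ≤ 2 * L * R := mul_le_mul_of_nonneg_right hJ1b hR0
    have h9 : 0 < κ * x := by positivity
    calc L ^ 2 * (J1 * R) ≤ L ^ 2 * (2 * L * R) := mul_le_mul_of_nonneg_left h4 (by positivity)
      _ = 2 * (L ^ 3 * R) := by ring
      _ ≤ 2 * (κ / 128 * x) := by linarith
      _ ≤ κ / 8 * x := by linarith
  rw [mul_add]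
  linarith

theorem num (κ α β L x P T Mz lM lz lw lQ XV XW GE GD R J1 J2 ℓ b C0 C1 Cm c lk hb lE lD K2 : ℝ)
    (hκ : 0 < κ) (hκ8 : κ ≤ 1 / 8) (hx : 0 < x)
    (hα : α = κ / (2 * C0 * b)) (hβ : β = 1 / (8 * C0 ^ 2)) (hC0 : 1 ≤ C0) (hC1 : 0 < C1)
    (hCm : 0 < Cm) (hc : 0 < c) (hb1 : 1 ≤ b) (hbl : b ≤ (C0 + 8) * lk) (hlk : 1 ≤ lk) (hK2 : 1 ≤ K2)
    (hL : 128 / κ ≤ L) (hL16 : 16 * (8 + K2) / κ ≤ L) (hP : 0 ≤ P)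
    (hT : T ≤ x / L ^ 4) (hMz : 64 * (8 + K2) / κ * L ^ 2 * Mz ≤ x) (hT0 : 0 ≤ T) (hMz0 : 0 ≤ Mz)
    (hlM0 : 0 ≤ lM) (hlM : lM ≤ 2 * L) (hlz1 : α * L / 2 ≤ lz) (hlz2 : lz ≤ α * L) (hlw1 : β * L / 2 ≤ lw)
    (hlQ0 : 0 ≤ lQ) (hlQ : lQ ≤ L)
    (hXV0 : 0 ≤ XV) (hXV : XV ≤ P * (Cm / lz)) (hXW : XW ≤ P * (Cm / lw))
    (hGE : GE ≤ Cm / c * (lE / lz)) (hlE : lE ≤ 3 * κ * L) (hGD : GD ≤ Cm / c * (lD / lz)) (hlD : lD ≤ 1 * L)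
    (hR0 : 0 ≤ R) (hR : R ≤ x / L ^ 10) (hJ1 : 0 ≤ J1) (hJ1b : J1 ≤ 2 * L) (hJ2 : 0 ≤ J2) (hJ2b : J2 ≤ 2 * L)
    (hℓ : K2 * ℓ ≤ κ ^ 2 * L) (hhb : hb ≤ κ ^ 4) (hGE0 : 0 ≤ GE) (hGD0 : 0 ≤ GD) :
    2 * (T + 2 * Mz) * (2 * lM ^ 2 + K2 * L ^ 2) + (8 * C1 * XW * (lM * lz) + 2 * (lz * lM) * (J2 * (2 * lQ * R))) +
      (K2 * (ℓ * (2 * lM)) + (2 * κ * L) ^ 2) * (2 * XV * GE + J1 * R) + L ^ 2 * (hb * XV * GD + J1 * R) ≤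
      (128 * C0 * C1 * Cm + 784 * (Cm ^ 2 / c) * C0 ^ 2 * (C0 + 8) ^ 2) * (κ * lk ^ 2) * (P * L) + κ * x := by
  have hb0 : 0 < b := by linarith
  have hC00 : 0 < C0 := by linarith
  have hα0 : 0 < α := by rw [hα]; positivity
  have hβ0 : 0 < β := by rw [hβ]; positivity
  have hα1 : α ≤ 1 := by rw [hα]; exact nm_alpha hκ hκ8 hC0 hb1
  have hL128 : 128 ≤ κ * L := by
    have := (div_le_iff₀ hκ).1 hL
    linarith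
  have hL16' : 16 * (8 + K2) ≤ κ * L := by
    have := (div_le_iff₀ hκ).1 hL16
    linarith
  have hL1' : 1 ≤ L := by
    have : 1 ≤ 128 / κ := by rw [le_div_iff₀ hκ]; linarith
    linarith
  have hL0 : 0 < L := by linarith
  have hR1 := nm_R hx hκ hL1' hL128 hR
  have hR3 : L ^ 3 * R ≤ κ / 128 * x := by
    refine le_trans (mul_le_mul_of_nonneg_right ?_ hR0) hR1
    exact pow_le_pow_right₀ hL1' (by norm_num)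
  have hlz0 : 0 < lz := lt_of_lt_of_le (by positivity) hlz1
  have hlzL : lz ≤ L := hlz2.trans (mul_le_of_le_one_left hL0.le hα1)
  have T1 := nm_T1 hκ hx hL1' hK2 hL16' hT hMz hT0 hMz0 hlM0 hlM
  have T2 : 8 * C1 * XW * (lM * lz) ≤ 128 * C0 * C1 * Cm * (κ * lk ^ 2) * (P * L) := by
    refine (rt2 C1 Cm α β L P XW lM lz lw hC1.le hCm.le hα0 hβ0 hL1' hP hlw1 hXW hlM0 hlM hlz0.le hlz2).trans ?_
    have hαβ : α / β ≤ 4 * C0 * κ := by rw [hα, hβ]; exact nm_ab hκ hC0 hb1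
    have h1 : 32 * C1 * Cm * (α / β) ≤ 32 * C1 * Cm * (4 * C0 * κ) := mul_le_mul_of_nonneg_left hαβ (by positivity)
    have h2 : 1 ≤ lk ^ 2 := one_le_pow₀ hlk
    have h3 : κ ≤ κ * lk ^ 2 := le_mul_of_one_le_right hκ.le h2
    refine mul_le_mul_of_nonneg_right ?_ (by positivity)
    calc 32 * C1 * Cm * (α / β) ≤ 32 * C1 * Cm * (4 * C0 * κ) := h1
      _ = 128 * C0 * C1 * Cm * κ := by ring
      _ ≤ 128 * C0 * C1 * Cm * (κ * lk ^ 2) := mul_le_mul_of_nonneg_left h3 (by positivity)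
  have T2' := nm_T2' hL0 hlz0.le hlzL hlM0 hlM hlQ0 hlQ hR0 hJ2 hJ2b hR1
  have r3 := rt3 Cm c α L P XV lz lE (3 * κ) GE hCm.le hc hα0 hL1' hP hlz1 hXV0 hXV hlE (by positivity) hGE
  have r4 := rt3 Cm c α L P XV lz lD 1 GD hCm.le hc hα0 hL1' hP hlz1 hXV0 hXV hlD (by positivity) hGD
  rw [hα] at r3 r4
  have hco := nm_co hL0 hlM0 hlM hℓ
  have hbsq : b ^ 2 ≤ (C0 + 8) ^ 2 * lk ^ 2 := by
    rw [← mul_pow]
    exact pow_le_pow_left₀ hb0.le hbl 2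
  have T3 := nm_T3 hκ hκ8 hL0 hCm hc hC0 hb1 hP hXV0 hGE0 hJ1 hJ1b hR0 hbsq hR3 r3 hco
  have T4 := nm_T4 hκ hκ8 hL0 hx hCm hc hC0 hb1 hP hXV0 hGD0 hJ1b hR0 hbsq hR3 r4 hhb
  have hpos : 0 < κ * x := by positivity
  have hfin : 128 * C0 * C1 * Cm * (κ * lk ^ 2) * (P * L) +
      768 * (Cm ^ 2 / c) * C0 ^ 2 * (C0 + 8) ^ 2 * (κ * lk ^ 2) * (P * L) +
      16 * (Cm ^ 2 / c) * C0 ^ 2 * (C0 + 8) ^ 2 * (κ * lk ^ 2) * (P * L) =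
      (128 * C0 * C1 * Cm + 784 * (Cm ^ 2 / c) * C0 ^ 2 * (C0 + 8) ^ 2) * (κ * lk ^ 2) * (P * L) := by ring
  rw [← hfin]
  linarith

end Pool.Agent.Q148.BA
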