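import Pool.Agent.Q148.BA.Abs
import Pool.Agent.Q148.BA.Num
import Pool.Agent.H398R2.BV6

/-! The asymptotic sieve for `Λ₂`: the theorem for sequences with a level of distribution. -/

set_option autoImplicit false

namespace Pool.Agent.Q148.BA

open Finset Filter

theorem exJ (y : ℝ) (hy : 2 ≤ y) :
    ∃ J : ℕ, ((2 ^ 2 ^ J : ℕ) : ℝ) ≤ y ∧ y < ((2 ^ 2 ^ J : ℕ) : ℝ) ^ 2 := by
  have hex : ∃ J : ℕ, y < ((2 ^ 2 ^ J : ℕ) : ℝ) := by
    obtain ⟨n, hn⟩ := exists_nat_gt y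
    refine ⟨n, hn.trans ?_⟩
    have h1 : n < 2 ^ n := Nat.lt_two_pow_self
    have h2 : 2 ^ n ≤ 2 ^ 2 ^ n := Nat.pow_le_pow_right (by norm_num) h1.le
    exact_mod_cast h1.trans_le h2
  classical
  obtain ⟨J0, h0, hmin⟩ : ∃ J0, y < ((2 ^ 2 ^ J0 : ℕ) : ℝ) ∧ ∀ m < J0, ¬ y < ((2 ^ 2 ^ m : ℕ) : ℝ) :=
    ⟨Nat.find hex, Nat.find_spec hex, fun m hm => Nat.find_min hex hm⟩
  have hJ0 : J0 ≠ 0 := by
    rintro rfl
    norm_num at h0
    linarith
  obtain ⟨J, rfl⟩ := Nat.exists_eq_succ_of_ne_zero hJ0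
  refine ⟨J, ?_, ?_⟩
  · exact not_lt.1 (hmin J (Nat.lt_succ_self J))
  · have : ((2 ^ 2 ^ J : ℕ) : ℝ) ^ 2 = ((2 ^ 2 ^ (J + 1) : ℕ) : ℝ) := by
      rw [pow_succ 2 J, pow_mul]
      push_cast
      ring
    rw [this]
    exact h0

/-- **The asymptotic sieve for `Λ₂`.** -/
theorem bas : ∃ C : ℝ, 0 < C ∧ ∀ κ : ℝ, 0 < κ → κ ≤ 1 / 8 → ∀ A : ℕ, ∃ θ : ℝ, 0 < θ ∧
    ∃ N0 : ℕ, ∀ N : ℕ, N0 ≤ N → ∃ z D : ℕ, (N : ℝ) ^ θ ≤ z ∧ z ≤ D ∧ D ≤ N ∧
    ∀ (S : Finset ℕ) (v : ℕ → ℕ) (X : ℝ) (g r : ℕ → ℝ) (W : ℝ), Dens S v X g r →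
      (∀ n ∈ S, (v n : ℝ) ≤ N * Real.log N ^ A) →
      (∀ m, 1 ≤ m → (S.filter (fun n => v n = m)).card ≤ 2) → 0 ≤ W →
      (∀ y : ℕ, z ≤ y → y ≤ N → ∏ p ∈ PP y, (1 - g p) ≤ W * V1 y) →
      ∑ m ∈ Icc 1 ⌊(N : ℝ) ^ (1 - κ)⌋₊, r m ≤ N / Real.log N ^ 10 →
      |∑ n ∈ S, L2 (v n) - X * (∏ p ∈ PP z, (1 - g p)) * GG z D N g| ≤
        C * (κ * Real.log (1 / κ) ^ 2) * (X * W * Real.log N) + κ * N := by
  obtain ⟨C0, C1, hC0, hC1, HA⟩ := abs2
  obtain ⟨c, Cm, z1, hc, hCm, hz1, HM⟩ := mertens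
  have hC0r : (1 : ℝ) ≤ C0 := by exact_mod_cast hC0
  refine ⟨128 * C0 * C1 * Cm + 784 * (Cm ^ 2 / c) * C0 ^ 2 * (C0 + 8) ^ 2, by positivity, ?_⟩
  intro κ hκ hκ8 A
  -- the parameters
  obtain ⟨lk, hlk⟩ : ∃ lk, lk = Real.log (1 / κ) := ⟨_, rfl⟩
  have hlk1 : 1 ≤ lk := by
    rw [hlk, Real.le_log_iff_exp_le (by positivity), le_div_iff₀ hκ]
    have := Real.exp_one_lt_d9
    nlinarith
  have hl2 := Real.log_two_gt_d9
  obtain ⟨b, hb⟩ : ∃ b : ℕ, b = C0 + ⌈4 * lk / Real.log 2⌉₊ := ⟨_, rfl⟩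
  have hbC : C0 ≤ b := by omega
  have hb1 : 1 ≤ b := by omega
  have hbr : (1 : ℝ) ≤ b := by exact_mod_cast hb1
  have hbl : (b : ℝ) ≤ (C0 + 8) * lk := by
    rw [hb]
    push_cast
    have h1 := Nat.ceil_lt_add_one (show 0 ≤ 4 * lk / Real.log 2 by positivity)
    have h2 : 4 * lk / Real.log 2 ≤ 6 * lk := by
      rw [div_le_iff₀ (by positivity)]
      nlinarith
    nlinarith
  have hbk : (1 / 2 : ℝ) ^ b ≤ κ ^ 4 := by
    have h1 : 4 * lk ≤ b * Real.log 2 := by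
      have h2 : 4 * lk / Real.log 2 ≤ b := by
        refine (Nat.le_ceil _).trans ?_
        rw [hb]
        push_cast
        have : (0 : ℝ) ≤ C0 := by positivity
        linarith
      rwa [div_le_iff₀ (by positivity)] at h2
    have h3 : Real.log ((1 / 2 : ℝ) ^ b) ≤ Real.log (κ ^ 4) := by
      rw [Real.log_pow, Real.log_pow, one_div, Real.log_inv]
      rw [hlk, one_div, Real.log_inv] at h1
      push_cast
      linarith
    exact (Real.log_le_log_iff (by positivity) (by positivity)).1 h3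
  obtain ⟨α, hα⟩ : ∃ α : ℝ, α = κ / (2 * C0 * b) := ⟨_, rfl⟩
  have hα0 : 0 < α := by rw [hα]; positivity
  have hακ : κ = 2 * C0 * b * α := by rw [hα]; field_simp
  have hακ2 : α ≤ κ / 2 := by
    rw [hακ]
    have : 1 ≤ (C0 : ℝ) * b := by nlinarith
    nlinarith
  obtain ⟨β, hβ⟩ : ∃ β : ℝ, β = 1 / (8 * C0 ^ 2) := ⟨_, rfl⟩
  have hβ0 : 0 < β := by rw [hβ]; positivity
  have hβ8 : β ≤ 1 / 8 := by
    rw [hβ, div_le_div_iff₀ (by positivity) (by norm_num)]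
    nlinarith
  have hαβ : α ≤ β := by
    rw [hα, hβ, div_le_div_iff₀ (by positivity) (by positivity)]
    have h1 : (C0 : ℝ) ≤ b := by exact_mod_cast hbC
    have h2 : (C0 : ℝ) ^ 2 ≤ C0 * b := by nlinarith
    nlinarith
  obtain ⟨K, hK⟩ : ∃ K : ℕ, K = ⌈4 / α⌉₊ + 1 := ⟨_, rfl⟩
  have hKα : 2 < α / 2 * K := by
    have h1 : 4 / α ≤ ⌈4 / α⌉₊ := Nat.le_ceil _
    have h2 : 4 / α + 1 ≤ K := by rw [hK]; push_cast; linarith
    have h3 := mul_le_mul_of_nonneg_left h2 (by positivity : 0 ≤ α / 2)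
    have h4 : α / 2 * (4 / α + 1) = 2 + α / 2 := by field_simp; ring
    linarith
  refine ⟨α / 2, by positivity, ?_⟩
  -- the thresholds
  have tl := Real.tendsto_log_atTop
  have e1 : ∀ᶠ x : ℝ in atTop, 3 ≤ x := eventually_ge_atTop 3
  have e2 : ∀ᶠ x : ℝ in atTop, (C0 : ℝ) ≤ x ^ (κ / 2) :=
    (tendsto_rpow_atTop (by positivity)).eventually_ge_atTop _
  have e3 := Pool.Agent.H398R2.BV.ev_log 1 4 (1 / 2) (by norm_num)
  have e4 := Pool.Agent.H398R2.BV.ev_log 3 A κ hκ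
  have e6 : ∀ᶠ x : ℝ in atTop, 2 ^ K * (A + 4) * Real.log (Real.log x) ≤ κ ^ 2 * Real.log x := by
    have h1 : Tendsto (fun y : ℝ => Real.log y / y) atTop (nhds 0) :=
      Real.isLittleO_log_id_atTop.tendsto_div_nhds_zero
    have h2 := (h1.comp tl).eventually_le_const (show (0 : ℝ) < κ ^ 2 / (2 ^ K * (A + 4)) by positivity)
    filter_upwards [h2, tl.eventually_gt_atTop 0] with x h3 h4
    simp only [Function.comp] at h3
    rw [div_le_div_iff₀ h4 (by positivity)] at h3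
    linarith
  have e7 := Pool.Agent.H398R2.BV.ev_log (64 * (8 + 2 ^ K) / κ) (A + 2) (α / 2) (by positivity)
  have e8 := tl.eventually_ge_atTop (128 / κ + 16 * (8 + 2 ^ K) / κ)
  have e9 : ∀ᶠ x : ℝ in atTop, (z1 : ℝ) + 2 ≤ x ^ (α / 2) :=
    (tendsto_rpow_atTop (by positivity)).eventually_ge_atTop _
  have evN := tendsto_natCast_atTop_atTop (R := ℝ) |>.eventually (e1.and (e2.and (e3.and (e4.and
    (e6.and (e7.and (e8.and e9)))))))
  obtain ⟨N0, HN⟩ := eventually_atTop.1 evN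
  refine ⟨N0, fun N hN => ?_⟩
  obtain ⟨f1, f2, f3, f4, f6, f7, f8, f9⟩ := HN N hN
  clear e1 e2 e3 e4 e6 e7 e8 e9 evN HN
  obtain ⟨x, hx⟩ : ∃ x : ℝ, x = N := ⟨_, rfl⟩
  obtain ⟨L, hL⟩ : ∃ L : ℝ, L = Real.log N := ⟨_, rfl⟩
  have hx0 : 0 < x := by rw [hx]; linarith
  have hx1 : 1 ≤ x := by rw [hx]; linarith
  have hκr : 1 ≤ 1 / κ := by rw [le_div_iff₀ hκ]; linarith
  have hLb : 128 / κ + 16 * (8 + 2 ^ K) / κ ≤ L := by rw [hL]; exact f8
  have hL128 : 128 / κ ≤ L := by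
    have : 0 ≤ 16 * (8 + (2 : ℝ) ^ K) / κ := by positivity
    linarith
  have hL16 : 16 * (8 + 2 ^ K) / κ ≤ L := by
    have : 0 ≤ 128 / κ := by positivity
    linarith
  have hL1 : 1 ≤ L := by
    have : 1 ≤ 128 / κ := by rw [le_div_iff₀ hκ]; linarith
    linarith
  have hL0 : 0 < L := by linarith
  rw [← hx] at f1 f2 f3 f4 f6 f7 f9 ⊢
  rw [show Real.log x = L by rw [hx]; exact hL.symm] at f3 f4 f6 f7 ⊢
  have hxL : Real.log x = L := by rw [hx]; exact hL.symm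
  -- z and w
  have hxα2 : 2 ≤ x ^ α := by
    have h1 : x ^ (α / 2) ≤ x ^ α := Real.rpow_le_rpow_of_exponent_le hx1 (by linarith)
    have h2 : (0 : ℝ) ≤ z1 := Nat.cast_nonneg _
    linarith
  have hxβ2 : 2 ≤ x ^ β := hxα2.trans (Real.rpow_le_rpow_of_exponent_le hx1 hαβ)
  obtain ⟨J, hJ1, hJ2⟩ := exJ _ hxα2
  obtain ⟨J', hJ'1, hJ'2⟩ := exJ _ hxβ2
  obtain ⟨z, hz⟩ : ∃ z : ℕ, z = 2 ^ 2 ^ J := ⟨_, rfl⟩
  obtain ⟨w, hw⟩ : ∃ w : ℕ, w = 2 ^ 2 ^ J' := ⟨_, rfl⟩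
  have hJ1 : (z : ℝ) ≤ x ^ α := by rw [hz]; exact hJ1
  have hJ2 : x ^ α < (z : ℝ) ^ 2 := by rw [hz]; exact hJ2
  have hJ'1 : (w : ℝ) ≤ x ^ β := by rw [hw]; exact hJ'1
  have hJ'2 : x ^ β < (w : ℝ) ^ 2 := by rw [hw]; exact hJ'2
  have hz0 : (0 : ℝ) < z := by rw [hz]; positivity
  have hw0 : (0 : ℝ) < w := by rw [hw]; positivity
  have hzl : x ^ (α / 2) < z := by
    have h1 : (x ^ (α / 2)) ^ 2 = x ^ α := by
      rw [← Real.rpow_natCast, ← Real.rpow_mul hx0.le]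
      congr 1
      push_cast
      ring
    rw [← h1] at hJ2
    exact lt_of_pow_lt_pow_left₀ 2 hz0.le hJ2
  have hzz1 : z1 ≤ z := by
    have h1 : (z1 : ℝ) ≤ z := by linarith
    exact_mod_cast h1
  have hz2 : 2 ≤ z := hz1.trans hzz1
  have hJJ : J ≤ J' := by
    by_contra hcon
    have h1 : 2 ^ 2 ^ (J' + 1) ≤ 2 ^ 2 ^ J :=
      Nat.pow_le_pow_right (by norm_num) (Nat.pow_le_pow_right (by norm_num) (by omega))
    have h2 : (w : ℝ) ^ 2 ≤ z := by
      have h3 : w ^ 2 = 2 ^ 2 ^ (J' + 1) := by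
        rw [hw, pow_succ 2 J', pow_mul]
      rw [← h3, ← hz] at h1
      exact_mod_cast h1
    have h4 : x ^ α ≤ x ^ β := Real.rpow_le_rpow_of_exponent_le hx1 hαβ
    linarith
  have hzw : z ≤ w := by
    rw [hz, hw]
    exact Nat.pow_le_pow_right (by norm_num) (Nat.pow_le_pow_right (by norm_num) hJJ)
  -- logarithms
  have hlz1 : α * L / 2 ≤ Real.log z := by
    have h1 := Real.log_le_log (by positivity) hzl.le
    rw [Real.log_rpow hx0, hxL] at h1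
    linarith
  have hlz2 : Real.log z ≤ α * L := by
    have h1 := Real.log_le_log hz0 hJ1
    rw [Real.log_rpow hx0, hxL] at h1
    exact h1
  have hlw1 : β * L / 2 ≤ Real.log w := by
    have h1 := Real.log_le_log (by positivity) hJ'2.le
    rw [Real.log_rpow hx0, hxL, Real.log_pow] at h1
    push_cast at h1
    linarith
  have hlw2 : Real.log w ≤ β * L := by
    have h1 := Real.log_le_log hw0 hJ'1
    rw [Real.log_rpow hx0, hxL] at h1
    exact h1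
  -- D, E, M, T, Q
  obtain ⟨D, hD⟩ : ∃ D : ℕ, D = ⌊x ^ (1 - 2 * κ)⌋₊ := ⟨_, rfl⟩
  have hDle : (D : ℝ) ≤ x ^ (1 - 2 * κ) := by rw [hD]; exact Nat.floor_le (by positivity)
  have hx12 : x ^ (α / 2) ≤ x ^ (1 - 2 * κ) := Real.rpow_le_rpow_of_exponent_le hx1 (by linarith)
  have hDge : x ^ (1 - 2 * κ) / 2 ≤ D := by
    have h1 := Nat.lt_floor_add_one (x ^ (1 - 2 * κ))
    rw [← hD] at h1
    have h2 : (0 : ℝ) ≤ z1 := Nat.cast_nonneg _
    linarith
  have hD1 : 1 ≤ D := by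
    have h2 : (0 : ℝ) ≤ z1 := Nat.cast_nonneg _
    have h1 : (1 : ℝ) ≤ D := by linarith
    exact_mod_cast h1
  have hD0 : (0 : ℝ) < D := by exact_mod_cast hD1
  have hDN : D ≤ N := by
    have h1 : (D : ℝ) ≤ x := by
      refine hDle.trans ?_
      calc x ^ (1 - 2 * κ) ≤ x ^ (1 : ℝ) := Real.rpow_le_rpow_of_exponent_le hx1 (by linarith)
        _ = x := Real.rpow_one x
    rw [hx] at h1
    exact_mod_cast h1
  have hzD : z ≤ D := by
    rw [hD]
    apply Nat.le_floor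
    refine hJ1.trans (Real.rpow_le_rpow_of_exponent_le hx1 ?_)
    linarith
  refine ⟨z, D, hzl.le, hzD, hDN, ?_⟩
  obtain ⟨M, hM⟩ : ∃ M : ℕ, M = ⌊x * L ^ A⌋₊ := ⟨_, rfl⟩
  have hMle : (M : ℝ) ≤ x * L ^ A := by rw [hM]; exact Nat.floor_le (by positivity)
  have hLA1 : 1 ≤ L ^ A := one_le_pow₀ hL1
  have hNM : N ≤ M := by
    rw [hM]
    apply Nat.le_floor
    rw [← hx]
    exact le_mul_of_one_le_right hx0.le hLA1
  have hM1 : 1 ≤ M := (hD1.trans hDN).trans hNM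
  have hM0 : (0 : ℝ) < M := by exact_mod_cast hM1
  have hLAκ : L ^ A ≤ x ^ κ := by
    have : 0 ≤ L ^ A := by positivity
    linarith
  have hlM : Real.log M ≤ 2 * L := by
    have h1 : (M : ℝ) ≤ x ^ (2 : ℝ) := by
      refine hMle.trans ?_
      calc x * L ^ A ≤ x * x ^ κ := mul_le_mul_of_nonneg_left hLAκ hx0.le
        _ = x ^ (1 + κ) := by rw [Real.rpow_add hx0, Real.rpow_one]
        _ ≤ x ^ (2 : ℝ) := Real.rpow_le_rpow_of_exponent_le hx1 (by linarith)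
    have h2 := Real.log_le_log hM0 h1
    rw [Real.log_rpow hx0, hxL] at h2
    exact h2
  have hlM0 : 0 ≤ Real.log M := Real.log_natCast_nonneg M
  obtain ⟨T, hT⟩ : ∃ T : ℕ, T = ⌊x / L ^ 4⌋₊ := ⟨_, rfl⟩
  have hTle : (T : ℝ) ≤ x / L ^ 4 := by rw [hT]; exact Nat.floor_le (by positivity)
  obtain ⟨E, hE⟩ : ∃ E : ℕ, E = M / D + 1 := ⟨_, rfl⟩
  have hEle : (E : ℝ) ≤ x ^ (3 * κ) := by
    have h1 : ((M / D : ℕ) : ℝ) ≤ M / D := Nat.cast_div_le
    have h2 : (M : ℝ) / D ≤ x * L ^ A / (x ^ (1 - 2 * κ) / 2) :=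
      div_le_div₀ (by positivity) hMle (by positivity) hDge
    have h3 : x * L ^ A / (x ^ (1 - 2 * κ) / 2) = 2 * (x ^ (2 * κ) * L ^ A) := by
      have h4 : x = x ^ (1 - 2 * κ) * x ^ (2 * κ) := by
        rw [← Real.rpow_add hx0]
        conv_lhs => rw [← Real.rpow_one x]
        congr 1
        ring
      have h5 : 0 < x ^ (1 - 2 * κ) := by positivity
      rw [div_eq_iff (by positivity)]
      calc x * L ^ A = (x ^ (1 - 2 * κ) * x ^ (2 * κ)) * L ^ A := by rw [← h4]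
        _ = _ := by ring
    have h6 : 1 ≤ x ^ (2 * κ) * L ^ A := by
      have : 1 ≤ x ^ (2 * κ) := Real.one_le_rpow hx1 (by positivity)
      exact one_le_mul_of_one_le_of_one_le this hLA1
    have h7 : x ^ (3 * κ) = x ^ (2 * κ) * x ^ κ := by
      rw [← Real.rpow_add hx0]
      congr 1
      ring
    have h8 : (E : ℝ) ≤ 3 * (x ^ (2 * κ) * L ^ A) := by
      rw [hE]
      push_cast
      rw [h3] at h2
      linarith
    rw [h7]
    have h9 := mul_le_mul_of_nonneg_left f4 (by positivity : 0 ≤ x ^ (2 * κ))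
    linarith
  have hE0 : 0 < E := by rw [hE]; exact Nat.succ_pos _
  have hE0r : (0 : ℝ) < E := by exact_mod_cast hE0
  have hME : M ≤ D * E := by
    rw [hE, mul_add, mul_one]
    have := Nat.div_add_mod M D
    have h2 := Nat.mod_lt M hD1
    omega
  have hzE : z ≤ E := by
    have h1 : (z : ℝ) ≤ E := by
      have h2 : x / x ^ (1 - 2 * κ) ≤ M / D := by
        apply div_le_div₀ (by positivity) _ hD0 hDle
        rw [hx]
        exact_mod_cast hNM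
      have h3 : x / x ^ (1 - 2 * κ) = x ^ (2 * κ) := by
        rw [div_eq_iff (by positivity), ← Real.rpow_add hx0]
        conv_lhs => rw [← Real.rpow_one x]
        congr 1
        ring
      have h4 : (M : ℝ) / D ≤ E := by
        rw [div_le_iff₀ hD0, mul_comm]
        exact_mod_cast hME
      have h5 : x ^ α ≤ x ^ (2 * κ) := Real.rpow_le_rpow_of_exponent_le hx1 (by linarith)
      linarith
    exact_mod_cast h1
  have hlE : Real.log E ≤ 3 * κ * L := by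
    have h1 := Real.log_le_log hE0r hEle
    rw [Real.log_rpow hx0, hxL] at h1
    exact h1
  obtain ⟨Q, hQ⟩ : ∃ Q : ℕ, Q = ⌊x ^ (1 - κ)⌋₊ := ⟨_, rfl⟩
  have hQ1 : 1 ≤ Q := by
    rw [hQ]
    apply Nat.le_floor
    push_cast
    exact Real.one_le_rpow hx1 (by linarith)
  have hlQ : Real.log Q ≤ L := by
    have h1 : (Q : ℝ) ≤ x := by
      rw [hQ]
      refine (Nat.floor_le (by positivity)).trans ?_
      calc x ^ (1 - κ) ≤ x ^ (1 : ℝ) := Real.rpow_le_rpow_of_exponent_le hx1 (by linarith)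
        _ = x := Real.rpow_one x
    have h2 := Real.log_le_log (by exact_mod_cast hQ1) h1
    rw [hxL] at h2
    exact h2
  -- the conditions
  have hYz : ((C0 * z ^ (C0 * b) : ℕ) : ℝ) ≤ x ^ κ := by
    push_cast
    have h1 : (z : ℝ) ^ (C0 * b) ≤ x ^ (κ / 2) := by
      calc (z : ℝ) ^ (C0 * b) ≤ (x ^ α) ^ (C0 * b) := pow_le_pow_left₀ hz0.le hJ1 _
        _ = x ^ (κ / 2) := by
          rw [← Real.rpow_natCast, ← Real.rpow_mul hx0.le]
          congr 1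
          push_cast
          rw [hακ]
          ring
    calc (C0 : ℝ) * (z : ℝ) ^ (C0 * b) ≤ x ^ (κ / 2) * x ^ (κ / 2) :=
          mul_le_mul f2 h1 (by positivity) (by positivity)
      _ = x ^ κ := by
        rw [← Real.rpow_add hx0]
        congr 1
        ring
  have c2 : D * (C0 * z ^ (C0 * b)) ≤ Q := by
    rw [hQ]
    apply Nat.le_floor
    rw [Nat.cast_mul]
    calc (D : ℝ) * ((C0 * z ^ (C0 * b) : ℕ) : ℝ) ≤ x ^ (1 - 2 * κ) * x ^ κ :=
          mul_le_mul hDle hYz (Nat.cast_nonneg _) (by positivity)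
      _ = x ^ (1 - κ) := by
        rw [← Real.rpow_add hx0]
        congr 1
        ring
  have c3 : E * (C0 * z ^ (C0 * b)) ≤ Q := by
    rw [hQ]
    apply Nat.le_floor
    rw [Nat.cast_mul]
    calc (E : ℝ) * ((C0 * z ^ (C0 * b) : ℕ) : ℝ) ≤ x ^ (3 * κ) * x ^ κ :=
          mul_le_mul hEle hYz (Nat.cast_nonneg _) (by positivity)
      _ = x ^ (3 * κ + κ) := by rw [← Real.rpow_add hx0]
      _ ≤ x ^ (1 - κ) := Real.rpow_le_rpow_of_exponent_le hx1 (by linarith)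
  have hzα2 : (z : ℝ) ^ 2 ≤ x ^ (2 * α) := by
    calc (z : ℝ) ^ 2 ≤ (x ^ α) ^ 2 := pow_le_pow_left₀ hz0.le hJ1 _
      _ = x ^ (2 * α) := by
        rw [← Real.rpow_natCast, ← Real.rpow_mul hx0.le]
        congr 1
        push_cast
        ring
  have hwβ2 : (w : ℝ) ^ 2 ≤ x ^ (2 * β) := by
    calc (w : ℝ) ^ 2 ≤ (x ^ β) ^ 2 := pow_le_pow_left₀ hw0.le hJ'1 _
      _ = x ^ (2 * β) := by
        rw [← Real.rpow_natCast, ← Real.rpow_mul hx0.le]
        congr 1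
        push_cast
        ring
  have c4 : z ^ 2 * (C0 * w ^ (C0 * C0)) ≤ Q := by
    rw [hQ]
    apply Nat.le_floor
    push_cast
    have h1 : (w : ℝ) ^ (C0 * C0) ≤ x ^ (1 / 8 : ℝ) := by
      calc (w : ℝ) ^ (C0 * C0) ≤ (x ^ β) ^ (C0 * C0) := pow_le_pow_left₀ hw0.le hJ'1 _
        _ = x ^ (1 / 8 : ℝ) := by
          rw [← Real.rpow_natCast, ← Real.rpow_mul hx0.le]
          congr 1
          push_cast
          rw [hβ]
          field_simp
    calc (z : ℝ) ^ 2 * ((C0 : ℝ) * (w : ℝ) ^ (C0 * C0)) ≤ x ^ (2 * α) * (x ^ (κ / 2) * x ^ (1 / 8 : ℝ)) := by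
          apply mul_le_mul hzα2 _ (by positivity) (by positivity)
          exact mul_le_mul f2 h1 (by positivity) (by positivity)
      _ = x ^ (2 * α + (κ / 2 + 1 / 8)) := by
        rw [← Real.rpow_add hx0, ← Real.rpow_add hx0]
      _ ≤ x ^ (1 - κ) := Real.rpow_le_rpow_of_exponent_le hx1 (by linarith)
  have c1 : z ^ 2 * w ^ 2 ≤ T := by
    rw [hT]
    apply Nat.le_floor
    push_cast
    rw [le_div_iff₀ (by positivity)]
    calc (z : ℝ) ^ 2 * (w : ℝ) ^ 2 * L ^ 4 ≤ x ^ (2 * α) * x ^ (2 * β) * x ^ (1 / 2 : ℝ) := by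
          apply mul_le_mul _ (by linarith) (by positivity) (by positivity)
          exact mul_le_mul hzα2 hwβ2 (by positivity) (by positivity)
      _ = x ^ (2 * α + 2 * β + 1 / 2) := by rw [← Real.rpow_add hx0, ← Real.rpow_add hx0]
      _ ≤ x ^ (1 : ℝ) := Real.rpow_le_rpow_of_exponent_le hx1 (by linarith)
      _ = x := Real.rpow_one x
  have cK : M < z ^ K := by
    have h1 : (M : ℝ) < (z : ℝ) ^ K := by
      have h2 : (M : ℝ) ≤ x ^ (2 : ℝ) := by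
        refine hMle.trans ?_
        calc x * L ^ A ≤ x * x ^ κ := mul_le_mul_of_nonneg_left hLAκ hx0.le
          _ = x ^ (1 + κ) := by rw [Real.rpow_add hx0, Real.rpow_one]
          _ ≤ x ^ (2 : ℝ) := Real.rpow_le_rpow_of_exponent_le hx1 (by linarith)
      have hx1' : 1 < x := by rw [hx]; linarith
      calc (M : ℝ) ≤ x ^ (2 : ℝ) := h2
        _ < x ^ (α / 2 * K) := Real.rpow_lt_rpow_of_exponent_lt hx1' hKα
        _ = (x ^ (α / 2)) ^ K := by rw [Real.rpow_mul hx0.le, Real.rpow_natCast]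
        _ ≤ (z : ℝ) ^ K := pow_le_pow_left₀ (by positivity) hzl.le _
    exact_mod_cast h1
  obtain ⟨lL, hlL⟩ : ∃ lL, lL = Real.log L := ⟨_, rfl⟩
  have hlL0 : 0 ≤ lL := by rw [hlL]; exact Real.log_nonneg hL1
  rw [← hlL] at f6
  have hK1 : (1 : ℝ) ≤ 2 ^ K := one_le_pow₀ (by norm_num)
  have hA0 : (0 : ℝ) ≤ A := Nat.cast_nonneg A
  have hℓs : (A + 4) * lL ≤ κ ^ 2 * L := by
    have : (A + 4) * lL ≤ 2 ^ K * ((A + 4) * lL) := le_mul_of_one_le_left (by positivity) hK1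
    linarith
  have cℓ : ∀ m : ℕ, T < m → m ≤ M → |Real.log m - L| ≤ (A + 4) * lL := by
    intro m hTm hmM
    have h1 : x / L ^ 4 < m := by
      rw [hT] at hTm
      exact Nat.lt_of_floor_lt hTm
    have hm0 : (0 : ℝ) < m := lt_trans (by positivity) h1
    have h2 := Real.log_le_log (by positivity) h1.le
    rw [Real.log_div hx0.ne' (by positivity), hxL, Real.log_pow, ← hlL] at h2
    push_cast at h2
    have h3 : (m : ℝ) ≤ x * L ^ A := (show (m : ℝ) ≤ M by exact_mod_cast hmM).trans hMle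
    have h4 := Real.log_le_log hm0 h3
    rw [Real.log_mul hx0.ne' (by positivity), hxL, Real.log_pow, ← hlL] at h4
    have hAl : 0 ≤ A * lL := by positivity
    rw [abs_le]
    constructor
    · linarith
    · linarith
  have clam : ∀ d : ℕ, D < d → d ≤ M → |Real.log (x / (d : ℝ))| ≤ 2 * κ * L := by
    intro d hDd hdM
    have h1 : x ^ (1 - 2 * κ) < d := by
      rw [hD] at hDd
      exact Nat.lt_of_floor_lt hDd
    have hd0 : (0 : ℝ) < d := lt_trans (by positivity) h1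
    have h2 := Real.log_le_log (by positivity) h1.le
    rw [Real.log_rpow hx0, hxL] at h2
    have h3 : (d : ℝ) ≤ x * L ^ A := (show (d : ℝ) ≤ M by exact_mod_cast hdM).trans hMle
    have h4 := Real.log_le_log hd0 h3
    rw [Real.log_mul hx0.ne' (by positivity), hxL, Real.log_pow, ← hlL] at h4
    rw [Real.log_div hx0.ne' hd0.ne', hxL, abs_le]
    have h5 : A * lL ≤ 2 * κ * L := by
      have h6 : κ ^ 2 * L ≤ 2 * κ * L := by
        apply mul_le_mul_of_nonneg_right _ hL0.le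
        rw [pow_two]
        exact mul_le_mul_of_nonneg_right (by linarith) hκ.le
      linarith
    constructor
    · linarith
    · linarith
  intro S v X g r W H hv hm hW0 hVW hR
  have hv' : ∀ n ∈ S, v n ≤ M := by
    intro n hn
    rw [hM]
    exact Nat.le_floor (hv n hn)
  have hmain := HA S v X g r N M T D E K b J J' Q z w ((A + 4) * lL) (2 * κ * L) H hz hw hbC hJJ c1 hv' hm cK
    hDN hD1 hNM hME hzE hzD hQ1 c2 c3 c4 (by rw [← hL]; exact cℓ) (by rw [← hx]; exact clam) (by positivity)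
  rw [← hx, hxL] at hmain
  obtain ⟨R, hRd⟩ : ∃ R, R = ∑ m ∈ Icc 1 Q, r m := ⟨_, rfl⟩
  rw [← hQ] at hR
  rw [← hRd] at hmain hR
  have hR0 : 0 ≤ R := by
    rw [hRd]
    exact sum_nonneg fun m hm => H.r0 (mem_Icc.1 hm).1
  obtain ⟨V, hVd⟩ : ∃ V, V = ∏ p ∈ PP z, (1 - g p) := ⟨_, rfl⟩
  obtain ⟨Vw, hVwd⟩ : ∃ Vw, Vw = ∏ p ∈ PP w, (1 - g p) := ⟨_, rfl⟩
  rw [← hVd, ← hVwd] at hmain
  rw [← hVd]
  have hX0 := H.X0
  have hV0 : 0 ≤ V := by
    rw [hVd]
    exact prod_nonneg fun p hp => by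
      have := H.half p (mem_PP.1 hp).1
      linarith
  have hwN : w ≤ N := by
    have h1 : (w : ℝ) ≤ x := by
      refine hJ'1.trans ?_
      calc x ^ β ≤ x ^ (1 : ℝ) := Real.rpow_le_rpow_of_exponent_le hx1 (by linarith)
        _ = x := Real.rpow_one x
    rw [hx] at h1
    exact_mod_cast h1
  have hVz : V ≤ W * (Cm / Real.log z) := by
    rw [hVd]
    exact (hVW z le_rfl (hzD.trans hDN)).trans (mul_le_mul_of_nonneg_left (HM z hzz1).2 hW0)
  have hVw : Vw ≤ W * (Cm / Real.log w) := by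
    rw [hVwd]
    exact (hVW w hzw hwN).trans (mul_le_mul_of_nonneg_left (HM w (hzz1.trans hzw)).2 hW0)
  obtain ⟨P, hP⟩ : ∃ P, P = X * W := ⟨_, rfl⟩
  have hP0 : 0 ≤ P := by rw [hP]; positivity
  rw [← hP]
  have hXVz : X * V ≤ P * (Cm / Real.log z) := by
    rw [hP, mul_assoc]
    exact mul_le_mul_of_nonneg_left hVz hX0
  have hXVw : X * Vw ≤ P * (Cm / Real.log w) := by
    rw [hP, mul_assoc]
    exact mul_le_mul_of_nonneg_left hVw hX0
  have hlz0 : 0 < Real.log z := lt_of_lt_of_le (by positivity) hlz1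
  have hratio : ∀ Y : ℕ, z ≤ Y → V1 z / V1 Y ≤ Cm / c * (Real.log Y / Real.log z) := by
    intro Y hY
    have h1 := (HM z hzz1).2
    have h2 := (HM Y (hzz1.trans hY)).1
    have hlY : 0 < Real.log Y := lt_of_lt_of_le hlz0 (log_le' (by omega) hY)
    have h3 : 0 < c / Real.log Y := by positivity
    calc V1 z / V1 Y ≤ (Cm / Real.log z) / (c / Real.log Y) := div_le_div₀ (by positivity) h1 h3 h2
      _ = _ := by field_simp
  have hGE := hratio E hzE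
  have hGD := hratio D hzD
  have hlD : Real.log D ≤ 1 * L := by
    rw [one_mul, hL]
    exact log_le' hD1 hDN
  have hJ1b : ((J : ℝ) + 1) ≤ 2 * L := by
    have h1 : (J : ℝ) + 1 ≤ (2 : ℝ) ^ J := by
      have : J + 1 ≤ 2 ^ J := Nat.lt_two_pow_self
      exact_mod_cast this
    have h2 : Real.log z = 2 ^ J * Real.log 2 := by
      rw [hz]
      push_cast
      rw [Real.log_pow]
      push_cast
      ring
    have h3 : α * L ≤ L := by
      have : α ≤ 1 := by linarith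
      exact mul_le_of_le_one_left hL0.le this
    have h4 : (2 : ℝ) ^ J * (1 / 2) ≤ 2 ^ J * Real.log 2 := mul_le_mul_of_nonneg_left (by linarith) (by positivity)
    linarith
  have hJ'1b : ((J' : ℝ) + 1) ≤ 2 * L := by
    have h1 : (J' : ℝ) + 1 ≤ (2 : ℝ) ^ J' := by
      have : J' + 1 ≤ 2 ^ J' := Nat.lt_two_pow_self
      exact_mod_cast this
    have h2 : Real.log w = 2 ^ J' * Real.log 2 := by
      rw [hw]
      push_cast
      rw [Real.log_pow]
      push_cast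
      ring
    have h3 : β * L ≤ L := by
      have : β ≤ 1 := by linarith
      exact mul_le_of_le_one_left hL0.le this
    have h4 : (2 : ℝ) ^ J' * (1 / 2) ≤ 2 ^ J' * Real.log 2 := mul_le_mul_of_nonneg_left (by linarith) (by positivity)
    linarith
  have hV10 : ∀ Y : ℕ, 0 ≤ V1 z / V1 Y := fun Y => div_nonneg (V1_pos z).le (V1_pos Y).le
  have hMz : 64 * (8 + 2 ^ K) / κ * L ^ 2 * ((M : ℝ) / z) ≤ x := by
    have h1 : (M : ℝ) / z ≤ x * L ^ A / x ^ (α / 2) := div_le_div₀ (by positivity) hMle (by positivity) hzl.le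
    calc 64 * (8 + 2 ^ K) / κ * L ^ 2 * ((M : ℝ) / z) ≤ 64 * (8 + 2 ^ K) / κ * L ^ 2 * (x * L ^ A / x ^ (α / 2)) :=
          mul_le_mul_of_nonneg_left h1 (by positivity)
      _ = (64 * (8 + 2 ^ K) / κ * L ^ (A + 2)) * (x / x ^ (α / 2)) := by
        rw [pow_add]
        ring
      _ ≤ x ^ (α / 2) * (x / x ^ (α / 2)) := mul_le_mul_of_nonneg_right f7 (by positivity)
      _ = x := by field_simp
  have hXV0 : 0 ≤ X * V := by positivity
  rw [← hlk]
  refine hmain.trans (num κ α β L x P T ((M : ℝ) / z) (Real.log M) (Real.log z) (Real.log w) (Real.log Q)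
    (X * V) (X * Vw) (V1 z / V1 E) (V1 z / V1 D) R (J + 1) (J' + 1) ((A + 4) * lL) b C0 C1 Cm c lk
    ((1 / 2 : ℝ) ^ b) (Real.log E) (Real.log D) (2 ^ K) hκ hκ8 hx0 hα hβ hC0r hC1 hCm hc hbr hbl hlk1 hK1
    hL128 hL16 hP0 hTle hMz (Nat.cast_nonneg _) (by positivity) hlM0 hlM hlz1 hlz2 hlw1
    (Real.log_natCast_nonneg Q) hlQ hXV0 hXVz hXVw hGE hlE hGD hlD hR0 ?_ (by positivity) hJ1b (by positivity) hJ'1b
    ?_ hbk (hV10 E) (hV10 D))
  · exact hR
  · linarith [f6]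

end Pool.Agent.Q148.BA
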