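import Pool.Agent.Q148.BA.L2
import Pool.Agent.Cov.PNT
import Pool.Agent.Helper153.FacN

/-! The sum of `Λ₂` over the integers. -/

set_option autoImplicit false

namespace Pool.Agent.Q148.BA

open Finset Filter ArithmeticFunction

/-- the constant of Chebyshev's bound -/
noncomputable def c0 : ℝ := Real.log 4 + 4

theorem c0_ge : 4 ≤ c0 := by
  unfold c0
  have : 0 ≤ Real.log 4 := Real.log_nonneg (by norm_num)
  linarith

theorem psi_le {y : ℝ} (hy : 0 ≤ y) : Chebyshev.psi y ≤ c0 * y := Chebyshev.psi_le_const_mul_self hy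

/-- `∑_{a ≤ N} Λ(a)/a` -/
noncomputable def S1 (N : ℕ) : ℝ := ∑ a ∈ Ioc 0 N, Λ a / a

theorem Ioc_eq (N : ℕ) : Ioc 0 N = Icc 1 N := by
  ext m
  rw [mem_Ioc, mem_Icc]
  omega

theorem psi_nat (N : ℕ) : Chebyshev.psi (N : ℝ) = ∑ a ∈ Ioc 0 N, Λ a := by
  unfold Chebyshev.psi
  rw [Nat.floor_natCast]

theorem S1_ge (N : ℕ) (hN : 1 ≤ N) : Real.log N - 1 ≤ S1 N := by
  unfold S1
  rw [Ioc_eq]
  exact Pool.Agent.Helper153.Fac.vonMangoldt_div_sum_ge N hN

theorem S1_le (N : ℕ) (hN : 1 ≤ N) : S1 N ≤ Real.log N + c0 := by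
  have hN0 : (0 : ℝ) < N := by exact_mod_cast hN
  have h1 : (N : ℝ) * S1 N ≤ ∑ a ∈ Ioc 0 N, (Λ a * ((N / a : ℕ) : ℝ) + Λ a) := by
    unfold S1
    rw [mul_sum]
    apply sum_le_sum
    intro a ha
    rw [mem_Ioc] at ha
    have ha0 : (0 : ℝ) < a := by exact_mod_cast ha.1
    have h2 : (N : ℝ) / a ≤ ((N / a : ℕ) : ℝ) + 1 := by
      rw [div_le_iff₀ ha0]
      have := Nat.lt_div_mul_add (a := N) ha.1
      have h3 : N ≤ (N / a + 1) * a := by nlinarith
      exact_mod_cast h3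
    calc (N : ℝ) * (Λ a / a) = Λ a * ((N : ℝ) / a) := by ring
      _ ≤ Λ a * (((N / a : ℕ) : ℝ) + 1) := mul_le_mul_of_nonneg_left h2 vonMangoldt_nonneg
      _ = _ := by ring
  have h2 : ∑ a ∈ Ioc 0 N, (Λ a * ((N / a : ℕ) : ℝ)) = ∑ m ∈ Ioc 0 N, Real.log m := by
    have := sum_Ioc_mul_zeta_eq_sum (Λ : ArithmeticFunction ℝ) N
    rw [vonMangoldt_mul_zeta] at this
    rw [← this]
    simp [log_apply]
  have h3 : ∑ m ∈ Ioc 0 N, Real.log m ≤ N * Real.log N := by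
    calc ∑ m ∈ Ioc 0 N, Real.log m ≤ ∑ m ∈ Ioc 0 N, Real.log N := by
          apply sum_le_sum
          intro m hm
          rw [mem_Ioc] at hm
          exact Real.log_le_log (by exact_mod_cast hm.1) (by exact_mod_cast hm.2)
      _ = N * Real.log N := by rw [sum_const, Nat.card_Ioc, nsmul_eq_mul]; simp
  have h4 : ∑ a ∈ Ioc 0 N, Λ a ≤ c0 * N := by
    rw [← psi_nat]
    exact psi_le hN0.le
  rw [sum_add_distrib, h2] at h1
  have h5 : (N : ℝ) * S1 N ≤ N * (Real.log N + c0) := by linarith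
  exact le_of_mul_le_mul_left h5 hN0

theorem S1_nn (N : ℕ) : 0 ≤ S1 N := by
  unfold S1
  exact sum_nonneg fun a _ => div_nonneg vonMangoldt_nonneg (Nat.cast_nonneg a)

/-- the first part -/
theorem P1_b (N : ℕ) (hN : 1 ≤ N) (T : ℝ) (hT : 1 ≤ T) :
    |∑ m ∈ Ioc 0 N, Λ m * Real.log m - Chebyshev.psi N * Real.log N| ≤
      (N / T) * (Real.log N + c0) + c0 * N * Real.log T := by
  have hN0 : (0 : ℝ) < N := by exact_mod_cast hN
  have h1 : Chebyshev.psi N * Real.log N - ∑ m ∈ Ioc 0 N, Λ m * Real.log m =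
      ∑ m ∈ Ioc 0 N, Λ m * Real.log (N / m) := by
    rw [psi_nat, sum_mul, ← sum_sub_distrib]
    apply sum_congr rfl
    intro m hm
    rw [mem_Ioc] at hm
    have hm0 : (0 : ℝ) < m := by exact_mod_cast hm.1
    rw [Real.log_div hN0.ne' hm0.ne']
    ring
  have h2 : 0 ≤ ∑ m ∈ Ioc 0 N, Λ m * Real.log (N / m) := by
    apply sum_nonneg
    intro m hm
    rw [mem_Ioc] at hm
    have hm0 : (0 : ℝ) < m := by exact_mod_cast hm.1
    apply mul_nonneg vonMangoldt_nonneg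
    apply Real.log_nonneg
    rw [le_div_iff₀ hm0, one_mul]
    exact_mod_cast hm.2
  have h3 : ∑ m ∈ Ioc 0 N, Λ m * Real.log (N / m) ≤ (N / T) * (Real.log N + c0) + c0 * N * Real.log T := by
    calc ∑ m ∈ Ioc 0 N, Λ m * Real.log (N / m) ≤ ∑ m ∈ Ioc 0 N, ((N / T) * (Λ m / m) + Real.log T * Λ m) := by
          apply sum_le_sum
          intro m hm
          rw [mem_Ioc] at hm
          have hm0 : (0 : ℝ) < m := by exact_mod_cast hm.1
          have h4 : Real.log (N / m) ≤ N / m / T + Real.log T := by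
            have h5 := Real.log_le_sub_one_of_pos (show (0 : ℝ) < N / m / T by positivity)
            rw [Real.log_div (by positivity) (by positivity)] at h5
            linarith
          calc Λ m * Real.log (N / m) ≤ Λ m * (N / m / T + Real.log T) :=
                mul_le_mul_of_nonneg_left h4 vonMangoldt_nonneg
            _ = _ := by ring
      _ = (N / T) * S1 N + Real.log T * Chebyshev.psi N := by
          rw [sum_add_distrib, ← mul_sum, ← mul_sum, psi_nat]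
          rfl
      _ ≤ _ := by
          have h6 := mul_le_mul_of_nonneg_left (S1_le N hN) (show (0 : ℝ) ≤ N / T by positivity)
          have h7 := mul_le_mul_of_nonneg_left (psi_le hN0.le) (Real.log_nonneg hT)
          linarith
  rw [abs_sub_comm, h1, abs_of_nonneg h2]
  exact h3

/-- the second part -/
theorem P2_b (ε : ℝ) (hε : 0 < ε) : ∃ Y : ℝ, 1 ≤ Y ∧ ∀ N : ℕ, 1 ≤ N →
    |∑ a ∈ Ioc 0 N, Λ a * Chebyshev.psi ((N / a : ℕ) : ℝ) - N * Real.log N| ≤
      ε * N * (Real.log N + c0) + c0 ^ 2 * Y * N + c0 * N := by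
  have h0 := Pool.Agent.Cov.PNT.psi_div_tendsto
  have e1 := h0.eventually_le_const (show (1 : ℝ) < 1 + ε by linarith)
  have e2 := h0.eventually_const_le (show (1 - ε : ℝ) < 1 by linarith)
  obtain ⟨Y0, HY⟩ := eventually_atTop.1 (e1.and (e2.and (eventually_gt_atTop 0)))
  refine ⟨max Y0 1, le_max_right _ _, fun N hN => ?_⟩
  have hN0 : (0 : ℝ) < N := by exact_mod_cast hN
  have hc := c0_ge
  have h1 : ∀ a ∈ Ioc 0 N, |Λ a * Chebyshev.psi ((N / a : ℕ) : ℝ) - Λ a * ((N : ℝ) / a)| ≤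
      ε * N * (Λ a / a) + c0 * max Y0 1 * Λ a := by
    intro a ha
    rw [mem_Ioc] at ha
    have ha0 : (0 : ℝ) < a := by exact_mod_cast ha.1
    have hpsi : Chebyshev.psi ((N / a : ℕ) : ℝ) = Chebyshev.psi ((N : ℝ) / a) := by
      unfold Chebyshev.psi
      rw [Nat.floor_natCast, Nat.floor_div_eq_div]
    rw [hpsi, ← mul_sub, abs_mul, abs_of_nonneg vonMangoldt_nonneg]
    have hy0 : 0 < (N : ℝ) / a := by positivity
    have h2 : |Chebyshev.psi ((N : ℝ) / a) - (N : ℝ) / a| ≤ ε * (N / a) + c0 * max Y0 1 := by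
      rcases le_or_gt (max Y0 1) ((N : ℝ) / a) with h | h
      · obtain ⟨f1, f2, f3⟩ := HY _ ((le_max_left _ _).trans h)
        rw [div_le_iff₀ f3] at f1
        rw [le_div_iff₀ f3] at f2
        have : 0 ≤ c0 * max Y0 1 := by positivity
        rw [abs_le]
        constructor
        · linarith
        · linarith
      · have f1 := psi_le hy0.le
        have f2 : 0 ≤ Chebyshev.psi ((N : ℝ) / a) := Chebyshev.psi_nonneg _
        have f3 : c0 * ((N : ℝ) / a) ≤ c0 * max Y0 1 := mul_le_mul_of_nonneg_left h.le (by linarith)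
        have f4 : (N : ℝ) / a ≤ c0 * ((N : ℝ) / a) := le_mul_of_one_le_left hy0.le (by linarith)
        have f5 : 0 ≤ ε * ((N : ℝ) / a) := by positivity
        rw [abs_le]
        constructor
        · linarith
        · linarith
    calc Λ a * |Chebyshev.psi ((N : ℝ) / a) - (N : ℝ) / a| ≤ Λ a * (ε * (N / a) + c0 * max Y0 1) :=
          mul_le_mul_of_nonneg_left h2 vonMangoldt_nonneg
      _ = _ := by ring
  have h2 : |∑ a ∈ Ioc 0 N, Λ a * Chebyshev.psi ((N / a : ℕ) : ℝ) - N * S1 N| ≤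
      ε * N * S1 N + c0 * max Y0 1 * Chebyshev.psi N := by
    have e : ∑ a ∈ Ioc 0 N, Λ a * Chebyshev.psi ((N / a : ℕ) : ℝ) - N * S1 N =
        ∑ a ∈ Ioc 0 N, (Λ a * Chebyshev.psi ((N / a : ℕ) : ℝ) - Λ a * ((N : ℝ) / a)) := by
      rw [sum_sub_distrib]
      congr 1
      unfold S1
      rw [mul_sum]
      apply sum_congr rfl
      intro a _
      ring
    rw [e]
    refine (abs_sum_le_sum_abs _ _).trans ((sum_le_sum h1).trans (le_of_eq ?_))
    rw [sum_add_distrib, ← mul_sum, ← mul_sum, psi_nat]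
    rfl
  have h3 := S1_le N hN
  have h4 := S1_ge N hN
  have h5 := S1_nn N
  have h6 : ε * N * S1 N ≤ ε * N * (Real.log N + c0) := mul_le_mul_of_nonneg_left h3 (by positivity)
  have h7 : c0 * max Y0 1 * Chebyshev.psi N ≤ c0 * max Y0 1 * (c0 * N) :=
    mul_le_mul_of_nonneg_left (psi_le hN0.le) (by positivity)
  have h8 : |(N : ℝ) * S1 N - N * Real.log N| ≤ c0 * N := by
    rw [← mul_sub, abs_mul, abs_of_pos hN0, mul_comm]
    apply mul_le_mul_of_nonneg_right _ hN0.le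
    rw [abs_le]
    constructor
    · linarith
    · linarith
  have h9 := abs_sub_le (∑ a ∈ Ioc 0 N, Λ a * Chebyshev.psi ((N / a : ℕ) : ℝ)) ((N : ℝ) * S1 N) (N * Real.log N)
  have h10 : c0 * max Y0 1 * (c0 * N) = c0 ^ 2 * max Y0 1 * N := by ring
  linarith

theorem sum_eq (N : ℕ) : ∑ m ∈ Icc 1 N, L2 m = ∑ m ∈ Ioc 0 N, Λ m * Real.log m +
    ∑ a ∈ Ioc 0 N, Λ a * Chebyshev.psi ((N / a : ℕ) : ℝ) := by
  rw [← Ioc_eq]
  have h1 : ∀ m ∈ Ioc 0 N, L2 m = Λ m * Real.log m + ((Λ : ArithmeticFunction ℝ) * Λ) m := by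
    intro m _
    rw [L2_eq]
    unfold ff
    rw [ArithmeticFunction.add_apply, pmul_apply, log_apply]
  rw [sum_congr rfl h1, sum_add_distrib, sum_Ioc_mul_eq_sum_sum]
  congr 1
  apply sum_congr rfl
  intro a _
  rw [psi_nat]

/-- the sum of `Λ₂` over the integers `≤ N` is asymptotically `2 N log N` -/
theorem sumL2 (ε : ℝ) (hε : 0 < ε) : ∃ N0 : ℕ, ∀ N : ℕ, N0 ≤ N →
    |∑ m ∈ Icc 1 N, L2 m - 2 * (N * Real.log N)| ≤ ε * (N * Real.log N) := by
  obtain ⟨Y, hY, HY⟩ := P2_b (ε / 8) (by positivity)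
  have h0 := Pool.Agent.Cov.PNT.psi_div_tendsto
  have e1 := h0.eventually_le_const (show (1 : ℝ) < 1 + ε / 8 by linarith)
  have e2 := h0.eventually_const_le (show (1 - ε / 8 : ℝ) < 1 by linarith)
  obtain ⟨T, hT⟩ : ∃ T : ℝ, T = max 1 (8 / ε) := ⟨_, rfl⟩
  have hT1 : 1 ≤ T := by rw [hT]; exact le_max_left _ _
  have hT8 : 8 / ε ≤ T := by rw [hT]; exact le_max_right _ _
  have e3 := Real.tendsto_log_atTop.eventually_ge_atTop
    (max 1 (8 / ε * (ε / 8 * c0 + c0 ^ 2 * Y + c0 + c0 + c0 * Real.log T)))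
  obtain ⟨N0, HN⟩ := eventually_atTop.1 ((tendsto_natCast_atTop_atTop (R := ℝ)).eventually
    (e1.and (e2.and (e3.and (eventually_ge_atTop 1)))))
  refine ⟨N0, fun N hN => ?_⟩
  obtain ⟨f1, f2, f3, f4⟩ := HN N hN
  have hN0 : (0 : ℝ) < N := by linarith
  have hN1 : 1 ≤ N := by exact_mod_cast f4
  rw [div_le_iff₀ hN0] at f1
  rw [le_div_iff₀ hN0] at f2
  obtain ⟨L, hL⟩ : ∃ L, L = Real.log N := ⟨_, rfl⟩
  have g1 := P1_b N hN1 T hT1
  have g2 := HY N hN1
  rw [← hL] at f3 g1 g2 ⊢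
  have hL1 : 1 ≤ L := (le_max_left _ _).trans f3
  have hc := c0_ge
  have hTinv : (N : ℝ) / T ≤ ε / 8 * N := by
    rw [div_le_iff₀ (by linarith)]
    have h1 : 8 ≤ ε * T := by
      rw [div_le_iff₀ hε] at hT8
      linarith
    have h2 := mul_le_mul_of_nonneg_right h1 hN0.le
    linarith
  have hlT : 0 ≤ Real.log T := Real.log_nonneg hT1
  have g3 : (ε / 8 * c0 + c0 ^ 2 * Y + c0 + c0 + c0 * Real.log T) ≤ ε / 8 * L := by
    have h1 := (le_max_right _ _).trans f3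
    have h2 : 8 / ε * (ε / 8 * c0 + c0 ^ 2 * Y + c0 + c0 + c0 * Real.log T) * (ε / 8) =
        (ε / 8 * c0 + c0 ^ 2 * Y + c0 + c0 + c0 * Real.log T) := by
      field_simp
    have h3 := mul_le_mul_of_nonneg_right h1 (show 0 ≤ ε / 8 by positivity)
    rw [h2] at h3
    linarith
  have g4 : |Chebyshev.psi N * L - N * L| ≤ ε / 8 * (N * L) := by
    rw [← sub_mul, abs_mul, abs_of_pos (show 0 < L by linarith), ← mul_assoc]
    apply mul_le_mul_of_nonneg_right _ (by linarith)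
    rw [abs_le]
    constructor
    · linarith
    · linarith
  rw [sum_eq]
  have h1 := abs_sub_le (∑ m ∈ Ioc 0 N, Λ m * Real.log m) (Chebyshev.psi N * L) (N * L)
  have h2 : |∑ m ∈ Ioc 0 N, Λ m * Real.log m + ∑ a ∈ Ioc 0 N, Λ a * Chebyshev.psi ((N / a : ℕ) : ℝ) -
      2 * (N * L)| ≤ |∑ m ∈ Ioc 0 N, Λ m * Real.log m - N * L| +
      |∑ a ∈ Ioc 0 N, Λ a * Chebyshev.psi ((N / a : ℕ) : ℝ) - N * L| := by
    refine le_trans (le_of_eq ?_) (abs_add_le _ _)
    congr 1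
    ring
  have h3 : (N : ℝ) / T * (L + c0) ≤ ε / 8 * N * (L + c0) := mul_le_mul_of_nonneg_right hTinv (by linarith)
  have h4 := mul_le_mul_of_nonneg_right g3 hN0.le
  have h5 : 0 ≤ c0 * (N : ℝ) := by positivity
  have h6 : 0 ≤ (c0 ^ 2 * Y) * (N : ℝ) := by positivity
  have h7 : 0 ≤ (c0 * Real.log T) * (N : ℝ) := by positivity
  have h8 : 0 ≤ (ε / 8 * c0) * (N : ℝ) := by positivity
  have h9 : 0 ≤ ε * (N * L) := by positivity
  have h10 : (ε / 8 * c0 + c0 ^ 2 * Y + c0 + c0 + c0 * Real.log T) * N =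
      (ε / 8 * c0) * N + (c0 ^ 2 * Y) * N + c0 * N + c0 * N + (c0 * Real.log T) * N := by ring
  rw [h10] at h4
  linarith

end Pool.Agent.Q148.BA
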