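import Pool.Agent.Q148.BA.Bas
import Pool.Agent.Q148.BA.SumL

/-! The asymptotic sieve for `Λ₂`: the main term. -/

set_option autoImplicit false

namespace Pool.Agent.Q148.BA

open Finset Filter

/-- the density of the integers -/
theorem dens_int (N : ℕ) : Dens (Icc 1 N) (fun n => n) N (fun q => 1 / (q : ℝ)) (fun _ => 1) where
  h := by
    intro q hq
    have hq0 : (0 : ℝ) < q := by exact_mod_cast hq
    have h1 : A (Icc 1 N) (fun n => n) q = ((N / q : ℕ) : ℝ) := by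
      unfold A
      rw [← Nat.Ioc_filter_dvd_card_eq_div]
      congr 1
    rw [h1]
    have h2 : ((N / q : ℕ) : ℝ) ≤ N / q := Nat.cast_div_le
    have h3 : (N : ℝ) / q ≤ ((N / q : ℕ) : ℝ) + 1 := by
      rw [div_le_iff₀ hq0]
      have := Nat.lt_div_mul_add (a := N) hq
      have h3 : N ≤ (N / q + 1) * q := by nlinarith
      exact_mod_cast h3
    have h4 : (N : ℝ) * (1 / q) = N / q := by ring
    rw [h4, abs_le]
    constructor
    · linarith
    · linarith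
  mul := by
    intro q q' _
    push_cast
    rw [one_div_mul_one_div]
  one := by norm_num
  nn := fun p a _ => by positivity
  pow := fun p a hp _ => by
    have hp0 : (0 : ℝ) < p := by exact_mod_cast hp.pos
    push_cast
    rw [div_le_div_iff₀ (by positivity) (by positivity)]
    have : (0 : ℝ) < (p : ℝ) ^ a := by positivity
    linarith
  p1 := fun p hp => by
    have hp0 : (2 : ℝ) ≤ p := by exact_mod_cast hp.two_le
    exact one_div_le_one_div_of_le (by linarith) (by linarith)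
  half := fun p hp => by
    have hp0 : (2 : ℝ) ≤ p := by exact_mod_cast hp.two_le
    exact one_div_le_one_div_of_le (by norm_num) hp0
  X0 := Nat.cast_nonneg N

theorem bas2 : ∃ C : ℝ, 0 < C ∧ ∀ κ : ℝ, 0 < κ → κ ≤ 1 / 8 → ∀ A : ℕ, ∃ θ : ℝ, 0 < θ ∧
    ∃ N0 : ℕ, ∀ N : ℕ, N0 ≤ N → ∃ z D : ℕ, (N : ℝ) ^ θ ≤ z ∧ z ≤ D ∧ D ≤ N ∧
    |V1 z * GG z D N (fun q => 1 / (q : ℝ)) - 2 * Real.log N| ≤
        C * (κ * Real.log (1 / κ) ^ 2) * Real.log N ∧
    ∀ (S : Finset ℕ) (v : ℕ → ℕ) (X : ℝ) (g r : ℕ → ℝ) (W : ℝ), Dens S v X g r →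
      (∀ n ∈ S, (v n : ℝ) ≤ N * Real.log N ^ A) →
      (∀ m, 1 ≤ m → (S.filter (fun n => v n = m)).card ≤ 2) → 0 ≤ W →
      (∀ y : ℕ, z ≤ y → y ≤ N → ∏ p ∈ PP y, (1 - g p) ≤ W * V1 y) →
      ∑ m ∈ Icc 1 ⌊(N : ℝ) ^ (1 - κ)⌋₊, r m ≤ N / Real.log N ^ 10 →
      |∑ n ∈ S, L2 (v n) - X * (∏ p ∈ PP z, (1 - g p)) * GG z D N g| ≤
        C * (κ * Real.log (1 / κ) ^ 2) * (X * W * Real.log N) + κ * N := by
  obtain ⟨C, hC, H⟩ := bas
  refine ⟨C + 2, by positivity, ?_⟩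
  intro κ hκ hκ8 A
  obtain ⟨θ, hθ, N0, HN⟩ := H κ hκ hκ8 A
  refine ⟨θ, hθ, ?_⟩
  obtain ⟨N1, HN1⟩ := sumL2 κ hκ
  have e1 := Pool.Agent.H398R2.BV.ev_log 1 10 κ hκ
  have e2 := Real.tendsto_log_atTop.eventually_ge_atTop 1
  obtain ⟨N2, HN2⟩ := eventually_atTop.1 ((tendsto_natCast_atTop_atTop (R := ℝ)).eventually
    (e1.and (e2.and (eventually_ge_atTop 1))))
  have hlk : 1 ≤ Real.log (1 / κ) := by
    rw [Real.le_log_iff_exp_le (by positivity), le_div_iff₀ hκ]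
    have := Real.exp_one_lt_d9
    nlinarith
  have hlk2 : κ ≤ κ * Real.log (1 / κ) ^ 2 := le_mul_of_one_le_right hκ.le (one_le_pow₀ hlk)
  refine ⟨max N0 (max N1 N2), fun N hN => ?_⟩
  obtain ⟨z, D, h1, h2, h3, h4⟩ := HN N ((le_max_left _ _).trans hN)
  have hN1 := HN1 N ((le_max_left _ _).trans ((le_max_right _ _).trans hN))
  obtain ⟨f1, f2, f3⟩ := HN2 N ((le_max_right _ _).trans ((le_max_right _ _).trans hN))
  have hN0 : (0 : ℝ) < N := by linarith
  refine ⟨z, D, h1, h2, h3, ?_, ?_⟩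
  · have h5 := h4 (Icc 1 N) (fun n => n) N (fun q => 1 / (q : ℝ)) (fun _ => 1) 1 (dens_int N) (by
      intro n hn
      rw [mem_Icc] at hn
      have h6 : (1 : ℝ) ≤ Real.log N ^ A := one_le_pow₀ f2
      have h7 : (n : ℝ) ≤ N := by exact_mod_cast hn.2
      exact h7.trans (le_mul_of_one_le_right hN0.le h6)) (by
      intro m _
      refine (card_le_card (t := {m}) ?_).trans (by simp)
      intro n hn
      rw [mem_filter] at hn
      rw [mem_singleton]
      exact hn.2) zero_le_one (by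
      intro y _ _
      rw [one_mul]
      rfl) (by
      rw [sum_const, Nat.card_Icc, nsmul_eq_mul, mul_one, Nat.add_sub_cancel, le_div_iff₀ (by positivity)]
      have h6 : (⌊(N : ℝ) ^ (1 - κ)⌋₊ : ℝ) ≤ (N : ℝ) ^ (1 - κ) := Nat.floor_le (by positivity)
      calc (⌊(N : ℝ) ^ (1 - κ)⌋₊ : ℝ) * Real.log N ^ 10 ≤ (N : ℝ) ^ (1 - κ) * (N : ℝ) ^ κ :=
            mul_le_mul h6 (by linarith) (by positivity) (by positivity)
        _ = N := by
          rw [← Real.rpow_add hN0]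
          conv_rhs => rw [← Real.rpow_one (N : ℝ)]
          congr 1
          ring)
    have h6 : (∏ p ∈ PP z, (1 - 1 / (p : ℝ))) = V1 z := rfl
    rw [h6, mul_one] at h5
    obtain ⟨L, hL⟩ : ∃ L, L = Real.log N := ⟨_, rfl⟩
    obtain ⟨G, hG⟩ : ∃ G, G = GG z D N (fun q => 1 / (q : ℝ)) := ⟨_, rfl⟩
    obtain ⟨lk, hlk'⟩ : ∃ lk, lk = κ * Real.log (1 / κ) ^ 2 := ⟨_, rfl⟩
    rw [← hL] at h5 hN1 f2 ⊢
    rw [← hG] at h5 ⊢
    rw [← hlk'] at h5 hlk2 ⊢
    have h7 : |(N : ℝ) * (V1 z * G) - N * (2 * L)| ≤ C * lk * (N * L) + κ * N + κ * (N * L) := by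
      have e : (N : ℝ) * (V1 z * G) - N * (2 * L) = (∑ m ∈ Icc 1 N, L2 m - 2 * (N * L)) -
          (∑ n ∈ Icc 1 N, L2 n - N * V1 z * G) := by ring
      rw [e]
      refine (abs_sub _ _).trans ?_
      linarith
    rw [← mul_sub, abs_mul, abs_of_pos hN0] at h7
    have h8 : (N : ℝ) * |V1 z * G - 2 * L| ≤ N * ((C + 2) * lk * L) := by
      have h9 : κ * N ≤ κ * (N * L) := by
        apply mul_le_mul_of_nonneg_left _ hκ.le
        exact le_mul_of_one_le_right hN0.le f2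
      have h10 : κ * (N * L) ≤ lk * (N * L) := mul_le_mul_of_nonneg_right hlk2 (by positivity)
      have h11 : (N : ℝ) * ((C + 2) * lk * L) = C * lk * (N * L) + lk * (N * L) + lk * (N * L) := by ring
      rw [h11]
      linarith
    exact le_of_mul_le_mul_left h8 hN0
  · intro S v X g r W hD hv hm hW hV hR
    refine (h4 S v X g r W hD hv hm hW hV hR).trans ?_
    have h5 : 0 ≤ (κ * Real.log (1 / κ) ^ 2) * (X * W * Real.log N) := by
      have := hD.X0
      positivity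
    have h6 : (C + 2) * (κ * Real.log (1 / κ) ^ 2) * (X * W * Real.log N) =
        C * (κ * Real.log (1 / κ) ^ 2) * (X * W * Real.log N) +
        2 * ((κ * Real.log (1 / κ) ^ 2) * (X * W * Real.log N)) := by ring
    rw [h6]
    linarith

/-- the difference of two products -/
theorem prod_diff (T : Finset ℕ) (hT : ∀ p ∈ T, p.Prime) (a : ℕ → ℝ) (ha : ∀ p ∈ T, 0 ≤ a p ∧ a p ≤ 2 / p) :
    |∏ p ∈ T, a p - ∏ p ∈ T, 1 / (p : ℝ)| ≤ ∑ p ∈ T, |a p - 1 / p| * ∏ q ∈ T.erase p, (2 / (q : ℝ)) := by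
  classical
  induction T using Finset.induction_on with
  | empty => simp
  | insert s T hs ih =>
    have ih' := ih (fun p hp => hT p (mem_insert_of_mem hp)) (fun p hp => ha p (mem_insert_of_mem hp))
    have has := ha s (mem_insert_self _ _)
    have hs0 : (0 : ℝ) < s := by exact_mod_cast (hT s (mem_insert_self _ _)).pos
    rw [prod_insert hs, prod_insert hs, sum_insert hs, erase_insert hs]
    have h1 : a s * ∏ p ∈ T, a p - 1 / (s : ℝ) * ∏ p ∈ T, 1 / (p : ℝ) =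
        (a s - 1 / s) * ∏ p ∈ T, a p + 1 / s * (∏ p ∈ T, a p - ∏ p ∈ T, 1 / (p : ℝ)) := by ring
    have h2 : 0 ≤ ∏ p ∈ T, a p := prod_nonneg fun p hp => (ha p (mem_insert_of_mem hp)).1
    have h3 : ∏ p ∈ T, a p ≤ ∏ p ∈ T, (2 / (p : ℝ)) :=
      prod_le_prod (fun p hp => (ha p (mem_insert_of_mem hp)).1) (fun p hp => (ha p (mem_insert_of_mem hp)).2)
    rw [h1]
    refine (abs_add_le _ _).trans (add_le_add ?_ ?_)
    · rw [abs_mul, abs_of_nonneg h2]
      exact mul_le_mul_of_nonneg_left h3 (abs_nonneg _)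
    · rw [abs_mul, abs_of_pos (by positivity : (0 : ℝ) < 1 / s)]
      have h4 : ∀ p ∈ T, |a p - 1 / p| * ∏ q ∈ (insert s T).erase p, (2 / (q : ℝ)) =
          2 / s * (|a p - 1 / p| * ∏ q ∈ T.erase p, (2 / (q : ℝ))) := by
        intro p hp
        have hps : s ≠ p := by rintro rfl; exact hs hp
        rw [erase_insert_of_ne hps, prod_insert (fun h => hs (mem_of_mem_erase h))]
        ring
      rw [sum_congr rfl h4, ← mul_sum]
      have h5 : 0 ≤ ∑ p ∈ T, |a p - 1 / p| * ∏ q ∈ T.erase p, (2 / (q : ℝ)) := by positivity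
      have h6 : (1 : ℝ) / s ≤ 2 / s := div_le_div_of_nonneg_right (by norm_num) hs0.le
      calc (1 : ℝ) / s * |∏ p ∈ T, a p - ∏ p ∈ T, 1 / (p : ℝ)| ≤
          1 / s * ∑ p ∈ T, |a p - 1 / p| * ∏ q ∈ T.erase p, (2 / (q : ℝ)) :=
            mul_le_mul_of_nonneg_left ih' (by positivity)
        _ ≤ _ := mul_le_mul_of_nonneg_right h6 h5

end Pool.Agent.Q148.BA
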