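import Pool.Agent.Q148.BA.RestC

/-! The number of the prime pairs and of the pairs of a prime and a product of two large primes. -/

set_option autoImplicit false

namespace Pool.Agent.Q148.BA

open Finset Filter
open Pool.Agent.H560R3.GB (C₂ sing)

open Classical in
theorem cnt_one (κ : ℝ) (hκ : 0 < κ) (hκ8 : κ ≤ 1 / 8) (A₀ : ℕ) : ∃ N0 : ℕ, ∀ N : ℕ, N0 ≤ N →
    ∀ (h : ℕ) (v : ℕ → ℕ) (C1 C2 : ℝ) (t' : ℝ), 0 < C1 → 0 < C2 →
    (∀ p ∈ PP N, (v p : ℝ) ≤ N * Real.log N ^ A₀) →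
    (∀ m, 1 ≤ m → ((PP N).filter (fun p => v p = m)).card ≤ 2) →
    (∀ y : ℕ, y ≤ N → |∑ p ∈ PP y, L2 (v p) - 2 * sing h * y| ≤ C1 * (κ * Real.log (1 / κ) ^ 2) * sing h * N) →
    ∑ p ∈ (PP N).filter (fun p => ¬ Gz ⌊t'⌋₊ (v p)), L2 (v p) ≤ C2 * κ * sing h * N → ∀ y : ℕ, y ≤ N →
    N1 v y ≤ (2 * y + (2 * C1 + 2 * C2 + 7) * (κ * Real.log (1 / κ) ^ 2) * N) * sing h / Real.log N ^ 2 ∧
    (4 * y - (2 * C1 + 2 * C2 + 7) * (κ * Real.log (1 / κ) ^ 2) * N) * sing h / Real.log N ^ 2 ≤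
      2 * N1 v y + N2 v t' y := by
  obtain ⟨N1', H1⟩ := N1_le κ hκ hκ8
  obtain ⟨N2', H2⟩ := N2_ge κ hκ hκ8 A₀
  have hlk : 1 ≤ Real.log (1 / κ) := by
    rw [Real.le_log_iff_exp_le (by positivity), le_div_iff₀ hκ]
    have := Real.exp_one_lt_d9
    nlinarith
  have hlk2 : κ ≤ κ * Real.log (1 / κ) ^ 2 := le_mul_of_one_le_right hκ.le (one_le_pow₀ hlk)
  refine ⟨max (max N1' N2') 3, fun N hN h v C1 C2 t' hC1 hC2 hv hm hF hR y hy => ?_⟩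
  have g1 := H1 N ((le_max_left _ _).trans ((le_max_left _ _).trans hN)) y v hy hm
  have g2 := H2 N ((le_max_right _ _).trans ((le_max_left _ _).trans hN)) y v hy
    (fun p hp => hv p (PP_mono hy hp)) ⌊t'⌋₊ t' (fun q hq => Nat.lt_of_floor_lt hq)
  have g3 := hF y hy
  have hN3 : (3 : ℝ) ≤ N := by exact_mod_cast (le_max_right _ _).trans hN
  have hL0 : 0 < Real.log N := Real.log_pos (by linarith)
  obtain ⟨lk, hlkd⟩ : ∃ lk, lk = κ * Real.log (1 / κ) ^ 2 := ⟨_, rfl⟩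
  obtain ⟨s, hs⟩ : ∃ s, s = sing h := ⟨_, rfl⟩
  have hs1 : 1 ≤ s := by rw [hs]; exact sing_ge h
  obtain ⟨Sy, hSy⟩ : ∃ Sy, Sy = ∑ p ∈ PP y, L2 (v p) := ⟨_, rfl⟩
  obtain ⟨L, hL⟩ : ∃ L, L = Real.log N := ⟨_, rfl⟩
  rw [← hlkd] at hlk2 g3 ⊢
  rw [← hs] at g3 hR ⊢
  rw [← hSy] at g1 g2 g3
  rw [← hL] at g1 g2 hL0 ⊢
  have hy' : (y : ℝ) ≤ N := by exact_mod_cast hy
  have hy0 : (0 : ℝ) ≤ y := Nat.cast_nonneg y
  have hN0 : (0 : ℝ) < N := by linarith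
  have hsN : 0 < s * N := by positivity
  have hlk0 : 0 < lk := by linarith
  have a1 := abs_le.1 g3
  have b1 : κ * N ≤ lk * (s * N) := by
    apply mul_le_mul hlk2 _ hN0.le hlk0.le
    exact le_mul_of_one_le_left hN0.le hs1
  have b2 : κ * (s * y) ≤ lk * (s * N) :=
    mul_le_mul hlk2 (mul_le_mul_of_nonneg_left hy' (by linarith)) (by positivity) hlk0.le
  have b3 : κ * (s * N) ≤ lk * (s * N) := mul_le_mul_of_nonneg_right hlk2 hsN.le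
  have b4 : 0 < lk * (s * N) := by positivity
  have b5 : C1 * lk * s * N = C1 * (lk * (s * N)) := by ring
  have b6 : C2 * κ * s * N ≤ C2 * (lk * (s * N)) := by
    calc C2 * κ * s * N = C2 * (κ * (s * N)) := by ring
      _ ≤ _ := mul_le_mul_of_nonneg_left b3 hC2.le
  rw [b5] at a1
  obtain ⟨E, hE⟩ : ∃ E, E = lk * (s * N) := ⟨_, rfl⟩
  rw [← hE] at a1 b1 b2 b3 b4 b6
  have hS0 : 0 ≤ Sy := by
    rw [hSy]
    exact sum_nonneg fun p _ => L2_nonneg _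
  constructor
  · rw [le_div_iff₀ (by positivity)]
    have c1 : κ * Sy ≤ 2 * E + C1 * E := by
      have c2 : κ * Sy ≤ κ * (2 * s * y + C1 * E) := mul_le_mul_of_nonneg_left (by linarith [a1.2]) hκ.le
      have c3 : κ * (C1 * E) ≤ 1 * (C1 * E) := mul_le_mul_of_nonneg_right (by linarith) (by positivity)
      have c4 : κ * (2 * s * y + C1 * E) = 2 * (κ * (s * y)) + κ * (C1 * E) := by ring
      linarith
    have c5 : (2 * y + (2 * C1 + 2 * C2 + 7) * lk * N) * s = 2 * s * y + (2 * C1 + 2 * C2 + 7) * E := by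
      rw [hE]; ring
    have c6 : 0 ≤ C2 * E := by positivity
    rw [c5]
    linarith [a1.2]
  · rw [div_le_iff₀ (by positivity)]
    obtain ⟨Y, hY⟩ : ∃ Y, Y = (2 * N1 v y + N2 v t' y) * L ^ 2 := ⟨_, rfl⟩
    have hYe : (1 + κ) * (2 * N1 v y + N2 v t' y) * L ^ 2 = (1 + κ) * Y := by rw [hY]; ring
    rw [hYe] at g2
    rw [← hY]
    have hY0 : 0 ≤ Y := by
      rw [hY]
      unfold N1 N2
      positivity
    have c5 : (4 * y - (2 * C1 + 2 * C2 + 7) * lk * N) * s = 4 * s * y - (2 * C1 + 2 * C2 + 7) * E := by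
      rw [hE]; ring
    rw [c5]
    have c1 : 4 * s * y - 2 * (C1 * E) - 2 * (C2 * E) ≤ (1 + κ) * Y := by linarith [a1.1]
    rcases le_total Y (4 * s * y) with h1 | h1
    · have c2 : κ * Y ≤ κ * (4 * s * y) := mul_le_mul_of_nonneg_left h1 hκ.le
      have c3 : κ * (4 * s * y) = 4 * (κ * (s * y)) := by ring
      linarith
    · have c6 : 0 ≤ (2 * C1 + 2 * C2 + 7) * E := by positivity
      linarith

/-- **prime pairs, for almost all differences** -/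
theorem pairs : ∃ C : ℝ, 0 < C ∧ ∃ c : ℝ, 0 < c ∧ ∀ κ : ℝ, 0 < κ → κ ≤ 1 / 8 →
    ∃ N0 : ℕ, ∀ N : ℕ, N0 ≤ N → ∃ Ex : Finset ℕ, (Ex.card : ℝ) ≤ (N : ℝ) ^ (1 - κ) ∧
    ∀ h : ℕ, 1 ≤ h → h ≤ N → Even h → h ∉ Ex → ∀ v : ℕ → ℕ, (v = fun p => p + h) ∨ (v = fun p => (p - h) + (h - p)) →
      ∀ y : ℕ, y ≤ N →
      N1 v y ≤ (2 * y + C * (κ * Real.log (1 / κ) ^ 2) * N) * sing h / Real.log N ^ 2 ∧
      (4 * y - C * (κ * Real.log (1 / κ) ^ 2) * N) * sing h / Real.log N ^ 2 ≤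
        2 * N1 v y + N2 v ((N : ℝ) ^ (c * κ)) y := by
  classical
  obtain ⟨C1, hC1, HF⟩ := fam
  obtain ⟨C2, hC2, c, hc, hc1, HR⟩ := rest_fam
  refine ⟨2 * C1 + 2 * C2 + 7, by positivity, c, hc, ?_⟩
  intro κ hκ hκ8
  obtain ⟨N0, HF0⟩ := HF κ hκ hκ8 1
  obtain ⟨N1', HR0⟩ := HR κ hκ hκ8 1
  obtain ⟨N2', HC⟩ := cnt_one κ hκ hκ8 1
  have e1 := (tendsto_rpow_atTop (show 0 < κ / 2 by positivity)).eventually_ge_atTop 4
  have e2 := Real.tendsto_log_atTop.eventually_ge_atTop 2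
  obtain ⟨N3, HN3⟩ := eventually_atTop.1 ((tendsto_natCast_atTop_atTop (R := ℝ)).eventually
    (e1.and (e2.and (eventually_ge_atTop 1))))
  refine ⟨max (max N0 N1') (max N2' N3), fun N hN => ?_⟩
  have k0 : N0 ≤ N := (le_max_left _ _).trans ((le_max_left _ _).trans hN)
  have k1 : N1' ≤ N := (le_max_right _ _).trans ((le_max_left _ _).trans hN)
  have k2 : N2' ≤ N := (le_max_left _ _).trans ((le_max_right _ _).trans hN)
  obtain ⟨f1, f2, f3⟩ := HN3 N ((le_max_right _ _).trans ((le_max_right _ _).trans hN))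
  have hN0 : (0 : ℝ) < N := by linarith
  have hIb : ∀ b ∈ Icc 1 N, (b : ℝ) ≤ (N : ℝ) ^ (2 : ℝ) := by
    intro b hb
    rw [mem_Icc] at hb
    have h1 : (b : ℝ) ≤ N := by exact_mod_cast hb.2
    rw [Real.rpow_two, pow_two]
    exact h1.trans (le_mul_of_one_le_left hN0.le f3)
  obtain ⟨u, hu1, hu2⟩ := exists_inv 1
  have hneg : ∀ q : ℕ, 1 ≤ q → (u q * (q - 1)).Coprime q := by
    intro q hq
    refine (hu1 q hq).mul_left ?_
    have h1 : (q - 1).Coprime (q - 1 + 1) := by simp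
    rwa [Nat.sub_add_cancel hq] at h1
  obtain ⟨E1, hE1, F1⟩ := HF0 N k0 u hu1 (Icc 1 N) hIb
  obtain ⟨E2, hE2, F2⟩ := HF0 N k0 (fun q => u q * (q - 1)) hneg (Icc 1 N) hIb
  obtain ⟨E3, hE3, F3⟩ := HR0 N k1 u hu1 (Icc 1 N) hIb
  obtain ⟨E4, hE4, F4⟩ := HR0 N k1 (fun q => u q * (q - 1)) hneg (Icc 1 N) hIb
  refine ⟨(E1 ∪ E2) ∪ (E3 ∪ E4), ?_, ?_⟩
  · have h1 : ((((E1 ∪ E2) ∪ (E3 ∪ E4)).card : ℕ) : ℝ) ≤ E1.card + E2.card + (E3.card + E4.card) := by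
      have h2 := card_union_le (E1 ∪ E2) (E3 ∪ E4)
      have h3 := card_union_le E1 E2
      have h4 := card_union_le E3 E4
      have h5 : ((E1 ∪ E2) ∪ (E3 ∪ E4)).card ≤ E1.card + E2.card + (E3.card + E4.card) := by omega
      exact_mod_cast h5
    have h4 : (N : ℝ) ^ (1 - κ) = (N : ℝ) ^ (1 - 3 / 2 * κ) * (N : ℝ) ^ (κ / 2) := by
      rw [← Real.rpow_add hN0]
      congr 1
      ring
    have h5 : (N : ℝ) ^ (1 - 3 / 2 * κ) * 4 ≤ (N : ℝ) ^ (1 - 3 / 2 * κ) * (N : ℝ) ^ (κ / 2) :=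
      mul_le_mul_of_nonneg_left f1 (by positivity)
    rw [h4]
    linarith
  · intro h hh1 hhN hhe hhE
    have hhI : h ∈ Icc 1 N := mem_Icc.2 ⟨hh1, hhN⟩
    have hh2 : ((h : ℕ) : ℝ) ≤ (N : ℝ) ^ (2 : ℝ) := hIb h hhI
    rw [mem_union, mem_union, mem_union, not_or, not_or, not_or] at hhE
    obtain ⟨⟨n1, n2⟩, n3, n4⟩ := hhE
    have hhr : (h : ℝ) ≤ N := by exact_mod_cast hhN
    have hl1 : (((1 : ℕ) : ℝ)) * N + h ≤ N * Real.log N ^ 1 := by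
      rw [pow_one, Nat.cast_one]
      nlinarith
    have hl2 : (((1 : ℕ) : ℝ)) * N ≤ N * Real.log N ^ 1 := by
      rw [pow_one, Nat.cast_one]
      nlinarith
    have hl3 : (h : ℝ) ≤ N * Real.log N ^ 1 := by
      rw [pow_one]
      nlinarith
    have s1 := seq_add N 1 1 h le_rfl (Nat.coprime_one_left h) hl1 u hu1 hu2
    have s2 := seq_dif N 1 1 h le_rfl (Nat.coprime_one_left h) hl2 hl3 u hu1 hu2
    have hfl : ((⌊(N : ℝ) ^ (c * κ)⌋₊ : ℕ) : ℝ) ≤ (N : ℝ) ^ (c * κ) := Nat.floor_le (by positivity)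
    intro v hv
    rcases hv with hv | hv
    · have ev : (fun p => 1 * p + h) = v := by
        rw [hv]
        funext p
        rw [one_mul]
      rw [ev, one_mul] at s1
      exact HC N k2 h v C1 C2 ((N : ℝ) ^ (c * κ)) hC1 hC2 (fun p hp => s1.le p (mem_PP.1 hp).1 (mem_PP.1 hp).2) s1.two
        (fun y hy => F2 h hhI n2 h hh1 hhe hh2 v s1 y hy) (F4 h hhI n4 h hh1 hhe hh2 v s1 _ hfl)
    · have ev : dif 1 h = v := by
        rw [hv]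
        funext p
        unfold dif
        rw [one_mul]
      rw [ev, one_mul] at s2
      exact HC N k2 h v C1 C2 ((N : ℝ) ^ (c * κ)) hC1 hC2 (fun p hp => s2.le p (mem_PP.1 hp).1 (mem_PP.1 hp).2) s2.two
        (fun y hy => F1 h hhI n1 h hh1 hhe hh2 v s2 y hy) (F3 h hhI n3 h hh1 hhe hh2 v s2 _ hfl)

end Pool.Agent.Q148.BA
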