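import Pool.Agent.Q148.BA.Cmp
import Pool.Agent.H560R3.GB.Defs

/-! The density of the shifted primes. -/

set_option autoImplicit false

namespace Pool.Agent.Q148.BA

open Finset Filter
open Pool.Agent.H560R3.GB (C₂ sing)

/-- the density of the shifted primes -/
noncomputable def gh (h q : ℕ) : ℝ := if q.Coprime h then 1 / (q.totient : ℝ) else 0

theorem gh_prime {h p : ℕ} (hp : p.Prime) : gh h p = if p ∣ h then 0 else 1 / ((p : ℝ) - 1) := by
  unfold gh
  rw [Nat.totient_prime hp, Nat.cast_sub hp.one_le, Nat.cast_one]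
  by_cases hd : p ∣ h
  · rw [if_pos hd, if_neg]
    intro hc
    exact (Nat.Prime.coprime_iff_not_dvd hp).1 hc hd
  · rw [if_neg hd, if_pos ((Nat.Prime.coprime_iff_not_dvd hp).2 hd)]

theorem gh_mul (h q q' : ℕ) (hq : q.Coprime q') : gh h (q * q') = gh h q * gh h q' := by
  have hc : (q * q').Coprime h ↔ q.Coprime h ∧ q'.Coprime h := Nat.coprime_mul_iff_left
  unfold gh
  by_cases h1 : q.Coprime h
  · by_cases h2 : q'.Coprime h
    · rw [if_pos (hc.2 ⟨h1, h2⟩), if_pos h1, if_pos h2, Nat.totient_mul hq]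
      push_cast
      rw [one_div_mul_one_div]
    · rw [if_neg (fun hh => h2 (hc.1 hh).2), if_neg h2, mul_zero]
  · rw [if_neg (fun hh => h1 (hc.1 hh).1), if_neg h1, zero_mul]

theorem gh_one (h : ℕ) : gh h 1 = 1 := by
  unfold gh
  simp

theorem gh_nn (h q : ℕ) : 0 ≤ gh h q := by
  unfold gh
  split_ifs
  · positivity
  · exact le_rfl

theorem gh_pow (h p a : ℕ) (hp : p.Prime) (ha : 1 ≤ a) : gh h (p ^ a) ≤ 2 / (p : ℝ) ^ a := by
  have hp0 : (2 : ℝ) ≤ p := by exact_mod_cast hp.two_le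
  unfold gh
  split_ifs
  · rw [Nat.totient_prime_pow hp ha, Nat.cast_mul, Nat.cast_sub hp.one_le]
    push_cast
    have h1 : (p : ℝ) ^ a = (p : ℝ) ^ (a - 1) * p := by
      rw [← pow_succ, Nat.sub_add_cancel ha]
    have h2 : (0 : ℝ) < (p : ℝ) ^ (a - 1) := by positivity
    rw [h1, div_le_div_iff₀ (by nlinarith) (by positivity)]
    nlinarith
  · positivity

theorem gh_p1 (h p : ℕ) (hp : p.Prime) : gh h p ≤ 1 / ((p : ℝ) - 1) := by
  have hp0 : (2 : ℝ) ≤ p := by exact_mod_cast hp.two_le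
  rw [gh_prime hp]
  split_ifs
  · exact div_nonneg zero_le_one (by linarith)
  · exact le_rfl

theorem gh_half (h p : ℕ) (hh : Even h) (hp : p.Prime) : gh h p ≤ 1 / 2 := by
  rw [gh_prime hp]
  split_ifs with hd
  · norm_num
  · have h2 : p ≠ 2 := by
      rintro rfl
      exact hd hh.two_dvd
    have h3 : 3 ≤ p := by
      have := hp.two_le
      omega
    have hp0 : (3 : ℝ) ≤ p := by exact_mod_cast h3
    exact one_div_le_one_div_of_le (by norm_num) (by linarith)

/-- the density property of a sequence -/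
theorem dens_gh (h : ℕ) (hh : Even h) (S : Finset ℕ) (v : ℕ → ℕ) (X : ℝ) (hX : 0 ≤ X) :
    Dens S v X (gh h) (fun q => |A S v q - X * gh h q|) where
  h := fun q _ => le_rfl
  mul := gh_mul h
  one := gh_one h
  nn := fun p a _ => gh_nn h _
  pow := fun p a hp ha => gh_pow h p a hp ha
  p1 := fun p hp => gh_p1 h p hp
  half := fun p hp => gh_half h p hh hp
  X0 := hX

/-- the partial products of `C₂` -/
noncomputable def P3 (z : ℕ) : ℝ := ∏ p ∈ (Icc 3 z).filter Nat.Prime, (1 - 1 / ((p : ℝ) - 1) ^ 2)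

theorem fac_bd {p : ℝ} (hp : 3 ≤ p) : 0 < 1 - 1 / (p - 1) ^ 2 ∧ 1 - 1 / (p - 1) ^ 2 ≤ 1 := by
  have h1 : 4 ≤ (p - 1) ^ 2 := by nlinarith
  have h2 : 1 / (p - 1) ^ 2 ≤ 1 / 4 := one_div_le_one_div_of_le (by norm_num) h1
  have h3 : 0 ≤ 1 / (p - 1) ^ 2 := by positivity
  constructor
  · linarith
  · linarith

theorem P3_pos (z : ℕ) : 0 < P3 z := by
  unfold P3
  apply prod_pos
  intro p hp
  rw [mem_filter, mem_Icc] at hp
  exact (fac_bd (by exact_mod_cast hp.1.1)).1

theorem P3_anti {z y : ℕ} (h : z ≤ y) : P3 y ≤ P3 z := by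
  unfold P3
  have hsub : (Icc 3 z).filter Nat.Prime ⊆ (Icc 3 y).filter Nat.Prime := by
    intro p hp
    rw [mem_filter, mem_Icc] at hp ⊢
    exact ⟨⟨hp.1.1, hp.1.2.trans h⟩, hp.2⟩
  apply prod_le_prod_of_subset_of_le_one hsub
  · intro p hp
    rw [mem_filter, mem_Icc] at hp
    exact (fac_bd (by exact_mod_cast hp.1.1)).1.le
  · intro p hp _
    rw [mem_filter, mem_Icc] at hp
    exact (fac_bd (by exact_mod_cast hp.1.1)).2

theorem P3_ge1 (z : ℕ) (hz : 2 ≤ z) (k : ℕ) :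
    P3 z * ((1 - 1 / (z : ℝ)) * (1 + 1 / ((z + k : ℕ) - 1 : ℝ))) ≤ P3 (z + k) := by
  have hz0 : (2 : ℝ) ≤ z := by exact_mod_cast hz
  induction k with
  | zero =>
    have : (1 - 1 / (z : ℝ)) * (1 + 1 / ((z + 0 : ℕ) - 1 : ℝ)) = 1 := by
      have h1 : (z : ℝ) - 1 ≠ 0 := by linarith
      have h2 : (z : ℝ) ≠ 0 := by linarith
      rw [Nat.add_zero]
      field_simp
      ring
    rw [this, mul_one]
    exact le_rfl
  | succ k ih =>
    have hy : (2 : ℝ) ≤ (z + k : ℕ) := by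
      push_cast
      have : (0 : ℝ) ≤ k := Nat.cast_nonneg k
      linarith
    obtain ⟨y, hyd⟩ : ∃ y : ℕ, y = z + k := ⟨_, rfl⟩
    rw [← hyd] at ih hy
    have hyn : 2 ≤ y := by omega
    have e : z + (k + 1) = y + 1 := by omega
    rw [e]
    have h1 : P3 y * (1 - 1 / (y : ℝ) ^ 2) ≤ P3 (y + 1) := by
      have h2 : Icc 3 (y + 1) = insert (y + 1) (Icc 3 y) := by
        ext m
        rw [mem_insert, mem_Icc, mem_Icc]
        omega
      unfold P3
      rw [h2, filter_insert]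
      split_ifs with hp
      · rw [prod_insert (by rw [mem_filter, mem_Icc]; omega), mul_comm]
        push_cast
        rw [add_sub_cancel_right]
      · apply mul_le_of_le_one_right (P3_pos y).le
        have : 0 ≤ 1 / (y : ℝ) ^ 2 := by positivity
        linarith
    have h3 : (1 + 1 / ((y + 1 : ℕ) - 1 : ℝ)) = (1 + 1 / (y - 1 : ℝ)) * (1 - 1 / (y : ℝ) ^ 2) := by
      have : (y : ℝ) - 1 ≠ 0 := by linarith
      have : (y : ℝ) ≠ 0 := by linarith
      push_cast
      rw [add_sub_cancel_right]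
      field_simp
      ring
    have h4 : 0 ≤ 1 - 1 / (y : ℝ) ^ 2 := by
      rw [sub_nonneg, div_le_one (by positivity)]
      nlinarith
    rw [h3]
    calc P3 z * ((1 - 1 / (z : ℝ)) * ((1 + 1 / ((y : ℝ) - 1)) * (1 - 1 / (y : ℝ) ^ 2))) =
        P3 z * ((1 - 1 / (z : ℝ)) * (1 + 1 / ((y : ℝ) - 1))) * (1 - 1 / (y : ℝ) ^ 2) := by ring
      _ ≤ P3 y * (1 - 1 / (y : ℝ) ^ 2) := mul_le_mul_of_nonneg_right ih h4
      _ ≤ _ := h1

theorem P3_ge (z y : ℕ) (hz : 2 ≤ z) : P3 z * (1 - 1 / (z : ℝ)) ≤ P3 y := by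
  have hz0 : (2 : ℝ) ≤ z := by exact_mod_cast hz
  have h0 : 0 ≤ 1 - 1 / (z : ℝ) := by
    rw [sub_nonneg, div_le_one (by linarith)]
    linarith
  have h1 : P3 z * (1 - 1 / (z : ℝ)) ≤ P3 z := by
    apply mul_le_of_le_one_right (P3_pos z).le
    have : 0 ≤ 1 / (z : ℝ) := by positivity
    linarith
  rcases le_total y z with h | h
  · exact h1.trans (P3_anti h)
  · obtain ⟨k, rfl⟩ := Nat.exists_eq_add_of_le h
    refine le_trans ?_ (P3_ge1 z hz k)
    apply mul_le_mul_of_nonneg_left _ (P3_pos z).le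
    apply le_mul_of_one_le_right h0
    have : (0 : ℝ) ≤ 1 / ((z + k : ℕ) - 1 : ℝ) := by
      apply div_nonneg zero_le_one
      push_cast
      have : (0 : ℝ) ≤ k := Nat.cast_nonneg k
      linarith
    linarith

theorem C2_eq : C₂ = ⨅ z : ℕ, P3 z := rfl

theorem C2_le (z : ℕ) : C₂ ≤ P3 z := by
  rw [C2_eq]
  apply ciInf_le
  refine ⟨0, ?_⟩
  rintro _ ⟨y, rfl⟩
  exact (P3_pos y).le

theorem le_C2 (z : ℕ) (hz : 2 ≤ z) : P3 z * (1 - 1 / (z : ℝ)) ≤ C₂ := by
  rw [C2_eq]
  exact le_ciInf fun y => P3_ge z y hz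

theorem C2_ge : 1 / 2 ≤ C₂ := by
  have h := le_C2 2 le_rfl
  have h2 : P3 2 = 1 := by
    unfold P3
    rw [Icc_eq_empty (by norm_num)]
    simp
  rw [h2] at h
  norm_num at h ⊢
  linarith

/-- the factors of the singular series -/
noncomputable def dv (p : ℕ) : ℝ := ((p : ℝ) - 1) / ((p : ℝ) - 2)

theorem dv_ge {p : ℕ} (hp : 3 ≤ p) : 1 ≤ dv p := by
  have h1 : (3 : ℝ) ≤ p := by exact_mod_cast hp
  unfold dv
  rw [le_div_iff₀ (by linarith)]
  linarith

/-- the part of the singular series up to `z` -/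
noncomputable def D3 (h z : ℕ) : ℝ := ∏ p ∈ ((Icc 3 z).filter Nat.Prime).filter (· ∣ h), dv p

theorem D3_ge (h z : ℕ) : 1 ≤ D3 h z := by
  unfold D3
  have : ∏ p ∈ ((Icc 3 z).filter Nat.Prime).filter (· ∣ h), (1 : ℝ) ≤
      ∏ p ∈ ((Icc 3 z).filter Nat.Prime).filter (· ∣ h), dv p := by
    apply Finset.prod_le_prod (fun _ _ => zero_le_one)
    intro p hp
    rw [mem_filter, mem_filter, mem_Icc] at hp
    exact dv_ge hp.1.1.1
  rwa [prod_const_one] at this

theorem V_form (h z : ℕ) (hh : Even h) (hz : 2 ≤ z) :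
    ∏ p ∈ PP z, (1 - gh h p) = V1 z * (2 * P3 z * D3 h z) := by
  have hPP : PP z = insert 2 ((Icc 3 z).filter Nat.Prime) := by
    ext p
    rw [mem_PP, mem_insert, mem_filter, mem_Icc]
    constructor
    · rintro ⟨h1, h2⟩
      have := h1.two_le
      by_cases h3 : p = 2
      · exact Or.inl h3
      · exact Or.inr ⟨⟨by omega, h2⟩, h1⟩
    · rintro (rfl | h1)
      · exact ⟨Nat.prime_two, hz⟩
      · exact ⟨h1.2, h1.1.2⟩
  have hn : 2 ∉ (Icc 3 z).filter Nat.Prime := by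
    rw [mem_filter, mem_Icc]
    omega
  unfold V1 P3 D3
  rw [hPP, prod_insert hn, prod_insert hn, gh_prime Nat.prime_two, if_pos hh.two_dvd,
    prod_filter (fun p => p ∣ h) (s := (Icc 3 z).filter Nat.Prime)]
  have h1 : (1 - 1 / ((2 : ℕ) : ℝ)) * (∏ x ∈ (Icc 3 z).filter Nat.Prime, (1 - 1 / (x : ℝ))) *
      (2 * (∏ p ∈ (Icc 3 z).filter Nat.Prime, (1 - 1 / ((p : ℝ) - 1) ^ 2)) *
      ∏ a ∈ (Icc 3 z).filter Nat.Prime, (if a ∣ h then dv a else 1)) =
      ∏ p ∈ (Icc 3 z).filter Nat.Prime, ((1 - 1 / (p : ℝ)) * (1 - 1 / ((p : ℝ) - 1) ^ 2) *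
        (if p ∣ h then dv p else 1)) := by
    rw [prod_mul_distrib, prod_mul_distrib]
    norm_num
    ring
  rw [h1, sub_zero, one_mul]
  apply prod_congr rfl
  intro p hp
  rw [mem_filter, mem_Icc] at hp
  have hp3 : (3 : ℝ) ≤ p := by exact_mod_cast hp.1.1
  have e1 : (p : ℝ) - 1 ≠ 0 := by linarith
  have e2 : (p : ℝ) - 2 ≠ 0 := by linarith
  have e3 : (p : ℝ) ≠ 0 := by linarith
  rw [gh_prime hp.2]
  split_ifs
  · unfold dv
    field_simp
    ring
  · field_simp
    ring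

theorem sing_form (h z : ℕ) (hh : 1 ≤ h) :
    sing h = 2 * C₂ * D3 h z * ∏ p ∈ h.primeFactors.filter (fun p => 2 < p ∧ z < p), dv p := by
  unfold sing D3
  rw [mul_assoc (2 * C₂)]
  congr 1
  have h1 : h.primeFactors.filter (fun p => 2 < p) = ((Icc 3 z).filter Nat.Prime).filter (· ∣ h) ∪
      h.primeFactors.filter (fun p => 2 < p ∧ z < p) := by
    ext p
    rw [mem_union, mem_filter, mem_filter, mem_filter, mem_filter, mem_Icc, Nat.mem_primeFactors]
    constructor
    · rintro ⟨⟨h1, h2, h3⟩, h4⟩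
      by_cases h5 : p ≤ z
      · exact Or.inl ⟨⟨⟨h4, h5⟩, h1⟩, h2⟩
      · exact Or.inr ⟨⟨h1, h2, h3⟩, h4, by omega⟩
    · rintro (⟨⟨⟨h1, h2⟩, h3⟩, h4⟩ | ⟨h1, h2, h3⟩)
      · exact ⟨⟨h3, h4, by omega⟩, h1⟩
      · exact ⟨h1, h2⟩
  have h2 : Disjoint (((Icc 3 z).filter Nat.Prime).filter (· ∣ h))
      (h.primeFactors.filter (fun p => 2 < p ∧ z < p)) := by
    rw [disjoint_left]
    intro p hp hq
    rw [mem_filter, mem_filter, mem_Icc] at hp
    rw [mem_filter] at hq
    omega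
  rw [h1, prod_union h2]
  rfl

/-- the number of the large primes dividing `h` -/
theorem card_big (h z K : ℕ) (hh : 1 ≤ h) (hK : h < z ^ K) (hz : 1 ≤ z) :
    (h.primeFactors.filter (fun p => z < p)).card ≤ K := by
  have h1 : z ^ (h.primeFactors.filter (fun p => z < p)).card ≤ h := by
    calc z ^ (h.primeFactors.filter (fun p => z < p)).card =
        ∏ _p ∈ h.primeFactors.filter (fun p => z < p), z := by rw [prod_const]
      _ ≤ ∏ p ∈ h.primeFactors.filter (fun p => z < p), p := by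
          apply prod_le_prod'
          intro p hp
          exact (mem_filter.1 hp).2.le
      _ ≤ ∏ p ∈ h.primeFactors, p := by
          apply prod_le_prod_of_subset_of_one_le' (filter_subset _ _)
          intro p hp _
          exact (Nat.prime_of_mem_primeFactors hp).one_le
      _ ≤ h := Nat.le_of_dvd hh (Nat.prod_primeFactors_dvd h)
  by_contra hcon
  have h2 : z ^ K ≤ z ^ (h.primeFactors.filter (fun p => z < p)).card := Nat.pow_le_pow_right hz (by omega)
  omega

/-- the comparison with the singular series -/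
theorem sing_cmp (h z K : ℕ) (hh : 1 ≤ h) (hK : h < z ^ K) (hz : 3 ≤ z) :
    2 * P3 z * D3 h z * (1 - 1 / (z : ℝ)) ≤ sing h ∧ sing h ≤ 2 * P3 z * D3 h z * (1 + 1 / ((z : ℝ) - 2)) ^ K := by
  have hz3 : (3 : ℝ) ≤ z := by exact_mod_cast hz
  have hD := D3_ge h z
  rw [sing_form h z hh]
  obtain ⟨Pr, hPr⟩ : ∃ Pr, Pr = ∏ p ∈ h.primeFactors.filter (fun p => 2 < p ∧ z < p), dv p := ⟨_, rfl⟩
  rw [← hPr]
  have hC := C2_ge
  have h1 : 1 ≤ Pr := by
    rw [hPr]
    have : ∏ p ∈ h.primeFactors.filter (fun p => 2 < p ∧ z < p), (1 : ℝ) ≤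
        ∏ p ∈ h.primeFactors.filter (fun p => 2 < p ∧ z < p), dv p := by
      apply Finset.prod_le_prod (fun _ _ => zero_le_one)
      intro p hp
      rw [mem_filter] at hp
      exact dv_ge hp.2.1
    rwa [prod_const_one] at this
  have h2 : Pr ≤ (1 + 1 / ((z : ℝ) - 2)) ^ K := by
    rw [hPr]
    calc ∏ p ∈ h.primeFactors.filter (fun p => 2 < p ∧ z < p), dv p ≤
        ∏ _p ∈ h.primeFactors.filter (fun p => 2 < p ∧ z < p), (1 + 1 / ((z : ℝ) - 2)) := by
          apply Finset.prod_le_prod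
          · intro p hp
            rw [mem_filter] at hp
            exact zero_le_one.trans (dv_ge hp.2.1)
          · intro p hp
            rw [mem_filter] at hp
            have h3 : (z : ℝ) ≤ p := by exact_mod_cast hp.2.2.le
            have h4 : dv p = 1 + 1 / ((p : ℝ) - 2) := by
              unfold dv
              have : (p : ℝ) - 2 ≠ 0 := by linarith
              field_simp
              ring
            rw [h4]
            have h5 : 1 / ((p : ℝ) - 2) ≤ 1 / ((z : ℝ) - 2) :=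
              one_div_le_one_div_of_le (by linarith) (by linarith)
            linarith
      _ = (1 + 1 / ((z : ℝ) - 2)) ^ (h.primeFactors.filter (fun p => 2 < p ∧ z < p)).card := by rw [prod_const]
      _ ≤ _ := by
          apply pow_le_pow_right₀
          · have : 0 ≤ 1 / ((z : ℝ) - 2) := div_nonneg zero_le_one (by linarith)
            linarith
          · refine (card_le_card ?_).trans (card_big h z K hh hK (by omega))
            intro p hp
            rw [mem_filter] at hp ⊢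
            exact ⟨hp.1, hp.2.2⟩
  have h3 := C2_le z
  have h4 := le_C2 z (by omega)
  have hP := P3_pos z
  constructor
  · calc 2 * P3 z * D3 h z * (1 - 1 / (z : ℝ)) = 2 * (P3 z * (1 - 1 / (z : ℝ))) * D3 h z := by ring
      _ ≤ 2 * C₂ * D3 h z := mul_le_mul_of_nonneg_right (by linarith) (by linarith)
      _ ≤ 2 * C₂ * D3 h z * Pr := le_mul_of_one_le_right (by positivity) h1
  · calc 2 * C₂ * D3 h z * Pr ≤ 2 * P3 z * D3 h z * Pr := by
          apply mul_le_mul_of_nonneg_right _ (by linarith)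
          apply mul_le_mul_of_nonneg_right _ (by linarith)
          linarith
      _ ≤ _ := mul_le_mul_of_nonneg_left h2 (by positivity)

theorem sing_ge (h : ℕ) : 1 ≤ sing h := by
  unfold sing
  have hC := C2_ge
  have h1 : 1 ≤ ∏ p ∈ h.primeFactors.filter (fun p => 2 < p), ((p : ℝ) - 1) / ((p : ℝ) - 2) := by
    have : ∏ p ∈ h.primeFactors.filter (fun p => 2 < p), (1 : ℝ) ≤
        ∏ p ∈ h.primeFactors.filter (fun p => 2 < p), dv p := by
      apply Finset.prod_le_prod (fun _ _ => zero_le_one)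
      intro p hp
      rw [mem_filter] at hp
      exact dv_ge hp.2
    rwa [prod_const_one] at this
  nlinarith

end Pool.Agent.Q148.BA
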