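import Pool.Agent.Y882.FLW

/-! The fundamental lemma with exact treatment of the small primes. -/

set_option autoImplicit false

namespace Pool.Agent.Q148.BA

open Finset
open Pool.Agent.Y882

open Classical in
/-- the fundamental lemma: universal weights, all primes -/
theorem flf : ∃ C : ℕ, 1 ≤ C ∧ ∀ (b J : ℕ) (P : Finset ℕ), C ≤ b →
    (∀ p ∈ P, p.Prime ∧ p ≤ 2 ^ 2 ^ J) →
    ∃ wU wL : Finset ℕ → ℝ, (∀ T, |wU T| ≤ J + 1 ∧ |wL T| ≤ J + 1) ∧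
      (∀ T ⊆ P, (wU T ≠ 0 ∨ wL T ≠ 0) → ∏ p ∈ T, p ≤ C * (2 ^ 2 ^ J) ^ (C * b)) ∧
      (∀ N : ℕ, VV P wL (fun p => if p ∣ N then 1 else 0) ≤ (if ∀ p ∈ P, ¬ p ∣ N then 1 else 0) ∧
        (if ∀ p ∈ P, ¬ p ∣ N then 1 else 0) ≤ VV P wU (fun p => if p ∣ N then 1 else 0)) ∧
      (∀ g : ℕ → ℝ, (∀ p ∈ P, 0 ≤ g p ∧ g p ≤ 1 / ((p : ℝ) - 1)) →
        (1 - (1 / 2 : ℝ) ^ b) * ∏ p ∈ P, (1 - g p) ≤ VV P wL g ∧
        VV P wU g ≤ (1 + (1 / 2 : ℝ) ^ b) * ∏ p ∈ P, (1 - g p)) := by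
  obtain ⟨C, hC, H⟩ := flw
  obtain ⟨Z, hZ⟩ : ∃ Z : ℕ, Z = ∏ p ∈ (Icc 1 (2 * C)).filter Nat.Prime, p := ⟨_, rfl⟩
  refine ⟨2 * C + Z, by omega, fun b J P hb hP => ?_⟩
  set P0 := P.filter (fun p => p ≤ 2 * C) with hP0
  set P1 := P.filter (fun p => ¬ p ≤ 2 * C) with hP1
  have hU : P0 ∪ P1 = P := filter_union_filter_not_eq _ _
  have hD : Disjoint P0 P1 := disjoint_filter_filter_not _ _ _
  obtain ⟨cU, cL, c1, c2, c3, c4⟩ := H 1 b J (2 * C) P1 (by omega) (by omega) (by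
    intro p hp
    rw [hP1, mem_filter] at hp
    exact ⟨(hP p hp.1).1, by omega, (hP p hp.1).2⟩)
  obtain ⟨s, hs⟩ : ∃ s : Finset ℕ → ℝ, s = fun T => (-1 : ℝ) ^ T.card := ⟨_, rfl⟩
  have hs1 : ∀ T, |s T| = 1 := by
    intro T
    rw [hs]
    simp
  have hVV : ∀ (c : Finset ℕ → ℝ) (h : ℕ → ℝ),
      VV P (fun T => s (T ∩ P0) * c (T ∩ P1)) h = (∏ p ∈ P0, (1 - h p)) * VV P1 c h := by
    intro c h
    conv_lhs => rw [← hU]
    rw [VV_union P0 P1 hD s c h, hs, VV_mu]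
  have hind : ∀ N : ℕ, (∏ p ∈ P0, (1 - (if p ∣ N then (1 : ℝ) else 0))) =
      if ∀ p ∈ P0, ¬ p ∣ N then 1 else 0 := by
    intro N
    split_ifs with h
    · apply prod_eq_one
      intro p hp
      rw [if_neg (h p hp)]
      norm_num
    · push Not at h
      obtain ⟨p, hp, hpN⟩ := h
      apply prod_eq_zero hp
      rw [if_pos hpN]
      norm_num
  have hall : ∀ N : ℕ, (if ∀ p ∈ P, ¬ p ∣ N then (1 : ℝ) else 0) =
      (if ∀ p ∈ P0, ¬ p ∣ N then 1 else 0) * (if ∀ p ∈ P1, ¬ p ∣ N then 1 else 0) := by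
    intro N
    have h1 : (∀ p ∈ P, ¬ p ∣ N) ↔ (∀ p ∈ P0, ¬ p ∣ N) ∧ (∀ p ∈ P1, ¬ p ∣ N) := by
      conv_lhs => rw [← hU]
      constructor
      · intro h
        exact ⟨fun p hp => h p (mem_union_left _ hp), fun p hp => h p (mem_union_right _ hp)⟩
      · rintro ⟨h2, h3⟩ p hp
        rcases mem_union.1 hp with h | h
        · exact h2 p h
        · exact h3 p h
    by_cases h2 : ∀ p ∈ P0, ¬ p ∣ N
    · by_cases h3 : ∀ p ∈ P1, ¬ p ∣ N
      · rw [if_pos (h1.2 ⟨h2, h3⟩), if_pos h2, if_pos h3, one_mul]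
      · rw [if_neg (fun h => h3 (h1.1 h).2), if_neg h3, mul_zero]
    · rw [if_neg (fun h => h2 (h1.1 h).1), if_neg h2, zero_mul]
  refine ⟨fun T => s (T ∩ P0) * cU (T ∩ P1), fun T => s (T ∩ P0) * cL (T ∩ P1), ?_, ?_, ?_, ?_⟩
  · intro T
    have hJ : (0 : ℝ) ≤ J := Nat.cast_nonneg J
    constructor
    · rw [abs_mul, hs1, one_mul]
      linarith [(c1 (T ∩ P1)).1]
    · rw [abs_mul, hs1, one_mul]
      exact (c1 (T ∩ P1)).2
  · intro T hT h0
    have h1 : cU (T ∩ P1) ≠ 0 ∨ cL (T ∩ P1) ≠ 0 := by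
      rcases h0 with h | h
      · exact Or.inl (right_ne_zero_of_mul h)
      · exact Or.inr (right_ne_zero_of_mul h)
    have h2 := c2 (T ∩ P1) inter_subset_right h1
    have h3 : ∏ p ∈ T, p = (∏ p ∈ T ∩ P0, p) * ∏ p ∈ T ∩ P1, p := by
      rw [← prod_union (hD.mono inter_subset_right inter_subset_right), ← inter_union_distrib_left, hU,
        inter_eq_left.2 hT]
    have h4 : ∏ p ∈ T ∩ P0, p ≤ Z := by
      rw [hZ]
      apply prod_le_prod_of_subset_of_one_le'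
      · intro p hp
        rw [mem_inter, hP0, mem_filter] at hp
        rw [mem_filter, mem_Icc]
        exact ⟨⟨(hP p hp.2.1).1.one_le, hp.2.2⟩, (hP p hp.2.1).1⟩
      · intro p hp _
        rw [mem_filter] at hp
        exact hp.2.one_le
    rw [h3]
    calc (∏ p ∈ T ∩ P0, p) * ∏ p ∈ T ∩ P1, p ≤ Z * (2 ^ 2 ^ J) ^ (C * b) := Nat.mul_le_mul h4 h2
      _ ≤ (2 * C + Z) * (2 ^ 2 ^ J) ^ ((2 * C + Z) * b) := by
        apply Nat.mul_le_mul (by omega)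
        apply Nat.pow_le_pow_right (by positivity)
        apply Nat.mul_le_mul_right
        omega
  · intro N
    rw [hVV, hVV, hind, hall]
    obtain ⟨h1, h2⟩ := c3 N
    have h0 : (0 : ℝ) ≤ if ∀ p ∈ P0, ¬ p ∣ N then 1 else 0 := by split_ifs <;> norm_num
    exact ⟨mul_le_mul_of_nonneg_left h1 h0, mul_le_mul_of_nonneg_left h2 h0⟩
  · intro g hg
    rw [hVV, hVV]
    obtain ⟨h1, _, _, h2⟩ := c4 g (by
      intro p hp
      rw [hP1, mem_filter] at hp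
      have := hg p hp.1
      push_cast
      exact this)
    have h0 : (0 : ℝ) ≤ ∏ p ∈ P0, (1 - g p) := by
      apply prod_nonneg
      intro p hp
      rw [hP0, mem_filter] at hp
      have h3 := (hg p hp.1).2
      have h4 : (2 : ℝ) ≤ p := by exact_mod_cast (hP p hp.1).1.two_le
      have h5 : 1 / ((p : ℝ) - 1) ≤ 1 := by
        rw [div_le_one (by linarith)]
        linarith
      linarith
    have h3 : ∏ p ∈ P, (1 - g p) = (∏ p ∈ P0, (1 - g p)) * ∏ p ∈ P1, (1 - g p) := by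
      conv_lhs => rw [← hU]
      exact prod_union hD
    rw [h3]
    have h4 := mul_le_mul_of_nonneg_left h1 h0
    have h5 := mul_le_mul_of_nonneg_left h2 h0
    constructor
    · linarith
    · linarith

end Pool.Agent.Q148.BA
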