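import Pool.Agent.Q148.BA.App
import Pool.Agent.Y882.EHF

/-! The asymptotic sieve for `Λ₂` for almost all members of a family. -/

set_option autoImplicit false

namespace Pool.Agent.Q148.BA

open Finset Filter
open Pool.Agent.H560R3.GB (C₂ sing)
open Pool.Agent.Y882.EHF (S few_affine)
open Pool.Agent.TH926.EH (E pc)
open Pool.Agent.H442R2.EHI (piAP)

theorem app2 : ∃ C : ℝ, 0 < C ∧ ∀ κ : ℝ, 0 < κ → κ ≤ 1 / 8 → ∀ A₀ : ℕ,
    ∃ N0 : ℕ, ∀ N : ℕ, N0 ≤ N → ∀ h : ℕ, 1 ≤ h → Even h → (h : ℝ) ≤ (N : ℝ) ^ (2 : ℝ) →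
    ∀ (y : ℕ) (v : ℕ → ℕ), y ≤ N →
      (∀ p ∈ PP y, (v p : ℝ) ≤ N * Real.log N ^ A₀) →
      (∀ m, 1 ≤ m → ((PP y).filter (fun p => v p = m)).card ≤ 2) →
      ∑ q ∈ Icc 1 ⌊(N : ℝ) ^ (1 - κ)⌋₊, |A (PP y) v q - ((PP y).card : ℝ) * gh h q| ≤ N / Real.log N ^ 10 →
      |∑ p ∈ PP y, L2 (v p) - 2 * sing h * y| ≤
        C * (κ * Real.log (1 / κ) ^ 2) * sing h * N := by
  obtain ⟨C, hC, H⟩ := app1
  refine ⟨2 * C + 3, by positivity, ?_⟩
  intro κ hκ hκ8 A₀
  obtain ⟨N0, HN⟩ := H κ hκ hκ8 A₀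
  obtain ⟨N1, HN1⟩ := pi_unif κ hκ (by linarith)
  have hlk : 1 ≤ Real.log (1 / κ) := by
    rw [Real.le_log_iff_exp_le (by positivity), le_div_iff₀ hκ]
    have := Real.exp_one_lt_d9
    nlinarith
  have hlk2 : κ ≤ κ * Real.log (1 / κ) ^ 2 := le_mul_of_one_le_right hκ.le (one_le_pow₀ hlk)
  refine ⟨max N0 N1, fun N hN h hh1 hhe hh2 y v hy hv hm hR => ?_⟩
  have h1 := HN N ((le_max_left _ _).trans hN) h hh1 hhe hh2 (PP y) v (PP y).card (Nat.cast_nonneg _) hv hm hR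
  have h2 := HN1 N ((le_max_right _ _).trans hN) y hy
  obtain ⟨s, hs⟩ : ∃ s, s = sing h := ⟨_, rfl⟩
  have hs1 : 1 ≤ s := by rw [hs]; exact sing_ge h
  obtain ⟨lk, hlkd⟩ : ∃ lk, lk = κ * Real.log (1 / κ) ^ 2 := ⟨_, rfl⟩
  rw [← hlkd] at hlk2 h1 ⊢
  rw [← hs] at h1 ⊢
  obtain ⟨X, hX⟩ : ∃ X : ℝ, X = (PP y).card * Real.log N := ⟨_, rfl⟩
  rw [← hX] at h2
  have e1 : (((PP y).card : ℝ) * s * Real.log N) = s * X := by rw [hX]; ring
  rw [e1] at h1
  have hN0 : (0 : ℝ) ≤ N := Nat.cast_nonneg N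
  have hyN : (y : ℝ) ≤ N := by exact_mod_cast hy
  have hX2 : X ≤ 2 * N := by
    have := (abs_le.1 h2).2
    nlinarith
  have hlk0 : 0 < lk := by linarith
  have h3 : C * lk * (s * X) ≤ 2 * C * lk * s * N := by
    have h4 : s * X ≤ s * (2 * N) := mul_le_mul_of_nonneg_left hX2 (by linarith)
    have h5 : C * lk * (s * X) ≤ C * lk * (s * (2 * N)) := mul_le_mul_of_nonneg_left h4 (by positivity)
    linarith
  have h4 : |2 * (s * X) - 2 * s * y| ≤ 2 * (lk * s * N) := by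
    have e : 2 * (s * X) - 2 * s * y = (2 * s) * (X - y) := by ring
    rw [e, abs_mul, abs_of_nonneg (by linarith : 0 ≤ 2 * s)]
    calc (2 * s) * |X - y| ≤ (2 * s) * (κ * N) := mul_le_mul_of_nonneg_left h2 (by linarith)
      _ ≤ (2 * s) * (lk * N) := mul_le_mul_of_nonneg_left (mul_le_mul_of_nonneg_right hlk2 hN0) (by linarith)
      _ = _ := by ring
  have h5 : κ * N ≤ lk * s * N := by
    have : lk ≤ lk * s := le_mul_of_one_le_right (by linarith) hs1
    exact mul_le_mul_of_nonneg_right (by linarith) hN0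
  have h6 := abs_sub_le (∑ p ∈ PP y, L2 (v p)) (2 * (s * X)) (2 * s * y)
  have h7 : (2 * C + 3) * lk * s * N = 2 * C * lk * s * N + 2 * (lk * s * N) + lk * s * N := by ring
  rw [h7]
  linarith

/-- the conditions on the sequence `v` of the values at the primes; `c q` is the residue class -/
structure Seq (N A₀ h : ℕ) (v c : ℕ → ℕ) : Prop where
  le : ∀ p : ℕ, p.Prime → p ≤ N → (v p : ℝ) ≤ N * Real.log N ^ A₀
  two : ∀ m, 1 ≤ m → ((PP N).filter (fun p => v p = m)).card ≤ 2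
  cop : ∀ q, 1 ≤ q → q.Coprime h → (c q).Coprime q
  iff : ∀ q, 1 ≤ q → q.Coprime h → ∀ p : ℕ, p.Prime → p ≤ N → (q ∣ v p ↔ p ≡ c q [MOD q])
  one : ∀ q, 1 ≤ q → ¬ q.Coprime h → ((PP N).filter (fun p => q ∣ v p)).card ≤ 1

theorem PP_mono {y N : ℕ} (h : y ≤ N) : PP y ⊆ PP N := by
  intro p hp
  rw [mem_PP] at hp ⊢
  exact ⟨hp.1, hp.2.trans h⟩

theorem Seq.sum_le {N A₀ h : ℕ} {v c : ℕ → ℕ} (H : Seq N A₀ h v c) (y Q : ℕ) (hy : y ≤ N) :
    ∑ q ∈ Icc 1 Q, |A (PP y) v q - ((PP y).card : ℝ) * gh h q| ≤ S y Q c + Q := by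
  have h1 : ∀ q ∈ Icc 1 Q, |A (PP y) v q - ((PP y).card : ℝ) * gh h q| ≤
      (if (c q).Coprime q then E y q (c q) else 0) + 1 := by
    intro q hq
    rw [mem_Icc] at hq
    have hE : 0 ≤ E y q (c q) := abs_nonneg _
    by_cases hc : q.Coprime h
    · rw [if_pos (H.cop q hq.1 hc)]
      have h2 : A (PP y) v q = piAP y q (c q) := by
        unfold A piAP
        congr 2
        ext p
        rw [mem_filter, mem_PP, mem_filter, mem_Icc]
        constructor
        · rintro ⟨⟨h3, h4⟩, h5⟩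
          exact ⟨⟨h3.one_le, h4⟩, h3, (H.iff q hq.1 hc p h3 (h4.trans hy)).1 h5⟩
        · rintro ⟨⟨h3, h4⟩, h5, h6⟩
          exact ⟨⟨h5, h4⟩, (H.iff q hq.1 hc p h5 (h4.trans hy)).2 h6⟩
      have h3 : ((PP y).card : ℝ) * gh h q = pc y / (q.totient : ℝ) := by
        unfold gh pc
        rw [if_pos hc, mul_one_div]
        rfl
      rw [h2, h3]
      unfold E
      linarith
    · have h2 : gh h q = 0 := by
        unfold gh
        rw [if_neg hc]
      have h3 : A (PP y) v q ≤ 1 := by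
        unfold A
        have h4 : ((PP y).filter (fun p => q ∣ v p)).card ≤ ((PP N).filter (fun p => q ∣ v p)).card :=
          card_le_card (filter_subset_filter _ (PP_mono hy))
        exact_mod_cast h4.trans (H.one q hq.1 hc)
      have h4 : 0 ≤ A (PP y) v q := by
        unfold A
        positivity
      rw [h2, mul_zero, sub_zero, abs_of_nonneg h4]
      split_ifs
      · linarith
      · linarith
  refine (sum_le_sum h1).trans ?_
  rw [sum_add_distrib, ← sum_filter, sum_const, Nat.card_Icc, nsmul_eq_mul, mul_one, Nat.add_sub_cancel]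
  unfold S
  exact le_rfl

/-- from the grid to all lengths -/
theorem grid_fin (N K : ℕ) (hKpos : 0 < K) (hNn : 0 < N) (κ lk C s : ℝ) (hκ : 0 < κ) (hK1 : 1 / κ ≤ K)
    (hlk2 : κ ≤ lk) (hs1 : 1 ≤ s) (hC : 0 < C) (F : ℕ → ℝ) (hF : ∀ a b : ℕ, a ≤ b → F a ≤ F b) (hκN : 1 / κ ≤ N)
    (hgrid : ∀ j : ℕ, j ≤ K → |F (j * N / K) - 2 * s * ((j * N / K : ℕ) : ℝ)| ≤ C * lk * s * N) (y : ℕ) (hy : y ≤ N) :
    |F y - 2 * s * y| ≤ (C + 6) * lk * s * N := by
  have hK0 : (0 : ℝ) < K := by exact_mod_cast hKpos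
  have hN0 : (0 : ℝ) < N := by exact_mod_cast hNn
  obtain ⟨j, hjd⟩ : ∃ j : ℕ, j = min (y * K / N) (K - 1) := ⟨_, rfl⟩
  have hj1 : j + 1 ≤ K := by omega
  have hjy : j * N / K ≤ y := by
    apply Nat.div_le_of_le_mul
    have h1 : j ≤ y * K / N := by omega
    calc j * N ≤ (y * K / N) * N := Nat.mul_le_mul_right N h1
      _ ≤ y * K := Nat.div_mul_le_self _ _
      _ = K * y := mul_comm _ _
  have hyj : y ≤ (j + 1) * N / K := by
    rw [Nat.le_div_iff_mul_le hKpos]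
    rcases Nat.lt_or_ge (y * K / N) (K - 1) with h1 | h1
    · have h2 : j = y * K / N := by omega
      rw [h2]
      have h3 := Nat.lt_div_mul_add (a := y * K) hNn
      nlinarith
    · have h2 : j + 1 = K := by omega
      rw [h2, mul_comm]
      exact Nat.mul_le_mul_left K hy
  have g1 := hgrid j (by omega)
  have g2 := hgrid (j + 1) hj1
  have hdiff : (((j + 1) * N / K : ℕ) : ℝ) ≤ ((j * N / K : ℕ) : ℝ) + 2 * κ * N := by
    have h1 : (((j + 1) * N / K : ℕ) : ℝ) ≤ ((j + 1 : ℕ) : ℝ) * N / K := by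
      have := Nat.cast_div_le (α := ℝ) (m := (j + 1) * N) (n := K)
      rwa [Nat.cast_mul] at this
    have h2 : (j : ℝ) * N / K ≤ ((j * N / K : ℕ) : ℝ) + 1 := by
      rw [div_le_iff₀ hK0]
      have h2 := Nat.lt_div_mul_add (a := j * N) hKpos
      have h3 : j * N ≤ (j * N / K + 1) * K := by nlinarith
      exact_mod_cast h3
    have h3 : (N : ℝ) / K ≤ κ * N := by
      rw [div_le_iff₀ hK0]
      have h4 : 1 ≤ κ * K := by
        rw [div_le_iff₀ hκ] at hK1
        linarith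
      nlinarith
    have h4 : ((j + 1 : ℕ) : ℝ) * N / K = (j : ℝ) * N / K + N / K := by
      push_cast
      ring
    have h5 : 1 ≤ κ * N := by
      rw [div_le_iff₀ hκ] at hκN
      linarith
    linarith
  have hm1 := hF _ _ hjy
  have hm2 := hF _ _ hyj
  have hjy' : ((j * N / K : ℕ) : ℝ) ≤ y := by exact_mod_cast hjy
  have hyj' : (y : ℝ) ≤ (((j + 1) * N / K : ℕ) : ℝ) := by exact_mod_cast hyj
  obtain ⟨a, ha⟩ : ∃ a : ℕ, a = j * N / K := ⟨_, rfl⟩
  obtain ⟨b, hb⟩ : ∃ b : ℕ, b = (j + 1) * N / K := ⟨_, rfl⟩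
  rw [← ha] at g1 hdiff hm1 hjy'
  rw [← hb] at g2 hdiff hm2 hyj'
  have g1' := abs_le.1 g1
  have g2' := abs_le.1 g2
  have k1 : 2 * s * (b : ℝ) ≤ 2 * s * (a : ℝ) + 4 * (lk * s * N) := by
    have h1 : 2 * s * (b : ℝ) ≤ 2 * s * ((a : ℝ) + 2 * κ * N) :=
      mul_le_mul_of_nonneg_left hdiff (by linarith)
    have h2 : κ * (s * N) ≤ lk * (s * N) := mul_le_mul_of_nonneg_right hlk2 (by positivity)
    have h3 : 2 * s * ((a : ℝ) + 2 * κ * N) = 2 * s * (a : ℝ) + 4 * (κ * (s * N)) := by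
      ring
    rw [h3] at h1
    have h4 : lk * s * N = lk * (s * N) := by ring
    rw [h4]
    linarith
  have k2 : 2 * s * (a : ℝ) ≤ 2 * s * y := mul_le_mul_of_nonneg_left hjy' (by linarith)
  have k3 : 2 * s * y ≤ 2 * s * (b : ℝ) := mul_le_mul_of_nonneg_left hyj' (by linarith)
  have k4 : (C + 6) * lk * s * N = C * lk * s * N + 6 * (lk * s * N) := by ring
  have k5 : 0 ≤ lk * s * N := by
    have : 0 ≤ lk := by linarith
    positivity
  rw [k4, abs_le]
  constructor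
  · linarith [g1'.1]
  · linarith [g2'.2]

/-- **the family theorem** -/
theorem fam : ∃ C : ℝ, 0 < C ∧ ∀ κ : ℝ, 0 < κ → κ ≤ 1 / 8 → ∀ A₀ : ℕ,
    ∃ N0 : ℕ, ∀ N : ℕ, N0 ≤ N → ∀ u : ℕ → ℕ, (∀ q, 1 ≤ q → (u q).Coprime q) →
    ∀ (I : Finset ℕ), (∀ b ∈ I, (b : ℝ) ≤ (N : ℝ) ^ (2 : ℝ)) →
    ∃ Ex : Finset ℕ, (Ex.card : ℝ) ≤ (N : ℝ) ^ (1 - 3 / 2 * κ) ∧
    ∀ b ∈ I, b ∉ Ex → ∀ h : ℕ, 1 ≤ h → Even h → (h : ℝ) ≤ (N : ℝ) ^ (2 : ℝ) → ∀ v : ℕ → ℕ,
      Seq N A₀ h v (fun q => b * u q) → ∀ y : ℕ, y ≤ N →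
      |∑ p ∈ PP y, L2 (v p) - 2 * sing h * y| ≤ C * (κ * Real.log (1 / κ) ^ 2) * sing h * N := by
  classical
  obtain ⟨C, hC, H⟩ := app2
  refine ⟨C + 6, by positivity, ?_⟩
  intro κ hκ hκ8 A₀
  obtain ⟨N0, HN⟩ := H κ hκ hκ8 A₀
  have hlk : 1 ≤ Real.log (1 / κ) := by
    rw [Real.le_log_iff_exp_le (by positivity), le_div_iff₀ hκ]
    have := Real.exp_one_lt_d9
    nlinarith
  have hlk2 : κ ≤ κ * Real.log (1 / κ) ^ 2 := le_mul_of_one_le_right hκ.le (one_le_pow₀ hlk)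
  obtain ⟨B, N1, HF⟩ := few_affine 12 (κ / 2) 4 (by positivity) (by norm_num)
  obtain ⟨K, hK⟩ : ∃ K : ℕ, K = ⌈1 / κ⌉₊ := ⟨_, rfl⟩
  have hK1 : 1 / κ ≤ K := by rw [hK]; exact Nat.le_ceil _
  have hκinv : 8 ≤ 1 / κ := by rw [le_div_iff₀ hκ]; linarith
  have hK8 : (8 : ℝ) ≤ K := hκinv.trans hK1
  have hKpos : 0 < K := by
    have : (0 : ℝ) < K := by linarith
    exact_mod_cast this
  have e1 := (tendsto_rpow_atTop (show 0 < κ / 2 by positivity)).eventually_ge_atTop (2 * (K : ℝ))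
  have e2 := Pool.Agent.H398R2.BV.ev_log (2 * K ^ 2) B (κ / 2) (by positivity)
  have e3 := Real.tendsto_log_atTop.eventually_ge_atTop (2 ^ 13)
  have e4 := Pool.Agent.H398R2.BV.ev_log 2 10 κ hκ
  have e5 := eventually_ge_atTop (2 * (K : ℝ) * (N1 + 3) + (2 * K) ^ 2 + 1 / κ)
  obtain ⟨N2, HN2⟩ := eventually_atTop.1 ((tendsto_natCast_atTop_atTop (R := ℝ)).eventually
    (e1.and (e2.and (e3.and (e4.and e5)))))
  refine ⟨max N0 N2, fun N hN u hu I hI => ?_⟩
  obtain ⟨f1, f2, f3, f4, f5⟩ := HN2 N ((le_max_right _ _).trans hN)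
  have hN1r : (0 : ℝ) ≤ N1 := Nat.cast_nonneg N1
  have hN3 : (2 * (K : ℝ)) * 3 ≤ N := by nlinarith
  have hN0 : (0 : ℝ) < N := by linarith
  obtain ⟨Q, hQ⟩ : ∃ Q : ℕ, Q = ⌊(N : ℝ) ^ (1 - κ)⌋₊ := ⟨_, rfl⟩
  have hQle : (Q : ℝ) ≤ (N : ℝ) ^ (1 - κ) := by rw [hQ]; exact Nat.floor_le (by positivity)
  -- the grid
  have hgr : ∀ j : ℕ, 1 ≤ j → (N : ℝ) / (2 * K) ≤ ((j * N / K : ℕ) : ℝ) := by
    intro j hj
    have h1 : (N : ℝ) / K ≤ (((j * N / K : ℕ) : ℝ)) + 1 := by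
      rw [div_le_iff₀ (by linarith)]
      have h2 := Nat.lt_div_mul_add (a := j * N) hKpos
      have h3 : N ≤ (j * N / K + 1) * K := by nlinarith
      exact_mod_cast h3
    have h2 : (3 : ℝ) ≤ N / (2 * K) := by
      rw [le_div_iff₀ (by linarith)]
      linarith
    have h3 : (N : ℝ) / K = N / (2 * K) + N / (2 * K) := by
      field_simp
      ring
    linarith
  obtain ⟨Ej, hEj⟩ : ∃ Ej : ℕ → Finset ℕ, Ej = fun j => I.filter (fun b =>
      ((j * N / K : ℕ) : ℝ) / Real.log ((j * N / K : ℕ) : ℝ) ^ 12 < S (j * N / K) Q (fun q => b * u q)) := ⟨_, rfl⟩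
  have hcard : ∀ j ∈ Icc 1 K, ((Ej j).card : ℝ) ≤ 2 * K * ((N : ℝ) ^ (1 - 2 * κ) * Real.log N ^ B) := by
    intro j hj
    rw [mem_Icc] at hj
    have g1 := hgr j hj.1
    obtain ⟨y, hyd⟩ : ∃ y : ℕ, y = j * N / K := ⟨_, rfl⟩
    have hyN : y ≤ N := by
      rw [hyd]
      apply Nat.div_le_of_le_mul
      exact Nat.mul_le_mul_right N hj.2
    have hyN' : (y : ℝ) ≤ N := by exact_mod_cast hyN
    rw [← hyd] at g1
    have hy3 : (N1 : ℝ) + 3 ≤ y := by
      refine le_trans ?_ g1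
      rw [le_div_iff₀ (by linarith)]
      nlinarith
    have hy0 : (0 : ℝ) < y := by linarith
    have h1 := HF y (by
      have : (N1 : ℝ) ≤ y := by linarith
      exact_mod_cast this) Q (by
      have h2 : (N : ℝ) ^ (1 - κ) ≤ ((N : ℝ) / (2 * K)) ^ (1 - κ / 2) := by
        rw [Real.div_rpow hN0.le (by linarith), le_div_iff₀ (by positivity)]
        have h3 : (2 * (K : ℝ)) ^ (1 - κ / 2) ≤ (2 * (K : ℝ)) ^ (1 : ℝ) :=
          Real.rpow_le_rpow_of_exponent_le (by linarith) (by linarith)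
        rw [Real.rpow_one] at h3
        calc (N : ℝ) ^ (1 - κ) * (2 * (K : ℝ)) ^ (1 - κ / 2) ≤ (N : ℝ) ^ (1 - κ) * (N : ℝ) ^ (κ / 2) :=
              mul_le_mul_of_nonneg_left (h3.trans f1) (by positivity)
          _ = (N : ℝ) ^ (1 - κ / 2) := by
            rw [← Real.rpow_add hN0]
            congr 1
            ring
      exact (hQle.trans h2).trans (Real.rpow_le_rpow (by positivity) g1 (by linarith))) u (fun _ => 0) hu (Ej j) (by
      intro b hb
      rw [hEj] at hb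
      simp only at hb
      rw [mem_filter, ← hyd] at hb
      refine ⟨?_, ?_⟩
      · have h2 : (N : ℝ) ≤ (y : ℝ) ^ (2 : ℝ) := by
          have h3 : (N : ℝ) = (N / (2 * K)) * (2 * K) := by
            field_simp
          have h4 : 2 * (K : ℝ) ≤ N / (2 * K) := by
            rw [le_div_iff₀ (by linarith)]
            nlinarith
          rw [Real.rpow_two, pow_two]
          calc (N : ℝ) = (N / (2 * K)) * (2 * K) := h3
            _ ≤ y * y := mul_le_mul g1 (h4.trans g1) (by positivity) hy0.le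
        calc (b : ℝ) ≤ (N : ℝ) ^ (2 : ℝ) := hI b hb.1
          _ ≤ ((y : ℝ) ^ (2 : ℝ)) ^ (2 : ℝ) := Real.rpow_le_rpow hN0.le h2 (by norm_num)
          _ = (y : ℝ) ^ (4 : ℝ) := by
            rw [← Real.rpow_mul hy0.le]
            norm_num
      · simpa using hb.2)
    refine h1.trans ?_
    have h2 : (Q : ℝ) ^ 2 / y ≤ 2 * K * (N : ℝ) ^ (1 - 2 * κ) := by
      rw [div_le_iff₀ hy0]
      have h3 : (Q : ℝ) ^ 2 ≤ (N : ℝ) ^ (2 - 2 * κ) := by
        calc (Q : ℝ) ^ 2 ≤ ((N : ℝ) ^ (1 - κ)) ^ 2 := pow_le_pow_left₀ (Nat.cast_nonneg _) hQle 2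
          _ = (N : ℝ) ^ (2 - 2 * κ) := by
            rw [← Real.rpow_natCast, ← Real.rpow_mul hN0.le]
            congr 1
            push_cast
            ring
      have h4 : (N : ℝ) ^ (2 - 2 * κ) = (N : ℝ) ^ (1 - 2 * κ) * N := by
        conv_rhs => rw [← Real.rpow_one (N : ℝ), ← Real.rpow_mul hN0.le, one_mul]
        rw [← Real.rpow_add hN0]
        congr 1
        ring
      have h5 : (N : ℝ) ≤ 2 * K * y := by
        rw [div_le_iff₀ (by linarith)] at g1
        linarith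
      calc (Q : ℝ) ^ 2 ≤ (N : ℝ) ^ (1 - 2 * κ) * N := by rw [← h4]; exact h3
        _ ≤ (N : ℝ) ^ (1 - 2 * κ) * (2 * K * y) := mul_le_mul_of_nonneg_left h5 (by positivity)
        _ = _ := by ring
    have h3 : Real.log y ^ B ≤ Real.log N ^ B := by
      apply pow_le_pow_left₀ (Real.log_nonneg (by linarith))
      exact Real.log_le_log hy0 hyN'
    calc (Q : ℝ) ^ 2 / y * Real.log y ^ B ≤ 2 * K * (N : ℝ) ^ (1 - 2 * κ) * Real.log N ^ B :=
          mul_le_mul h2 h3 (by apply pow_nonneg; exact Real.log_nonneg (by linarith)) (by positivity)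
      _ = _ := by ring
  refine ⟨(Icc 1 K).biUnion Ej, ?_, ?_⟩
  · have h1 : (((Icc 1 K).biUnion Ej).card : ℝ) ≤ ∑ j ∈ Icc 1 K, ((Ej j).card : ℝ) := by
      exact_mod_cast card_biUnion_le
    have h2 : ∑ j ∈ Icc 1 K, ((Ej j).card : ℝ) ≤ K * (2 * K * ((N : ℝ) ^ (1 - 2 * κ) * Real.log N ^ B)) := by
      refine (sum_le_sum hcard).trans (le_of_eq ?_)
      rw [sum_const, Nat.card_Icc, nsmul_eq_mul, Nat.add_sub_cancel]
    have h3 : (N : ℝ) ^ (1 - 3 / 2 * κ) = (N : ℝ) ^ (1 - 2 * κ) * (N : ℝ) ^ (κ / 2) := by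
      rw [← Real.rpow_add hN0]
      congr 1
      ring
    rw [h3]
    calc (((Icc 1 K).biUnion Ej).card : ℝ) ≤ K * (2 * K * ((N : ℝ) ^ (1 - 2 * κ) * Real.log N ^ B)) := h1.trans h2
      _ = (N : ℝ) ^ (1 - 2 * κ) * (2 * K ^ 2 * Real.log N ^ B) := by ring
      _ ≤ _ := mul_le_mul_of_nonneg_left f2 (by positivity)
  · intro b hb hbE h hh1 hhe hh2 v hv y hy
    have hb' : ∀ j : ℕ, 1 ≤ j → j ≤ K → S (j * N / K) Q (fun q => b * u q) ≤
        ((j * N / K : ℕ) : ℝ) / Real.log ((j * N / K : ℕ) : ℝ) ^ 12 := by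
      intro j hj1 hj2
      by_contra hcon
      apply hbE
      rw [mem_biUnion]
      refine ⟨j, mem_Icc.2 ⟨hj1, hj2⟩, ?_⟩
      rw [hEj]
      simp only
      rw [mem_filter]
      exact ⟨hb, not_le.1 hcon⟩
    obtain ⟨s, hs⟩ : ∃ s, s = sing h := ⟨_, rfl⟩
    have hs1 : 1 ≤ s := by rw [hs]; exact sing_ge h
    -- the grid points
    have hgrid : ∀ j : ℕ, j ≤ K → |∑ p ∈ PP (j * N / K), L2 (v p) - 2 * sing h * ((j * N / K : ℕ) : ℝ)| ≤
        C * (κ * Real.log (1 / κ) ^ 2) * sing h * N := by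
      intro j hj
      have hyN : j * N / K ≤ N := by
        apply Nat.div_le_of_le_mul
        exact Nat.mul_le_mul_right N hj
      rcases Nat.eq_zero_or_pos j with rfl | hj0
      · have e : PP (0 * N / K) = ∅ := by
          rw [zero_mul, Nat.zero_div]
          rfl
        rw [e, sum_empty, zero_mul, Nat.zero_div, Nat.cast_zero, mul_zero, sub_zero, abs_zero, ← hs]
        positivity
      · have g1 := hgr j hj0
        have g2 := hb' j hj0 hj
        obtain ⟨w, hwd⟩ : ∃ w : ℕ, w = j * N / K := ⟨_, rfl⟩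
        rw [← hwd] at g1 g2 hyN ⊢
        have hwN : (w : ℝ) ≤ N := by exact_mod_cast hyN
        apply HN N ((le_max_left _ _).trans hN) h hh1 hhe hh2 w v hyN
        · intro p hp
          rw [mem_PP] at hp
          exact hv.le p hp.1 (hp.2.trans hyN)
        · intro m hm
          exact (card_le_card (filter_subset_filter _ (PP_mono hyN))).trans (hv.two m hm)
        · rw [← hQ]
          refine (hv.sum_le w Q hyN).trans ?_
          have h1 : Real.log N / 2 ≤ Real.log w := by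
            have h2 : (N : ℝ) ≤ (w : ℝ) ^ 2 := by
              have h3 : (N : ℝ) = (N / (2 * K)) * (2 * K) := by
                field_simp
              have h4 : 2 * (K : ℝ) ≤ N / (2 * K) := by
                rw [le_div_iff₀ (by linarith)]
                nlinarith
              rw [pow_two]
              calc (N : ℝ) = (N / (2 * K)) * (2 * K) := h3
                _ ≤ w * w := mul_le_mul g1 (h4.trans g1) (by positivity) (by positivity)
            have h3 := Real.log_le_log hN0 h2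
            rw [Real.log_pow] at h3
            push_cast at h3
            linarith
          have hL1 : 1 ≤ Real.log N := le_trans (by norm_num) f3
          have h2 : (w : ℝ) / Real.log w ^ 12 ≤ N / (2 * Real.log N ^ 10) := by
            have h3 : (Real.log N / 2) ^ 12 ≤ Real.log w ^ 12 := pow_le_pow_left₀ (by linarith) h1 12
            have h4 : 2 * Real.log N ^ 10 ≤ (Real.log N / 2) ^ 12 := by
              have h5 : (Real.log N / 2) ^ 12 = Real.log N ^ 10 * (Real.log N ^ 2 / 2 ^ 12) := by ring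
              rw [h5]
              have h6 : 2 ≤ Real.log N ^ 2 / 2 ^ 12 := by
                rw [le_div_iff₀ (by norm_num)]
                nlinarith
              have h7 : 0 ≤ Real.log N ^ 10 := by positivity
              nlinarith
            exact div_le_div₀ hN0.le hwN (by positivity) (h4.trans h3)
          have h3 : (Q : ℝ) ≤ N / (2 * Real.log N ^ 10) := by
            rw [le_div_iff₀ (by positivity)]
            calc (Q : ℝ) * (2 * Real.log N ^ 10) ≤ (N : ℝ) ^ (1 - κ) * (N : ℝ) ^ κ :=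
                  mul_le_mul hQle f4 (by positivity) (by positivity)
              _ = N := by
                rw [← Real.rpow_add hN0]
                conv_rhs => rw [← Real.rpow_one (N : ℝ)]
                congr 1
                ring
          have h4 : (N : ℝ) / (2 * Real.log N ^ 10) + N / (2 * Real.log N ^ 10) = N / Real.log N ^ 10 := by
            have : Real.log N ≠ 0 := by linarith
            field_simp
            ring
          linarith
    have hNn : 0 < N := by exact_mod_cast hN0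
    exact grid_fin N K hKpos hNn κ (κ * Real.log (1 / κ) ^ 2) C (sing h) hκ hK1 hlk2 (by rw [← hs]; exact hs1) hC
      (fun y => ∑ p ∈ PP y, L2 (v p))
      (fun a b hab => sum_le_sum_of_subset_of_nonneg (PP_mono hab) (fun p _ _ => L2_nonneg _)) (by
        have : 1 / κ ≤ N := by nlinarith
        exact this) hgrid y hy

end Pool.Agent.Q148.BA
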