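import Pool.Agent.Q148.BA.Dn

/-! The comparison of the main terms. -/

set_option autoImplicit false

namespace Pool.Agent.Q148.BA

open Finset Filter
open Pool.Agent.H560R3.GB (C₂ sing)

theorem tele (z D : ℕ) (hz : 1 ≤ z) :
    ∑ n ∈ Icc (z + 1) D, (1 / ((n : ℝ) - 1) - 1 / (n : ℝ)) ≤ 1 / (z : ℝ) := by
  have hz0 : (1 : ℝ) ≤ z := by exact_mod_cast hz
  rcases le_total D z with h | h
  · rw [Icc_eq_empty (by omega), sum_empty]
    positivity
  · obtain ⟨k, rfl⟩ := Nat.exists_eq_add_of_le h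
    have h1 : ∀ k : ℕ, ∑ n ∈ Icc (z + 1) (z + k), (1 / ((n : ℝ) - 1) - 1 / (n : ℝ)) =
        1 / (z : ℝ) - 1 / ((z + k : ℕ) : ℝ) := by
      intro k
      induction k with
      | zero =>
        rw [Icc_eq_empty (by omega), sum_empty, Nat.add_zero, sub_self]
      | succ k ih =>
        rw [show z + (k + 1) = (z + k) + 1 by ring, sum_Icc_succ_top (by omega), ih]
        push_cast
        ring
    rw [h1]
    have : 0 ≤ 1 / ((z + k : ℕ) : ℝ) := by positivity
    linarith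

theorem dsum (h z D K : ℕ) (hh : 1 ≤ h) (hK : h < z ^ K) (hz : 2 ≤ z) :
    ∑ p ∈ PP D \ PP z, |gh h p - 1 / p| ≤ (1 + K) / (z : ℝ) := by
  have hz0 : (2 : ℝ) ≤ z := by exact_mod_cast hz
  have hmem : ∀ p ∈ PP D \ PP z, p.Prime ∧ p ≤ D ∧ z < p := by
    intro p hp
    rw [Finset.mem_sdiff, mem_PP, mem_PP] at hp
    exact ⟨hp.1.1, hp.1.2, by
      by_contra hcon
      exact hp.2 ⟨hp.1.1, by omega⟩⟩
  have h1 : ∀ p ∈ PP D \ PP z, |gh h p - 1 / p| ≤ (1 / ((p : ℝ) - 1) - 1 / (p : ℝ)) +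
      (if p ∣ h then 1 / (z : ℝ) else 0) := by
    intro p hp
    obtain ⟨h2, h3, h4⟩ := hmem p hp
    have h5 : (z : ℝ) ≤ p := by exact_mod_cast h4.le
    have h6 : 1 / (p : ℝ) ≤ 1 / ((p : ℝ) - 1) := one_div_le_one_div_of_le (by linarith) (by linarith)
    have h7 : 1 / (p : ℝ) ≤ 1 / z := one_div_le_one_div_of_le (by linarith) h5
    have h8 : 0 ≤ 1 / (p : ℝ) := by positivity
    rw [gh_prime h2]
    split_ifs
    · rw [zero_sub, abs_neg, abs_of_nonneg h8]
      linarith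
    · rw [abs_of_nonneg (by linarith)]
      linarith
  refine (sum_le_sum h1).trans ?_
  rw [sum_add_distrib, add_div]
  apply add_le_add
  · refine le_trans ?_ (tele z D (by omega))
    apply sum_le_sum_of_subset_of_nonneg
    · intro p hp
      obtain ⟨h2, h3, h4⟩ := hmem p hp
      rw [mem_Icc]
      omega
    · intro n hn _
      rw [mem_Icc] at hn
      have h5 : (z : ℝ) + 1 ≤ n := by exact_mod_cast hn.1
      have h6 : 1 / (n : ℝ) ≤ 1 / ((n : ℝ) - 1) := one_div_le_one_div_of_le (by linarith) (by linarith)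
      linarith
  · rw [← sum_filter, sum_const, nsmul_eq_mul]
    have h2 : ((PP D \ PP z).filter (fun p => p ∣ h)).card ≤ K := by
      refine (card_le_card ?_).trans (card_big h z K hh hK (by omega))
      intro p hp
      rw [mem_filter] at hp
      obtain ⟨h2, h3, h4⟩ := hmem p hp.1
      rw [mem_filter, Nat.mem_primeFactors]
      exact ⟨⟨h2, hp.2, by omega⟩, h4⟩
    have h3 : (((PP D \ PP z).filter (fun p => p ∣ h)).card : ℝ) ≤ K := by exact_mod_cast h2
    calc (((PP D \ PP z).filter (fun p => p ∣ h)).card : ℝ) * (1 / (z : ℝ)) ≤ K * (1 / z) :=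
          mul_le_mul_of_nonneg_right h3 (by positivity)
      _ = _ := by ring

variable {S : Finset ℕ} {v : ℕ → ℕ} {X : ℝ} {g r : ℕ → ℝ}

theorem g_diff (H : Dens S v X g r) (z D K d : ℕ) (hz : 1 ≤ z) (hD : D < z ^ K) (hd : d ∈ DD z D) :
    |g d - 1 / (d : ℝ)| ≤ 2 ^ K * ∑ p ∈ (PP D \ PP z).filter (· ∣ d), |g p - 1 / p| * (p / (d : ℝ)) := by
  rw [mem_DD] at hd
  obtain ⟨⟨hd1, hdD⟩, hsq, hr⟩ := hd
  have hd0 : (0 : ℝ) < d := by exact_mod_cast hd1
  have hcard := card_rough z d D K hz hd1 hdD hr hD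
  have h1 : (d : ℝ) = ∏ p ∈ d.primeFactors, (p : ℝ) := by
    have := Nat.prod_primeFactors_of_squarefree hsq
    rw [← Nat.cast_prod, this]
  have h2 : 1 / (d : ℝ) = ∏ p ∈ d.primeFactors, (1 / (p : ℝ)) := by
    rw [prod_div_distrib, ← h1, prod_const_one]
  have h3 : (PP D \ PP z).filter (· ∣ d) = d.primeFactors := by
    ext p
    rw [mem_filter, Finset.mem_sdiff, mem_PP, mem_PP, Nat.mem_primeFactors]
    constructor
    · rintro ⟨⟨⟨h4, h5⟩, h6⟩, h7⟩
      exact ⟨h4, h7, by omega⟩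
    · rintro ⟨h4, h5, h6⟩
      exact ⟨⟨⟨h4, (Nat.le_of_dvd hd1 h5).trans hdD⟩, fun h7 => hr p h4 h7.2 h5⟩, h5⟩
  rw [H.sqf d hsq, h2, h3]
  refine (prod_diff d.primeFactors (fun p hp => Nat.prime_of_mem_primeFactors hp) g (fun p hp => ?_)).trans ?_
  · have hp' := Nat.prime_of_mem_primeFactors hp
    have := H.pow p 1 hp' le_rfl
    rw [pow_one, pow_one] at this
    exact ⟨H.nn1 hp', this⟩
  · rw [mul_sum]
    apply sum_le_sum
    intro p hp
    have hp' := Nat.prime_of_mem_primeFactors hp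
    have hp0 : (0 : ℝ) < p := by exact_mod_cast hp'.pos
    have h4 : ∏ q ∈ d.primeFactors.erase p, (2 / (q : ℝ)) ≤ 2 ^ K * (p / (d : ℝ)) := by
      rw [prod_div_distrib, prod_const]
      have h5 : (d : ℝ) = p * ∏ q ∈ d.primeFactors.erase p, (q : ℝ) := by
        rw [h1, mul_prod_erase _ (fun q : ℕ => (q : ℝ)) hp]
      have h6 : (0 : ℝ) < ∏ q ∈ d.primeFactors.erase p, (q : ℝ) := by
        apply prod_pos
        intro q hq
        exact_mod_cast (Nat.prime_of_mem_primeFactors (mem_of_mem_erase hq)).pos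
      have h7 : (p : ℝ) / d = 1 / ∏ q ∈ d.primeFactors.erase p, (q : ℝ) := by
        rw [h5]
        field_simp
      rw [h7, mul_one_div]
      apply div_le_div_of_nonneg_right _ h6.le
      apply pow_le_pow_right₀ (by norm_num)
      exact (card_le_card (erase_subset _ _)).trans hcard
    calc |g p - 1 / p| * ∏ q ∈ d.primeFactors.erase p, (2 / (q : ℝ)) ≤ |g p - 1 / p| * (2 ^ K * (p / (d : ℝ))) :=
          mul_le_mul_of_nonneg_left h4 (abs_nonneg _)
      _ = 2 ^ K * (|g p - 1 / p| * (p / ∏ p ∈ d.primeFactors, (p : ℝ))) := by rw [← h1]; ring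
      _ = _ := by rw [← h1]

theorem harm (D : ℕ) : ∑ e ∈ Icc 1 D, 1 / (e : ℝ) ≤ 1 + Real.log D := by
  have h := harmonic_le_one_add_log D
  have e : ((harmonic D : ℚ) : ℝ) = ∑ e ∈ Icc 1 D, 1 / (e : ℝ) := by
    rw [harmonic_eq_sum_Icc]
    push_cast
    simp
  rw [e] at h
  exact h

theorem GG_cmp (H : Dens S v X g r) (z D N K : ℕ) (hz : 1 ≤ z) (hD : D < z ^ K) (hDN : D ≤ N) :
    |GG z D N g - GG z D N (fun q => 1 / (q : ℝ))| ≤
      Real.log N ^ 2 * (2 ^ K * ((∑ p ∈ PP D \ PP z, |g p - 1 / p|) * (1 + Real.log D))) := by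
  unfold GG
  rw [← sum_sub_distrib]
  refine (abs_sum_le_sum_abs _ _).trans ?_
  have h1 : ∀ d ∈ DD z D, |(ArithmeticFunction.moebius d : ℝ) * Real.log (N / d) ^ 2 * g d -
      (ArithmeticFunction.moebius d : ℝ) * Real.log (N / d) ^ 2 * (1 / (d : ℝ))| ≤
      Real.log N ^ 2 * (2 ^ K * ∑ p ∈ (PP D \ PP z).filter (· ∣ d), |g p - 1 / p| * (p / (d : ℝ))) := by
    intro d hd
    have hd' := hd
    rw [mem_DD] at hd'
    have hd0 : (1 : ℝ) ≤ d := by exact_mod_cast hd'.1.1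
    have hdN : (d : ℝ) ≤ N := by exact_mod_cast hd'.1.2.trans hDN
    rw [← mul_sub, abs_mul, abs_mul]
    have h2 : |(ArithmeticFunction.moebius d : ℝ)| ≤ 1 := by
      exact_mod_cast ArithmeticFunction.abs_moebius_le_one
    have h3 : |Real.log (N / d) ^ 2| ≤ Real.log N ^ 2 := by
      rw [abs_of_nonneg (by positivity)]
      apply pow_le_pow_left₀
      · apply Real.log_nonneg
        rw [le_div_iff₀ (by linarith), one_mul]
        exact hdN
      · apply Real.log_le_log (div_pos (by linarith) (by linarith))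
        exact div_le_self (by linarith) hd0
    have h4 : |(ArithmeticFunction.moebius d : ℝ)| * |Real.log (N / d) ^ 2| ≤ 1 * Real.log N ^ 2 :=
      mul_le_mul h2 h3 (abs_nonneg _) zero_le_one
    rw [one_mul] at h4
    exact mul_le_mul h4 (g_diff H z D K d hz hD hd) (abs_nonneg _) (by positivity)
  refine (sum_le_sum h1).trans ?_
  rw [← mul_sum, ← mul_sum]
  apply mul_le_mul_of_nonneg_left _ (by positivity)
  apply mul_le_mul_of_nonneg_left _ (by positivity)
  have h2 : ∑ d ∈ DD z D, ∑ p ∈ (PP D \ PP z).filter (· ∣ d), |g p - 1 / p| * (p / (d : ℝ)) =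
      ∑ p ∈ PP D \ PP z, ∑ d ∈ (DD z D).filter (p ∣ ·), |g p - 1 / p| * (p / (d : ℝ)) := by
    simp_rw [sum_filter]
    rw [sum_comm]
  rw [h2, sum_mul]
  apply sum_le_sum
  intro p hp
  rw [Finset.mem_sdiff, mem_PP] at hp
  have hp1 : 1 ≤ p := hp.1.1.one_le
  rw [← mul_sum]
  apply mul_le_mul_of_nonneg_left _ (abs_nonneg _)
  refine le_trans ?_ (harm D)
  have h3 : ∑ d ∈ (DD z D).filter (p ∣ ·), (p / (d : ℝ)) = ∑ d ∈ (DD z D).filter (p ∣ ·), 1 / ((d / p : ℕ) : ℝ) := by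
    apply sum_congr rfl
    intro d hd
    rw [mem_filter] at hd
    obtain ⟨e, rfl⟩ := hd.2
    have hp0 : (p : ℝ) ≠ 0 := by positivity
    rw [Nat.mul_div_cancel_left e hp1, Nat.cast_mul]
    field_simp
  rw [h3]
  apply sum_inj _ (fun d => d / p) _ (fun m => 1 / (m : ℝ)) (fun m _ => by positivity)
  · intro x hx y hy hxy
    rw [mem_filter] at hx hy
    rw [← Nat.div_mul_cancel hx.2, ← Nat.div_mul_cancel hy.2, hxy]
  · intro x hx
    rw [mem_filter, mem_DD] at hx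
    rw [mem_Icc]
    exact ⟨Nat.div_pos (Nat.le_of_dvd hx.1.1.1 hx.2) hp1, (Nat.div_le_self _ _).trans hx.1.1.2⟩

end Pool.Agent.Q148.BA
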