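import Mathlib

/-! The function `Λ₂ = μ * log²`. -/

set_option autoImplicit false

namespace Pool.Agent.Q148.BA

open Finset ArithmeticFunction

/-- `Λ₂(m) = ∑_{d ∣ m} μ(d) log²(m/d)` -/
noncomputable def L2 (m : ℕ) : ℝ :=
  ∑ d ∈ m.divisors, (ArithmeticFunction.moebius d : ℝ) * Real.log ((m / d : ℕ) : ℝ) ^ 2

/-- the other form of `Λ₂` -/
noncomputable def ff : ArithmeticFunction ℝ :=
  ArithmeticFunction.pmul ArithmeticFunction.vonMangoldt ArithmeticFunction.log +
    ArithmeticFunction.vonMangoldt * ArithmeticFunction.vonMangoldt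

theorem ff_zeta : ff * (ArithmeticFunction.zeta : ArithmeticFunction ℝ) =
    ArithmeticFunction.pmul ArithmeticFunction.log ArithmeticFunction.log := by
  unfold ff
  rw [add_mul, mul_assoc, ArithmeticFunction.vonMangoldt_mul_zeta]
  ext m
  rw [ArithmeticFunction.add_apply, ArithmeticFunction.coe_mul_zeta_apply, ArithmeticFunction.mul_apply,
    ArithmeticFunction.pmul_apply]
  rw [Nat.sum_divisorsAntidiagonal (f := fun i j => ArithmeticFunction.vonMangoldt i * ArithmeticFunction.log j),
    ← sum_add_distrib]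
  have h : ∀ d ∈ m.divisors, (ArithmeticFunction.pmul ArithmeticFunction.vonMangoldt ArithmeticFunction.log) d +
      ArithmeticFunction.vonMangoldt d * ArithmeticFunction.log (m / d) =
      ArithmeticFunction.vonMangoldt d * Real.log m := by
    intro d hd
    rw [Nat.mem_divisors] at hd
    obtain ⟨⟨e, rfl⟩, hm⟩ := hd
    have hd0 : 0 < d := Nat.pos_of_ne_zero (by rintro rfl; simp at hm)
    have he0 : 0 < e := Nat.pos_of_ne_zero (by rintro rfl; simp at hm)
    rw [Nat.mul_div_cancel_left e hd0, ArithmeticFunction.pmul_apply, ArithmeticFunction.log_apply,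
      ArithmeticFunction.log_apply, Nat.cast_mul, Real.log_mul (by positivity) (by positivity)]
    ring
  rw [sum_congr rfl h, ← sum_mul, ArithmeticFunction.vonMangoldt_sum, ArithmeticFunction.log_apply]

theorem L2_eq (m : ℕ) : L2 m = ff m := by
  have h : ff = (ArithmeticFunction.pmul ArithmeticFunction.log ArithmeticFunction.log) *
      (ArithmeticFunction.moebius : ArithmeticFunction ℝ) := by
    rw [← ff_zeta, mul_assoc, ArithmeticFunction.coe_zeta_mul_coe_moebius, mul_one]
  rw [h, mul_comm, ArithmeticFunction.mul_apply,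
    Nat.sum_divisorsAntidiagonal (f := fun i j => ((ArithmeticFunction.moebius : ArithmeticFunction ℝ) i) *
      (ArithmeticFunction.pmul ArithmeticFunction.log ArithmeticFunction.log) j)]
  unfold L2
  apply sum_congr rfl
  intro d _
  rw [ArithmeticFunction.pmul_apply, ArithmeticFunction.log_apply, ArithmeticFunction.intCoe_apply, sq]

theorem ff_nonneg (m : ℕ) : 0 ≤ ff m := by
  unfold ff
  rw [ArithmeticFunction.add_apply, ArithmeticFunction.pmul_apply, ArithmeticFunction.mul_apply]
  apply add_nonneg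
  · rw [ArithmeticFunction.log_apply]
    exact mul_nonneg ArithmeticFunction.vonMangoldt_nonneg (Real.log_natCast_nonneg _)
  · exact sum_nonneg fun x _ => mul_nonneg ArithmeticFunction.vonMangoldt_nonneg
      ArithmeticFunction.vonMangoldt_nonneg

theorem L2_nonneg (m : ℕ) : 0 ≤ L2 m := by
  rw [L2_eq]
  exact ff_nonneg m

theorem L2_zero : L2 0 = 0 := by
  unfold L2
  simp

theorem L2_le (m : ℕ) : L2 m ≤ Real.log m ^ 2 := by
  rcases Nat.eq_zero_or_pos m with h | h
  · subst h
    rw [L2_zero]
    positivity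
  · have h1 := congrArg (fun f : ArithmeticFunction ℝ => f m) ff_zeta
    simp only [ArithmeticFunction.coe_mul_zeta_apply, ArithmeticFunction.pmul_apply,
      ArithmeticFunction.log_apply] at h1
    rw [L2_eq, sq, ← h1]
    exact single_le_sum (f := fun i => ff i) (fun i _ => ff_nonneg i) (Nat.mem_divisors_self m (by omega))

/-- the values at products of a prime power and a larger prime -/
theorem L2_val (m : ℕ) : L2 m = ArithmeticFunction.vonMangoldt m * Real.log m +
    ∑ d ∈ m.divisors, ArithmeticFunction.vonMangoldt d * ArithmeticFunction.vonMangoldt (m / d) := by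
  rw [L2_eq]
  unfold ff
  rw [ArithmeticFunction.add_apply, ArithmeticFunction.pmul_apply, ArithmeticFunction.mul_apply,
    Nat.sum_divisorsAntidiagonal (f := fun i j => ArithmeticFunction.vonMangoldt i *
      ArithmeticFunction.vonMangoldt j), ArithmeticFunction.log_apply]

/-- the value at `p ^ a * q` -/
theorem L2_pq (p a q : ℕ) (hp : p.Prime) (hq : q.Prime) (hpq : p ≠ q) (ha : 1 ≤ a) :
    L2 (p ^ a * q) ≤ 2 * (Real.log p * Real.log q) := by
  have hp1 := hp.one_lt
  have hq1 := hq.one_lt
  have hpa : 0 < p ^ a := Nat.pow_pos hp.pos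
  have hm : p ^ a * q ≠ 0 := Nat.mul_ne_zero hpa.ne' hq.ne_zero
  have hcop : (p ^ a).Coprime q := Nat.Coprime.pow_left a ((Nat.coprime_primes hp hq).2 hpq)
  have hnp : ¬ IsPrimePow (p ^ a * q) := by
    intro h
    have h1 := Nat.Coprime.isPrimePow_dvd_mul hcop h
    have h2 := h1.1 (dvd_refl _)
    rcases h2 with h3 | h3
    · have h4 := Nat.le_of_dvd hpa h3
      nlinarith
    · have h4 := Nat.le_of_dvd hq.pos h3
      have h5 : 2 ≤ p ^ a := by
        calc 2 ≤ p ^ 1 := by rw [pow_one]; omega
          _ ≤ p ^ a := Nat.pow_le_pow_right hp.pos ha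
      nlinarith
  rw [L2_val, ArithmeticFunction.vonMangoldt_eq_zero_iff.2 hnp, zero_mul, zero_add]
  have hsub : ∀ d ∈ (p ^ a * q).divisors, d ∉ ({p ^ a, q} : Finset ℕ) →
      ArithmeticFunction.vonMangoldt d * ArithmeticFunction.vonMangoldt (p ^ a * q / d) = 0 := by
    intro d hd hd2
    rw [mem_insert, mem_singleton, not_or] at hd2
    by_contra hne
    have h1 : ArithmeticFunction.vonMangoldt d ≠ 0 := left_ne_zero_of_mul hne
    have h2 : ArithmeticFunction.vonMangoldt (p ^ a * q / d) ≠ 0 := right_ne_zero_of_mul hne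
    rw [ArithmeticFunction.vonMangoldt_ne_zero_iff] at h1 h2
    rw [Nat.mem_divisors] at hd
    obtain ⟨e, he⟩ := hd.1
    have hd0 : 0 < d := h1.pos
    rw [he, Nat.mul_div_cancel_left e hd0] at h2
    have h3 := (Nat.Coprime.isPrimePow_dvd_mul hcop h1).1 (Dvd.intro e he.symm)
    have h4 := (Nat.Coprime.isPrimePow_dvd_mul hcop h2).1 (Dvd.intro_left d he.symm)
    have hd1 := h1.one_lt
    have he1 := h2.one_lt
    rcases h3 with h3 | h3 <;> rcases h4 with h4 | h4
    · -- both divide p^a
      have h5 : q ∣ d * e := he ▸ dvd_mul_left q (p ^ a)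
      rcases (Nat.Prime.dvd_mul hq).1 h5 with h6 | h6
      · exact hpq ((Nat.prime_dvd_prime_iff_eq hq hp).1 (hq.dvd_of_dvd_pow (h6.trans h3))).symm
      · exact hpq ((Nat.prime_dvd_prime_iff_eq hq hp).1 (hq.dvd_of_dvd_pow (h6.trans h4))).symm
    · have h5 : e = q := by
        rcases (Nat.dvd_prime hq).1 h4 with h6 | h6
        · omega
        · exact h6
      subst h5
      exact hd2.1 (Nat.eq_of_mul_eq_mul_right hq.pos he.symm)
    · have h5 : d = q := by
        rcases (Nat.dvd_prime hq).1 h3 with h6 | h6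
        · omega
        · exact h6
      exact hd2.2 h5
    · have h5 : d = q := by
        rcases (Nat.dvd_prime hq).1 h3 with h6 | h6
        · omega
        · exact h6
      exact hd2.2 h5
  have hmem : ({p ^ a, q} : Finset ℕ) ⊆ (p ^ a * q).divisors := by
    intro x hx
    rw [mem_insert, mem_singleton] at hx
    rw [Nat.mem_divisors]
    rcases hx with rfl | rfl
    · exact ⟨dvd_mul_right _ _, hm⟩
    · exact ⟨dvd_mul_left _ _, hm⟩
  rw [← sum_subset hmem hsub]
  have hne : p ^ a ≠ q := by
    intro h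
    rw [h] at hcop
    have := (Nat.coprime_self q).1 hcop
    omega
  rw [sum_pair hne, Nat.mul_div_cancel_left q hpa, Nat.mul_div_cancel _ hq.pos,
    ArithmeticFunction.vonMangoldt_apply_pow (by omega), ArithmeticFunction.vonMangoldt_apply_prime hp,
    ArithmeticFunction.vonMangoldt_apply_prime hq]
  apply le_of_eq
  ring

end Pool.Agent.Q148.BA
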