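import Pool.Agent.Q148.BA.Sums
import Pool.Agent.Q148.BA.L2

/-! The asymptotic sieve for `Λ₂`: decomposition. -/

set_option autoImplicit false

namespace Pool.Agent.Q148.BA

open Finset

variable {S : Finset ℕ} {v : ℕ → ℕ} {X : ℝ} {g r : ℕ → ℝ}

open Classical in
theorem cnt_bad (S : Finset ℕ) (v : ℕ → ℕ) (M z T : ℕ) (hz : 1 ≤ z) (hv : ∀ n ∈ S, v n ≤ M)
    (hm : ∀ m, 1 ≤ m → (S.filter (fun n => v n = m)).card ≤ 2) :
    ((((S.filter (fun n => 1 ≤ v n ∧ Bad z T (v n))).card : ℕ)) : ℝ) ≤ 2 * (T + 2 * (M / (z : ℝ))) := by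
  have h1 : (S.filter (fun n => 1 ≤ v n ∧ Bad z T (v n))).card ≤
      2 * ((S.filter (fun n => 1 ≤ v n ∧ Bad z T (v n))).image v).card := by
    apply card_le_mul_card_image
    intro m hm'
    rw [mem_image] at hm'
    obtain ⟨n, hn, rfl⟩ := hm'
    rw [mem_filter] at hn
    refine le_trans (card_le_card ?_) (hm (v n) hn.2.1)
    intro x hx
    rw [mem_filter, mem_filter] at hx
    rw [mem_filter]
    exact ⟨hx.1.1, hx.2⟩
  have h2 : ((S.filter (fun n => 1 ≤ v n ∧ Bad z T (v n))).image v).card ≤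
      ((Icc 1 M).filter (fun m => Bad z T m)).card := by
    apply card_le_card
    intro m hm'
    rw [mem_image] at hm'
    obtain ⟨n, hn, rfl⟩ := hm'
    rw [mem_filter] at hn
    rw [mem_filter, mem_Icc]
    exact ⟨⟨hn.2.1, hv n hn.1⟩, hn.2.2⟩
  have h3 := card_bad z T M hz
  have h4 : ((((S.filter (fun n => 1 ≤ v n ∧ Bad z T (v n))).card : ℕ)) : ℝ) ≤
      2 * ((((Icc 1 M).filter (fun m => Bad z T m)).card : ℕ) : ℝ) := by
    exact_mod_cast h1.trans (Nat.mul_le_mul_left 2 h2)
  linarith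

/-- the structure of the integers with a small prime factor -/
theorem small_str (m M z w T : ℕ) (hz : 2 ≤ z) (hzw : z ≤ w) (hT : z ^ 2 * w ^ 2 ≤ T) (hmM : m ≤ M)
    (h0 : L2 m ≠ 0) (hB : ¬ Bad z T m) (hR : ¬ Rough z m) :
    ∃ x ∈ KK z (z ^ 2), (x.1 ^ x.2 ∣ m ∧ ∀ p ∈ (PP w).erase x.1, ¬ p ∣ m) ∧
      L2 m ≤ 2 * (Real.log x.1 * Real.log M) := by
  classical
  have hw2 : 4 ≤ w ^ 2 := by nlinarith
  have hz2 : 4 ≤ z ^ 2 := by nlinarith
  have hzT : z ^ 2 < T := by nlinarith
  unfold Bad at hB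
  rw [not_or, not_or] at hB
  obtain ⟨hB1, hB2, hB3⟩ := hB
  push Not at hB1 hB2 hB3
  have hm1 : 1 ≤ m := by omega
  -- prime powers of small primes are bad
  have hpp : ∀ p k : ℕ, p.Prime → p ≤ z → m = p ^ k → False := by
    intro p k hp hpz hmk
    have := hB2 p k hp hpz (by rw [← hmk])
    omega
  unfold Rough at hR
  push Not at hR
  obtain ⟨q, hq, hqz, hqm⟩ := hR
  have hL : ArithmeticFunction.vonMangoldt m = 0 := by
    by_contra h
    rw [← ne_eq, ArithmeticFunction.vonMangoldt_ne_zero_iff] at h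
    obtain ⟨p, k, hp, hk, hpk⟩ := (isPrimePow_nat_iff m).1 h
    have h1 : q = p := by
      rw [← hpk] at hqm
      exact (Nat.prime_dvd_prime_iff_eq hq hp).1 (hq.dvd_of_dvd_pow hqm)
    exact hpp q k hq hqz (by rw [← hpk, h1])
  rw [L2_val, hL, zero_mul, zero_add] at h0
  obtain ⟨d, hd, hne⟩ := exists_ne_zero_of_sum_ne_zero h0
  have h1 : ArithmeticFunction.vonMangoldt d ≠ 0 := left_ne_zero_of_mul hne
  have h2 : ArithmeticFunction.vonMangoldt (m / d) ≠ 0 := right_ne_zero_of_mul hne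
  rw [ArithmeticFunction.vonMangoldt_ne_zero_iff] at h1 h2
  obtain ⟨p1, a1, hp1, ha1, e1⟩ := (isPrimePow_nat_iff _).1 h1
  obtain ⟨p2, a2, hp2, ha2, e2⟩ := (isPrimePow_nat_iff _).1 h2
  rw [Nat.mem_divisors] at hd
  have hmd : m = p1 ^ a1 * p2 ^ a2 := by
    rw [e1, e2, Nat.mul_div_cancel' hd.1]
  -- a general claim
  have key : ∀ p a p' b : ℕ, p.Prime → p'.Prime → 1 ≤ a → 1 ≤ b → p ≤ z → m = p ^ a * p' ^ b →
      ∃ x ∈ KK z (z ^ 2), (x.1 ^ x.2 ∣ m ∧ ∀ p ∈ (PP w).erase x.1, ¬ p ∣ m) ∧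
      L2 m ≤ 2 * (Real.log x.1 * Real.log M) := by
    intro p a p' b hp hp' ha hb hpz hm
    have hne : p ≠ p' := by
      rintro rfl
      exact hpp p (a + b) hp hpz (by rw [hm, pow_add])
    have hpa : p ^ a ≤ z ^ 2 := hB2 p a hp hpz (by rw [hm]; exact dvd_mul_right _ _)
    have hp'z : z < p' := by
      by_contra hcon
      have h3 : p' ^ b ≤ z ^ 2 := hB2 p' b hp' (by omega) (by rw [hm]; exact dvd_mul_left _ _)
      have h4 : m ≤ z ^ 2 * z ^ 2 := by rw [hm]; exact Nat.mul_le_mul hpa h3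
      have h5 : z ^ 2 * z ^ 2 ≤ z ^ 2 * w ^ 2 := Nat.mul_le_mul_left _ (Nat.pow_le_pow_left hzw 2)
      omega
    have hb1 : b = 1 := by
      by_contra hcon
      have h3 : p' ^ 2 ∣ m := by
        rw [hm]
        exact (pow_dvd_pow p' (by omega)).mul_left _
      exact hB3 p' hp' hp'z h3
    rw [hb1, pow_one] at hm
    have hp'w : w < p' := by
      by_contra hcon
      have h3 : m ≤ z ^ 2 * w := by rw [hm]; exact Nat.mul_le_mul hpa (by omega)
      have h4 : z ^ 2 * w ≤ z ^ 2 * w ^ 2 := Nat.mul_le_mul_left _ (by nlinarith)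
      omega
    refine ⟨(p, a), ?_, ⟨?_, ?_⟩, ?_⟩
    · unfold KK
      rw [mem_filter, mem_product, mem_PP, mem_Icc]
      refine ⟨⟨⟨hp, hpz⟩, ha, ?_⟩, hpa⟩
      exact (Nat.lt_pow_self hp.one_lt).le.trans hpa
    · show p ^ a ∣ m
      rw [hm]
      exact dvd_mul_right _ _
    · intro p'' hp'' hdvd
      simp only at hp''
      rw [mem_erase, mem_PP] at hp''
      obtain ⟨h3, h4, h5⟩ := hp''
      rw [hm] at hdvd
      rcases (Nat.Prime.dvd_mul h4).1 hdvd with h6 | h6
      · exact h3 ((Nat.prime_dvd_prime_iff_eq h4 hp).1 (h4.dvd_of_dvd_pow h6))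
      · have := (Nat.prime_dvd_prime_iff_eq h4 hp').1 h6
        omega
    · have h3 := L2_pq p a p' hp hp' hne ha
      rw [← hm] at h3
      refine h3.trans ?_
      have h4 : Real.log p' ≤ Real.log M := by
        apply Real.log_le_log (by exact_mod_cast hp'.pos)
        have : p' ≤ m := Nat.le_of_dvd hm1 (by rw [hm]; exact dvd_mul_left _ _)
        exact_mod_cast this.trans hmM
      have h5 : 0 ≤ Real.log p := Real.log_natCast_nonneg p
      have h6 := mul_le_mul_of_nonneg_left h4 h5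
      show 2 * (Real.log p * Real.log p') ≤ 2 * (Real.log p * Real.log M)
      linarith
  rw [hmd] at hqm
  rcases (Nat.Prime.dvd_mul hq).1 hqm with h6 | h6
  · have h7 := (Nat.prime_dvd_prime_iff_eq hq hp1).1 (hq.dvd_of_dvd_pow h6)
    exact key p1 a1 p2 a2 hp1 hp2 ha1 ha2 (by omega) hmd
  · have h7 := (Nat.prime_dvd_prime_iff_eq hq hp2).1 (hq.dvd_of_dvd_pow h6)
    exact key p2 a2 p1 a1 hp2 hp1 ha2 ha1 (by omega) (by rw [hmd, mul_comm])

theorem log_le' {m M : ℕ} (h1 : 1 ≤ m) (h : m ≤ M) : Real.log m ≤ Real.log M :=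
  Real.log_le_log (by exact_mod_cast h1) (by exact_mod_cast h)

open Classical in
/-- the integers with a small prime factor -/
theorem stepA (S : Finset ℕ) (v : ℕ → ℕ) (M z w T : ℕ) (hz : 2 ≤ z) (hzw : z ≤ w)
    (hT : z ^ 2 * w ^ 2 ≤ T) (hv : ∀ n ∈ S, v n ≤ M)
    (hm : ∀ m, 1 ≤ m → (S.filter (fun n => v n = m)).card ≤ 2) :
    ∑ n ∈ S.filter (fun n => ¬ Rough z (v n)), L2 (v n) ≤
      2 * (T + 2 * (M / (z : ℝ))) * Real.log M ^ 2 +
      ∑ x ∈ KK z (z ^ 2), 2 * (Real.log x.1 * Real.log M) * B S v (x.1 ^ x.2) ((PP w).erase x.1) := by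
  have hpt : ∀ n ∈ S, ¬ Rough z (v n) → L2 (v n) ≤
      (if 1 ≤ v n ∧ Bad z T (v n) then Real.log M ^ 2 else 0) +
      ∑ x ∈ KK z (z ^ 2), 2 * (Real.log x.1 * Real.log M) *
        (if (x.1 ^ x.2 ∣ v n ∧ ∀ p ∈ (PP w).erase x.1, ¬ p ∣ v n) then 1 else 0) := by
    intro n hn hR
    have hnn : ∀ x ∈ KK z (z ^ 2), 0 ≤ 2 * (Real.log x.1 * Real.log M) *
        (if (x.1 ^ x.2 ∣ v n ∧ ∀ p ∈ (PP w).erase x.1, ¬ p ∣ v n) then (1 : ℝ) else 0) := by
      intro x _
      have := Real.log_natCast_nonneg x.1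
      have := Real.log_natCast_nonneg M
      split_ifs <;> positivity
    have hnn2 : (0 : ℝ) ≤ if 1 ≤ v n ∧ Bad z T (v n) then Real.log M ^ 2 else 0 := by
      split_ifs <;> positivity
    by_cases h0 : L2 (v n) = 0
    · rw [h0]
      exact add_nonneg hnn2 (sum_nonneg hnn)
    · have hv1 : 1 ≤ v n := by
        by_contra hcon
        have : v n = 0 := by omega
        rw [this, L2_zero] at h0
        exact h0 rfl
      by_cases hB : Bad z T (v n)
      · rw [if_pos ⟨hv1, hB⟩]
        have h1 := L2_le (v n)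
        have h2 := log_le' hv1 (hv n hn)
        have h3 : Real.log (v n) ^ 2 ≤ Real.log M ^ 2 :=
          pow_le_pow_left₀ (Real.log_natCast_nonneg _) h2 2
        have := sum_nonneg hnn
        linarith
      · obtain ⟨x, hx, hx1, hx2⟩ := small_str (v n) M z w T hz hzw hT (hv n hn) h0 hB hR
        have h1 := single_le_sum hnn hx
        rw [if_pos hx1, mul_one] at h1
        linarith
  refine (sum_le_sum fun n hn => hpt n (mem_filter.1 hn).1 (mem_filter.1 hn).2).trans ?_
  rw [sum_add_distrib]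
  apply add_le_add
  · have h1 : ∑ n ∈ S.filter (fun n => ¬ Rough z (v n)),
        (if 1 ≤ v n ∧ Bad z T (v n) then Real.log M ^ 2 else 0) ≤
        ∑ n ∈ S, (if 1 ≤ v n ∧ Bad z T (v n) then Real.log M ^ 2 else 0) := by
      apply sum_le_sum_of_subset_of_nonneg (filter_subset _ _)
      intro n _ _
      split_ifs <;> positivity
    refine h1.trans ?_
    rw [← sum_filter, sum_const, nsmul_eq_mul]
    exact mul_le_mul_of_nonneg_right (cnt_bad S v M z T (by omega) hv hm) (by positivity)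
  · rw [sum_comm]
    apply sum_le_sum
    intro x _
    rw [← mul_sum]
    have h0 : 0 ≤ 2 * (Real.log x.1 * Real.log M) := by
      have := Real.log_natCast_nonneg x.1
      have := Real.log_natCast_nonneg M
      positivity
    apply mul_le_mul_of_nonneg_left _ h0
    unfold B
    rw [card_filter, Nat.cast_sum]
    push_cast
    apply sum_le_sum_of_subset_of_nonneg (filter_subset _ _)
    intro n _ _
    split_ifs <;> norm_num

open Classical in
/-- the truncated sum -/
noncomputable def FF (z D : ℕ) (N : ℝ) (m : ℕ) : ℝ :=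
  ∑ d ∈ (DD z D).filter (fun d => d ∣ m), (ArithmeticFunction.moebius d : ℝ) * Real.log (N / d) ^ 2

theorem abs_mu (d : ℕ) : |(ArithmeticFunction.moebius d : ℝ)| ≤ 1 := by
  have := ArithmeticFunction.abs_moebius_le_one (n := d)
  exact_mod_cast this

open Classical in
/-- the integers without small prime factors, pointwise -/
theorem rough_pt (m N M z T D E K : ℕ) (ℓ lam : ℝ) (hz : 1 ≤ z) (hm1 : 1 ≤ m) (hmM : m ≤ M)
    (hR : Rough z m) (hK : M < z ^ K) (hD : D ≤ N) (hD1 : 1 ≤ D) (hNM : N ≤ M) (hE : M ≤ D * E)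
    (hℓ : ∀ m : ℕ, T < m → m ≤ M → |Real.log m - Real.log N| ≤ ℓ)
    (hlam : ∀ d : ℕ, D < d → d ≤ M → |Real.log (N / (d : ℝ))| ≤ lam) (hℓ0 : 0 ≤ ℓ) :
    |L2 m - FF z D N m| ≤ (if Bad z T m then Real.log M ^ 2 + 2 ^ K * Real.log N ^ 2 else 0) +
      2 ^ K * (ℓ * (2 * Real.log M)) +
      lam ^ 2 * ((((DD z E).filter (fun e => e ∣ m)).card : ℕ) : ℝ) := by
  have hN1 : 1 ≤ N := hD1.trans hD
  have hN0 : (0 : ℝ) < N := by exact_mod_cast hN1
  have hM0 : (0 : ℝ) < M := by exact_mod_cast (hm1.trans hmM)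
  have hlN : 0 ≤ Real.log N := Real.log_natCast_nonneg N
  have hlM : 0 ≤ Real.log M := Real.log_natCast_nonneg M
  have hlNM : Real.log N ≤ Real.log M := log_le' hN1 hNM
  have hpf : (2 : ℝ) ^ m.primeFactors.card ≤ 2 ^ K :=
    pow_le_pow_right₀ (by norm_num) (card_rough z m M K hz hm1 hmM hR hK)
  have hcard : ∀ s : Finset ℕ, (∀ d ∈ s, Squarefree d ∧ d ∣ m) → (s.card : ℝ) ≤ 2 ^ K := by
    intro s hs
    have h1 := card_sqf_div m (by omega) s hs
    have h2 : (s.card : ℝ) ≤ 2 ^ m.primeFactors.card := by exact_mod_cast h1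
    exact h2.trans hpf
  have p2 : 0 ≤ (2 : ℝ) ^ K * (ℓ * (2 * Real.log M)) := by positivity
  have p3 : 0 ≤ lam ^ 2 * ((((DD z E).filter (fun e => e ∣ m)).card : ℕ) : ℝ) := by positivity
  by_cases hB : Bad z T m
  · rw [if_pos hB]
    have h1 : |L2 m| ≤ Real.log M ^ 2 := by
      rw [abs_of_nonneg (L2_nonneg m)]
      exact (L2_le m).trans (pow_le_pow_left₀ (Real.log_natCast_nonneg _) (log_le' hm1 hmM) 2)
    have h2 : |FF z D N m| ≤ 2 ^ K * Real.log N ^ 2 := by
      unfold FF
      refine (abs_sum_le_sum_abs _ _).trans ?_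
      have h3 : ∀ d ∈ (DD z D).filter (fun d => d ∣ m),
          |(ArithmeticFunction.moebius d : ℝ) * Real.log (N / (d : ℝ)) ^ 2| ≤ Real.log N ^ 2 := by
        intro d hd
        rw [mem_filter, mem_DD] at hd
        have hd0 : (0 : ℝ) < d := by exact_mod_cast hd.1.1.1
        rw [abs_mul, abs_of_nonneg (sq_nonneg (Real.log (N / (d : ℝ))))]
        have h4 : 0 ≤ Real.log (N / (d : ℝ)) := by
          apply Real.log_nonneg
          rw [le_div_iff₀ hd0, one_mul]
          exact_mod_cast hd.1.1.2.trans hD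
        have h5 : Real.log (N / (d : ℝ)) ≤ Real.log N := by
          rw [Real.log_div hN0.ne' hd0.ne']
          have := Real.log_natCast_nonneg d
          linarith
        calc |(ArithmeticFunction.moebius d : ℝ)| * Real.log (N / (d : ℝ)) ^ 2 ≤
            1 * Real.log (N / (d : ℝ)) ^ 2 := mul_le_mul_of_nonneg_right (abs_mu d) (sq_nonneg _)
          _ ≤ Real.log N ^ 2 := by
            rw [one_mul]
            exact pow_le_pow_left₀ h4 h5 2
      refine (sum_le_sum h3).trans ?_
      rw [sum_const, nsmul_eq_mul]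
      apply mul_le_mul_of_nonneg_right _ (by positivity)
      apply hcard
      intro d hd
      rw [mem_filter, mem_DD] at hd
      exact ⟨hd.1.2.1, hd.2⟩
    have h3 : |L2 m - FF z D N m| ≤ |L2 m| + |FF z D N m| := abs_sub _ _
    linarith
  · rw [if_neg hB, zero_add]
    unfold Bad at hB
    rw [not_or, not_or] at hB
    obtain ⟨hB1, hB2, hB3⟩ := hB
    push Not at hB1 hB2 hB3
    have hsq : Squarefree m := by
      rw [Nat.squarefree_iff_prime_squarefree]
      intro p hp hpm
      rcases le_or_gt p z with h | h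
      · exact hR p hp h ((dvd_mul_right p p).trans hpm)
      · exact hB3 p hp h (by rw [sq]; exact hpm)
    have hdiv : ∀ d ∈ m.divisors, (1 ≤ d ∧ d ≤ M) ∧ Squarefree d ∧ Rough z d := by
      intro d hd
      rw [Nat.mem_divisors] at hd
      have hd0 : 0 < d := Nat.pos_of_dvd_of_pos hd.1 hm1
      exact ⟨⟨hd0, (Nat.le_of_dvd hm1 hd.1).trans hmM⟩, hsq.squarefree_of_dvd hd.1,
        fun p hp hpz h => hR p hp hpz (h.trans hd.1)⟩
    have hF : FF z D N m = ∑ d ∈ m.divisors.filter (fun d => d ≤ D),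
        (ArithmeticFunction.moebius d : ℝ) * Real.log (N / (d : ℝ)) ^ 2 := by
      unfold FF
      apply sum_congr _ fun _ _ => rfl
      ext d
      rw [mem_filter, mem_filter, mem_DD, Nat.mem_divisors]
      constructor
      · rintro ⟨⟨⟨h1, h2⟩, h3, h4⟩, h5⟩
        exact ⟨⟨h5, by omega⟩, h2⟩
      · rintro ⟨⟨h1, h2⟩, h3⟩
        have h4 := hdiv d (Nat.mem_divisors.2 ⟨h1, h2⟩)
        exact ⟨⟨⟨h4.1.1, h3⟩, h4.2⟩, h1⟩
    have hsplit : L2 m - FF z D N m = ∑ d ∈ m.divisors, (ArithmeticFunction.moebius d : ℝ) *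
        (Real.log ((m / d : ℕ) : ℝ) ^ 2 - Real.log (N / (d : ℝ)) ^ 2) +
        ∑ d ∈ m.divisors.filter (fun d => ¬ d ≤ D),
          (ArithmeticFunction.moebius d : ℝ) * Real.log (N / (d : ℝ)) ^ 2 := by
      rw [hF]
      have h1 := sum_filter_add_sum_filter_not m.divisors (fun d => d ≤ D)
        (fun d => (ArithmeticFunction.moebius d : ℝ) * Real.log (N / (d : ℝ)) ^ 2)
      have h2 : ∑ d ∈ m.divisors, (ArithmeticFunction.moebius d : ℝ) *
        (Real.log ((m / d : ℕ) : ℝ) ^ 2 - Real.log (N / (d : ℝ)) ^ 2) =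
          L2 m - ∑ d ∈ m.divisors, (ArithmeticFunction.moebius d : ℝ) * Real.log (N / (d : ℝ)) ^ 2 := by
        unfold L2
        rw [← sum_sub_distrib]
        exact sum_congr rfl fun d _ => by ring
      rw [h2]
      linarith
    rw [hsplit]
    refine (abs_add_le _ _).trans (add_le_add ?_ ?_)
    · refine (abs_sum_le_sum_abs _ _).trans ?_
      have h3 : ∀ d ∈ m.divisors, |(ArithmeticFunction.moebius d : ℝ) *
          (Real.log ((m / d : ℕ) : ℝ) ^ 2 - Real.log (N / (d : ℝ)) ^ 2)| ≤ ℓ * (2 * Real.log M) := by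
        intro d hd
        obtain ⟨⟨h4, h5⟩, -, -⟩ := hdiv d hd
        rw [Nat.mem_divisors] at hd
        obtain ⟨e, he⟩ := hd.1
        have hd0 : (0 : ℝ) < d := by exact_mod_cast h4
        have he1 : 1 ≤ e := Nat.one_le_iff_ne_zero.2 (by rintro rfl; simp at he; omega)
        have heM : e ≤ M := by
          have : e ≤ m := Nat.le_of_dvd hm1 (Dvd.intro_left d he.symm)
          exact this.trans hmM
        have he0 : (0 : ℝ) < e := by exact_mod_cast he1
        have h6 : m / d = e := by rw [he]; exact Nat.mul_div_cancel_left e h4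
        rw [h6, abs_mul]
        have h7 : Real.log e ^ 2 - Real.log (N / (d : ℝ)) ^ 2 =
            (Real.log m - Real.log N) * (Real.log e + Real.log (N / (d : ℝ))) := by
          rw [Real.log_div hN0.ne' hd0.ne']
          have h8 : Real.log m = Real.log d + Real.log e := by
            rw [he, Nat.cast_mul, Real.log_mul hd0.ne' he0.ne']
          rw [h8]
          ring
        rw [h7, abs_mul]
        have h9 : |Real.log e + Real.log (N / (d : ℝ))| ≤ 2 * Real.log M := by
          have a1 : 0 ≤ Real.log e := Real.log_natCast_nonneg e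
          have a2 := log_le' he1 heM
          have a3 : 0 ≤ Real.log d := Real.log_natCast_nonneg d
          have a4 := log_le' h4 h5
          rw [Real.log_div hN0.ne' hd0.ne', abs_le]
          constructor <;> linarith
        have h10 : |(ArithmeticFunction.moebius d : ℝ)| * (|Real.log m - Real.log N| *
            |Real.log e + Real.log (N / (d : ℝ))|) ≤ 1 * (ℓ * (2 * Real.log M)) := by
          apply mul_le_mul (abs_mu d) _ (by positivity) (by norm_num)
          exact mul_le_mul (hℓ m hB1 hmM) h9 (abs_nonneg _) hℓ0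
        linarith
      refine (sum_le_sum h3).trans ?_
      rw [sum_const, nsmul_eq_mul]
      apply mul_le_mul_of_nonneg_right _ (by positivity)
      apply hcard
      intro d hd
      exact ⟨(hdiv d hd).2.1, (Nat.mem_divisors.1 hd).1⟩
    · refine (abs_sum_le_sum_abs _ _).trans ?_
      have h3 : ∀ d ∈ m.divisors.filter (fun d => ¬ d ≤ D),
          |(ArithmeticFunction.moebius d : ℝ) * Real.log (N / (d : ℝ)) ^ 2| ≤ lam ^ 2 := by
        intro d hd
        rw [mem_filter] at hd
        have h4 := hlam d (by omega) (hdiv d hd.1).1.2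
        rw [abs_mul, abs_of_nonneg (sq_nonneg (Real.log (N / (d : ℝ))))]
        calc |(ArithmeticFunction.moebius d : ℝ)| * Real.log (N / (d : ℝ)) ^ 2 ≤
            1 * Real.log (N / (d : ℝ)) ^ 2 := mul_le_mul_of_nonneg_right (abs_mu d) (sq_nonneg _)
          _ ≤ lam ^ 2 := by
            rw [one_mul, ← sq_abs]
            exact pow_le_pow_left₀ (abs_nonneg _) h4 2
      refine (sum_le_sum h3).trans ?_
      rw [sum_const, nsmul_eq_mul, mul_comm]
      apply mul_le_mul_of_nonneg_left _ (by positivity)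
      have h4 : (m.divisors.filter (fun d => ¬ d ≤ D)).card ≤ ((DD z E).filter (fun e => e ∣ m)).card := by
        apply card_le_card_of_injOn (fun d => m / d)
        · intro d hd
          rw [Finset.mem_coe, mem_filter] at hd
          have h5 := Nat.mem_divisors.1 hd.1
          obtain ⟨e, he⟩ := h5.1
          have hd0 : 0 < d := (hdiv d hd.1).1.1
          have h6 : m / d = e := by rw [he]; exact Nat.mul_div_cancel_left e hd0
          have he1 : e ∈ m.divisors := Nat.mem_divisors.2 ⟨Dvd.intro_left d he.symm, h5.2⟩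
          have h7 := hdiv e he1
          simp only [Finset.coe_filter, Set.mem_ofPred_eq]
          rw [h6, mem_DD]
          refine ⟨⟨⟨h7.1.1, ?_⟩, h7.2⟩, (Nat.mem_divisors.1 he1).1⟩
          by_contra hcon
          have h8 : D * E < d * e := by
            have h9 : D + 1 ≤ d := by omega
            have h10 : E + 1 ≤ e := by omega
            nlinarith [Nat.mul_le_mul h9 h10]
          rw [← he] at h8
          omega
        · intro d hd d' hd' h
          rw [Finset.mem_coe, mem_filter] at hd hd'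
          have h5 := Nat.mem_divisors.1 hd.1
          have h6 := Nat.mem_divisors.1 hd'.1
          simp only at h
          rw [← Nat.div_div_self h5.1 h5.2, h, Nat.div_div_self h6.1 h6.2]
      exact_mod_cast h4

end Pool.Agent.Q148.BA
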