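import Mathlib

/-! The asymptotic sieve for `Λ₂`: real inequalities. -/

set_option autoImplicit false

namespace Pool.Agent.Q148.BA

/-- term 2 -/
theorem rt2 (C1 Cm α β L P XV lM lz lw : ℝ) (hC1 : 0 ≤ C1) (hCm : 0 ≤ Cm) (hα : 0 < α) (hβ : 0 < β)
    (hL : 1 ≤ L) (hP : 0 ≤ P) (hlw : β * L / 2 ≤ lw) (hXV : XV ≤ P * (Cm / lw)) (hlM0 : 0 ≤ lM)
    (hlM : lM ≤ 2 * L) (hlz0 : 0 ≤ lz) (hlz : lz ≤ α * L) :
    8 * C1 * XV * (lM * lz) ≤ 32 * C1 * Cm * (α / β) * (P * L) := by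
  have hL0 : 0 < L := by linarith
  have hlw0 : 0 < lw := lt_of_lt_of_le (by positivity) hlw
  have h1 : XV ≤ P * (2 * Cm / (β * L)) := by
    refine hXV.trans (mul_le_mul_of_nonneg_left ?_ hP)
    rw [div_le_div_iff₀ hlw0 (by positivity)]
    nlinarith
  have h2 : lM * lz ≤ 2 * L * (α * L) := mul_le_mul hlM hlz hlz0 (by positivity)
  have h3 : 8 * C1 * XV ≤ 8 * C1 * (P * (2 * Cm / (β * L))) := mul_le_mul_of_nonneg_left h1 (by positivity)
  calc 8 * C1 * XV * (lM * lz) ≤ 8 * C1 * (P * (2 * Cm / (β * L))) * (lM * lz) :=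
        mul_le_mul_of_nonneg_right h3 (by positivity)
    _ ≤ 8 * C1 * (P * (2 * Cm / (β * L))) * (2 * L * (α * L)) :=
        mul_le_mul_of_nonneg_left h2 (by positivity)
    _ = 32 * C1 * Cm * (α / β) * (P * L) := by
        field_simp
        ring

/-- the product of the density and the sum over rough numbers -/
theorem rt3 (Cm c α L P XV lz lE ρ G : ℝ) (hCm : 0 ≤ Cm) (hc : 0 < c) (hα : 0 < α)
    (hL : 1 ≤ L) (hP : 0 ≤ P) (hlz : α * L / 2 ≤ lz) (hXV0 : 0 ≤ XV) (hXV : XV ≤ P * (Cm / lz)) (hlE : lE ≤ ρ * L)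
    (hρ : 0 ≤ ρ) (hG : G ≤ Cm / c * (lE / lz)) :
    XV * G ≤ 4 * (Cm ^ 2 / c) * (ρ / α ^ 2) * (P / L) := by
  have hL0 : 0 < L := by linarith
  have hlz0 : 0 < lz := lt_of_lt_of_le (by positivity) hlz
  have h1 : XV ≤ P * (2 * Cm / (α * L)) := by
    refine hXV.trans (mul_le_mul_of_nonneg_left ?_ hP)
    rw [div_le_div_iff₀ hlz0 (by positivity)]
    nlinarith
  have h2 : lE / lz ≤ 2 * ρ / α := by
    rw [div_le_div_iff₀ hlz0 hα]
    nlinarith [mul_le_mul_of_nonneg_left hlz hρ, mul_le_mul_of_nonneg_right hlE hα.le]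
  have h3 : G ≤ Cm / c * (2 * ρ / α) := hG.trans (mul_le_mul_of_nonneg_left h2 (by positivity))
  calc XV * G ≤ XV * (Cm / c * (2 * ρ / α)) := mul_le_mul_of_nonneg_left h3 hXV0
    _ ≤ P * (2 * Cm / (α * L)) * (Cm / c * (2 * ρ / α)) := mul_le_mul_of_nonneg_right h1 (by positivity)
    _ = 4 * (Cm ^ 2 / c) * (ρ / α ^ 2) * (P / L) := by
        field_simp
        ring

end Pool.Agent.Q148.BA
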