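import Pool.Agent.Q148.BA.Seqs

/-! The contribution of the values which are neither primes nor products of two large primes. -/

set_option autoImplicit false

namespace Pool.Agent.Q148.BA

open Finset Filter
open Pool.Agent.H560R3.GB (C₂ sing)

/-- a prime `> z` or the product of two different primes `> z` -/
def Gz (z m : ℕ) : Prop :=
  (m.Prime ∧ z < m) ∨ ∃ p q : ℕ, p.Prime ∧ q.Prime ∧ z < p ∧ p < q ∧ m = p * q

theorem good_of (m z T : ℕ) (hm1 : 1 ≤ m) (h0 : L2 m ≠ 0) (hR : Rough z m) (hB : ¬ Bad z T m) : Gz z m := by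
  unfold Bad at hB
  rw [not_or, not_or] at hB
  obtain ⟨_, _, hB3⟩ := hB
  push Not at hB3
  have hlarge : ∀ p : ℕ, p.Prime → p ∣ m → z < p := by
    intro p hp hpm
    by_contra hcon
    exact hR p hp (by omega) hpm
  have hsq : ∀ p k : ℕ, p.Prime → p ^ k ∣ m → k ≤ 1 := by
    intro p k hp hpk
    by_contra hcon
    have h2 : p ^ 2 ∣ m := (pow_dvd_pow p (by omega)).trans hpk
    exact hB3 p hp (hlarge p hp ((dvd_pow_self p (by norm_num)).trans h2)) h2
  by_cases hL : ArithmeticFunction.vonMangoldt m = 0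
  · rw [L2_val, hL, zero_mul, zero_add] at h0
    obtain ⟨d, hd, hne⟩ := exists_ne_zero_of_sum_ne_zero h0
    have h1 : ArithmeticFunction.vonMangoldt d ≠ 0 := left_ne_zero_of_mul hne
    have h2 : ArithmeticFunction.vonMangoldt (m / d) ≠ 0 := right_ne_zero_of_mul hne
    rw [ArithmeticFunction.vonMangoldt_ne_zero_iff] at h1 h2
    obtain ⟨p1, a1, hp1, ha1, e1⟩ := (isPrimePow_nat_iff _).1 h1
    obtain ⟨p2, a2, hp2, ha2, e2⟩ := (isPrimePow_nat_iff _).1 h2
    rw [Nat.mem_divisors] at hd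
    have hmd : m = p1 ^ a1 * p2 ^ a2 := by
      rw [e1, e2, Nat.mul_div_cancel' hd.1]
    have b1 := hsq p1 a1 hp1 (by rw [hmd]; exact dvd_mul_right _ _)
    have b2 := hsq p2 a2 hp2 (by rw [hmd]; exact dvd_mul_left _ _)
    have c1 : a1 = 1 := by omega
    have c2 : a2 = 1 := by omega
    rw [c1, c2, pow_one, pow_one] at hmd
    have d1 := hlarge p1 hp1 (by rw [hmd]; exact dvd_mul_right _ _)
    have d2 := hlarge p2 hp2 (by rw [hmd]; exact dvd_mul_left _ _)
    have hne' : p1 ≠ p2 := by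
      rintro rfl
      have := hsq p1 2 hp1 (by rw [hmd, pow_two])
      omega
    right
    rcases Nat.lt_or_gt_of_ne hne' with h | h
    · exact ⟨p1, p2, hp1, hp2, d1, h, hmd⟩
    · exact ⟨p2, p1, hp2, hp1, d2, h, by rw [hmd, mul_comm]⟩
  · rw [← ne_eq, ArithmeticFunction.vonMangoldt_ne_zero_iff] at hL
    obtain ⟨p, k, hp, hk, hpk⟩ := (isPrimePow_nat_iff m).1 hL
    have b1 := hsq p k hp (by rw [hpk])
    have c1 : k = 1 := by omega
    rw [c1, pow_one] at hpk
    left
    rw [← hpk]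
    exact ⟨hp, hlarge p hp (by rw [hpk])⟩

open Classical in
theorem rest_abs : ∃ (C : ℕ) (C1 : ℝ), 1 ≤ C ∧ 0 < C1 ∧ ∀ (S : Finset ℕ) (v : ℕ → ℕ) (X : ℝ) (g r : ℕ → ℝ)
    (M T J J' Q z w : ℕ), Dens S v X g r → z = 2 ^ 2 ^ J → w = 2 ^ 2 ^ J' → J ≤ J' →
    z ^ 2 * w ^ 2 ≤ T → (∀ n ∈ S, v n ≤ M) →
    (∀ m, 1 ≤ m → (S.filter (fun n => v n = m)).card ≤ 2) → 1 ≤ Q →
    z ^ 2 * (C * w ^ (C * C)) ≤ Q →
    ∑ n ∈ S.filter (fun n => ¬ Gz z (v n)), L2 (v n) ≤
      2 * (T + 2 * (M / (z : ℝ))) * (2 * Real.log M ^ 2) +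
      (8 * C1 * (X * (∏ p ∈ PP w, (1 - g p))) * (Real.log M * Real.log z) +
        2 * (Real.log z * Real.log M) * ((J' + 1) * (2 * Real.log Q * ∑ m ∈ Icc 1 Q, r m))) := by
  obtain ⟨C, hC, HC⟩ := cnt
  obtain ⟨C1, hC1, HL⟩ := logsum
  refine ⟨C, C1, hC, hC1, ?_⟩
  intro S v X g r M T J J' Q z w H hz hw hJ hT hv hm hQ1 hQ4
  have hz2 : 2 ≤ z := by
    rw [hz]
    calc 2 = 2 ^ 1 := by norm_num
      _ ≤ 2 ^ 2 ^ J := Nat.pow_le_pow_right (by norm_num) (Nat.one_le_two_pow)
  have hzw : z ≤ w := by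
    rw [hz, hw]
    exact Nat.pow_le_pow_right (by norm_num) (Nat.pow_le_pow_right (by norm_num) hJ)
  set W := ∏ p ∈ PP w, (1 - g p) with hW
  have hX0 := H.X0
  have hr0 : ∀ m, 1 ≤ m → 0 ≤ r m := fun m h => H.r0 h
  have hW0 : 0 ≤ W := prod_nonneg fun p hp => by
    have := H.half p (mem_PP.1 hp).1
    linarith
  set R := ∑ m ∈ Icc 1 Q, r m with hR
  have hR0 : 0 ≤ R := sum_nonneg fun m hm => hr0 m (mem_Icc.1 hm).1
  -- sum over the prime powers
  have hlz : 0 ≤ Real.log z := Real.log_natCast_nonneg z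
  have hlM : 0 ≤ Real.log M := Real.log_natCast_nonneg M
  have hJ'0 : (0 : ℝ) ≤ J' + 1 := by positivity
  have sK : ∑ x ∈ KK z (z ^ 2), 2 * (Real.log x.1 * Real.log M) * B S v (x.1 ^ x.2) ((PP w).erase x.1) ≤
      8 * C1 * (X * W) * (Real.log M * Real.log z) +
        2 * (Real.log z * Real.log M) * ((J' + 1) * (2 * Real.log Q * R)) := by
    have h1 : ∀ x ∈ KK z (z ^ 2), 2 * (Real.log x.1 * Real.log M) * B S v (x.1 ^ x.2) ((PP w).erase x.1) ≤
        8 * (X * W) * Real.log M * (Real.log x.1 * g (x.1 ^ x.2)) +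
        2 * (Real.log z * Real.log M) * ((J' + 1) * Rs r (x.1 ^ x.2) ((PP w).erase x.1) (C * w ^ (C * C))) := by
      intro x hx
      unfold KK at hx
      rw [mem_filter, mem_product, mem_PP, mem_Icc] at hx
      obtain ⟨⟨⟨hp, hpz⟩, ha1, _⟩, _⟩ := hx
      have hpw : x.1 ∈ PP w := mem_PP.2 ⟨hp, hpz.trans hzw⟩
      have hnn := H.nn x.1 x.2 hp
      have h2 := HC C J' ((PP w).erase x.1) le_rfl (by
        intro p hp'
        have := mem_PP.1 (mem_of_mem_erase hp')
        rw [← hw]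
        exact this) S v X g r H (x.1 ^ x.2) (Nat.one_le_pow _ _ hp.pos) hnn (by
        intro p hp' hdvd
        have h3 := mem_PP.1 (mem_of_mem_erase hp')
        have := (Nat.prime_dvd_prime_iff_eq h3.1 hp).1 (h3.1.dvd_of_dvd_pow hdvd)
        exact ne_of_mem_erase hp' this)
      rw [← hw] at h2
      have h3 : ∏ p ∈ (PP w).erase x.1, (1 - g p) ≤ 2 * W := by
        have h4 : W = (1 - g x.1) * ∏ p ∈ (PP w).erase x.1, (1 - g p) := by
          exact (mul_prod_erase (PP w) (fun p => 1 - g p) hpw).symm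
        have h5 := H.half x.1 hp
        have h6 : 0 ≤ ∏ p ∈ (PP w).erase x.1, (1 - g p) := prod_nonneg fun p hp' => by
          have := H.half p (mem_PP.1 (mem_of_mem_erase hp')).1
          linarith
        nlinarith
      have h6 : 0 ≤ ∏ p ∈ (PP w).erase x.1, (1 - g p) := prod_nonneg fun p hp' => by
        have := H.half p (mem_PP.1 (mem_of_mem_erase hp')).1
        linarith
      have hhalf' : (1 / 2 : ℝ) ^ C ≤ 1 := pow_le_one₀ (by norm_num) (by norm_num)
      have h7 : 0 ≤ X * (g (x.1 ^ x.2) * ∏ p ∈ (PP w).erase x.1, (1 - g p)) := by positivity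
      have h8 := mul_le_mul_of_nonneg_right hhalf' h7
      have h9 := (abs_le.1 h2).2
      have h10 : X * (g (x.1 ^ x.2) * ∏ p ∈ (PP w).erase x.1, (1 - g p)) ≤ X * (g (x.1 ^ x.2) * (2 * W)) :=
        mul_le_mul_of_nonneg_left (mul_le_mul_of_nonneg_left h3 hnn) hX0
      have h11 : B S v (x.1 ^ x.2) ((PP w).erase x.1) ≤ 4 * (X * W) * g (x.1 ^ x.2) +
          (J' + 1) * Rs r (x.1 ^ x.2) ((PP w).erase x.1) (C * w ^ (C * C)) := by linarith
      have hlx : 0 ≤ Real.log x.1 := Real.log_natCast_nonneg _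
      have hlxz : Real.log x.1 ≤ Real.log z := log_le' hp.one_le hpz
      have hRs : 0 ≤ Rs r (x.1 ^ x.2) ((PP w).erase x.1) (C * w ^ (C * C)) := by
        unfold Rs
        apply sum_nonneg
        intro T hT
        rw [mem_filter, mem_powerset] at hT
        apply hr0
        apply Nat.one_le_iff_ne_zero.2
        apply Nat.mul_ne_zero (pow_ne_zero _ hp.ne_zero)
        apply prod_ne_zero_iff.2
        intro p hp'
        exact (mem_PP.1 (mem_of_mem_erase (hT.1 hp'))).1.ne_zero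
      have h12 := mul_le_mul_of_nonneg_left h11 (by positivity : (0 : ℝ) ≤ 2 * (Real.log x.1 * Real.log M))
      have h13 : 2 * (Real.log x.1 * Real.log M) * ((J' + 1) * Rs r (x.1 ^ x.2) ((PP w).erase x.1) (C * w ^ (C * C))) ≤
          2 * (Real.log z * Real.log M) * ((J' + 1) * Rs r (x.1 ^ x.2) ((PP w).erase x.1) (C * w ^ (C * C))) := by
        apply mul_le_mul_of_nonneg_right _ (by positivity)
        have := mul_le_mul_of_nonneg_right hlxz hlM
        linarith
      have e : 2 * (Real.log x.1 * Real.log M) * (4 * (X * W) * g (x.1 ^ x.2) +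
          (J' + 1) * Rs r (x.1 ^ x.2) ((PP w).erase x.1) (C * w ^ (C * C))) =
          8 * (X * W) * Real.log M * (Real.log x.1 * g (x.1 ^ x.2)) +
          2 * (Real.log x.1 * Real.log M) * ((J' + 1) * Rs r (x.1 ^ x.2) ((PP w).erase x.1) (C * w ^ (C * C))) := by
        ring
      rw [e] at h12
      linarith
    refine (sum_le_sum h1).trans ?_
    rw [sum_add_distrib, ← mul_sum, ← mul_sum, ← mul_sum]
    apply add_le_add
    · have h2 := HL S v X g r H z (z ^ 2) hz2
      have h3 := mul_le_mul_of_nonneg_left h2 (by positivity : (0 : ℝ) ≤ 8 * (X * W) * Real.log M)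
      refine h3.trans (le_of_eq ?_)
      ring
    · apply mul_le_mul_of_nonneg_left _ (by positivity)
      apply mul_le_mul_of_nonneg_left _ hJ'0
      refine (errsum2 r hr0 z (z ^ 2) w _).trans ?_
      rw [hR, mul_sum]
      have h2 : ∑ m ∈ Icc 1 (z ^ 2 * (C * w ^ (C * C))), (m.primeFactors.card : ℝ) * r m ≤
          ∑ m ∈ Icc 1 Q, (m.primeFactors.card : ℝ) * r m := by
        apply sum_le_sum_of_subset_of_nonneg
        · intro m hm
          rw [mem_Icc] at hm ⊢
          omega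
        · intro m hm _
          have := hr0 m (mem_Icc.1 hm).1
          positivity
      refine h2.trans (sum_le_sum fun m hm => ?_)
      rw [mem_Icc] at hm
      exact mul_le_mul_of_nonneg_right (card_pf m Q hm.1 hm.2) (hr0 m hm.1)
  have hA := stepA S v M z w T hz2 hzw hT hv hm
  have hpt : ∑ n ∈ S.filter (fun n => ¬ Gz z (v n)), L2 (v n) ≤
      ∑ n ∈ S.filter (fun n => ¬ Rough z (v n)), L2 (v n) +
      ∑ n ∈ S.filter (fun n => 1 ≤ v n ∧ Bad z T (v n)), Real.log M ^ 2 := by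
    rw [sum_filter, sum_filter, sum_filter, ← sum_add_distrib]
    apply sum_le_sum
    intro n hn
    have hL0 := L2_nonneg (v n)
    have hlM2 : 0 ≤ Real.log M ^ 2 := by positivity
    by_cases hG : Gz z (v n)
    · rw [if_neg (not_not.2 hG)]
      split_ifs <;> linarith
    · rw [if_pos hG]
      by_cases hR : Rough z (v n)
      · have hv1 : 1 ≤ v n := by
          by_contra hcon
          have h0 : v n = 0 := by omega
          exact hR 2 Nat.prime_two hz2 (by rw [h0]; exact dvd_zero 2)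
        by_cases hB : Bad z T (v n)
        · rw [if_neg (not_not.2 hR), if_pos ⟨hv1, hB⟩, zero_add]
          refine (L2_le _).trans ?_
          apply pow_le_pow_left₀ (Real.log_natCast_nonneg _)
          exact log_le' hv1 (hv n hn)
        · have h0 : L2 (v n) = 0 := by
            by_contra h
            exact hG (good_of (v n) z T hv1 h hR hB)
          rw [h0]
          split_ifs <;> linarith
      · rw [if_pos hR]
        split_ifs <;> linarith
  have hcb : ∑ n ∈ S.filter (fun n => 1 ≤ v n ∧ Bad z T (v n)), Real.log M ^ 2 ≤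
      2 * (T + 2 * (M / (z : ℝ))) * Real.log M ^ 2 := by
    rw [sum_const, nsmul_eq_mul]
    exact mul_le_mul_of_nonneg_right (cnt_bad S v M z T (by omega) hv hm) (by positivity)
  linarith

end Pool.Agent.Q148.BA
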