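import Pool.Agent.Q148.BA.Rest

/-! The contribution of the values which are neither primes nor products of two large primes: the parameters. -/

set_option autoImplicit false

namespace Pool.Agent.Q148.BA

open Finset Filter
open Pool.Agent.H560R3.GB (C₂ sing)

theorem Gz_mono {t z m : ℕ} (h : t ≤ z) (hG : Gz z m) : Gz t m := by
  rcases hG with ⟨h1, h2⟩ | ⟨p, q, h1, h2, h3, h4, h5⟩
  · exact Or.inl ⟨h1, by omega⟩
  · exact Or.inr ⟨p, q, h1, h2, by omega, h4, h5⟩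

open Classical in
theorem rest_bas : ∃ C : ℝ, 0 < C ∧ ∃ c : ℝ, 0 < c ∧ c ≤ 1 ∧ ∀ κ : ℝ, 0 < κ → κ ≤ 1 / 8 → ∀ A : ℕ,
    ∃ N0 : ℕ, ∀ N : ℕ, N0 ≤ N →
    ∀ (S : Finset ℕ) (v : ℕ → ℕ) (X : ℝ) (g r : ℕ → ℝ) (W : ℝ), Dens S v X g r →
      (∀ n ∈ S, (v n : ℝ) ≤ N * Real.log N ^ A) →
      (∀ m, 1 ≤ m → (S.filter (fun n => v n = m)).card ≤ 2) → 0 ≤ W →
      (∀ y : ℕ, (N : ℝ) ^ (c * κ) ≤ y → y ≤ N → ∏ p ∈ PP y, (1 - g p) ≤ W * V1 y) →
      ∑ m ∈ Icc 1 ⌊(N : ℝ) ^ (1 - κ)⌋₊, r m ≤ N / Real.log N ^ 10 →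
      ∀ t : ℕ, (t : ℝ) ≤ (N : ℝ) ^ (c * κ) →
      ∑ n ∈ S.filter (fun n => ¬ Gz t (v n)), L2 (v n) ≤ C * κ * (X * W * Real.log N) + κ * N := by
  obtain ⟨C0, C1, hC0, hC1, HA⟩ := rest_abs
  obtain ⟨c, Cm, z1, hc, hCm, hz1, HM⟩ := mertens
  have hC0r : (1 : ℝ) ≤ C0 := by exact_mod_cast hC0
  have hC0p : (0 : ℝ) < C0 := by linarith
  refine ⟨128 * C0 * C1 * Cm, by positivity, 1 / (4 * C0 ^ 2), by positivity, ?_, ?_⟩
  · rw [div_le_one (by positivity)]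
    nlinarith
  intro κ hκ hκ8 A
  -- the parameters
  obtain ⟨α, hα⟩ : ∃ α : ℝ, α = κ / (2 * C0 * C0) := ⟨_, rfl⟩
  have hα0 : 0 < α := by rw [hα]; positivity
  have hcκ : 1 / (4 * (C0 : ℝ) ^ 2) * κ = α / 2 := by
    rw [hα]
    field_simp
    ring
  rw [hcκ]
  have hακ2 : α ≤ κ / 2 := by
    rw [hα, div_le_div_iff₀ (by positivity) (by norm_num)]
    have h1 : 1 ≤ (C0 : ℝ) * C0 := by nlinarith
    have h2 := mul_le_mul_of_nonneg_left h1 hκ.le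
    linarith
  obtain ⟨β, hβ⟩ : ∃ β : ℝ, β = 1 / (8 * C0 ^ 2) := ⟨_, rfl⟩
  have hβ0 : 0 < β := by rw [hβ]; positivity
  have hβ8 : β ≤ 1 / 8 := by
    rw [hβ, div_le_div_iff₀ (by positivity) (by norm_num)]
    nlinarith
  have hαβ : α ≤ β := by
    rw [hα, hβ, div_le_div_iff₀ (by positivity) (by positivity)]
    have h2 : 0 ≤ (C0 : ℝ) ^ 2 := by positivity
    nlinarith
  -- the thresholds
  have tl := Real.tendsto_log_atTop
  have e1 : ∀ᶠ x : ℝ in atTop, 3 ≤ x := eventually_ge_atTop 3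
  have e2 : ∀ᶠ x : ℝ in atTop, (C0 : ℝ) ≤ x ^ (κ / 2) :=
    (tendsto_rpow_atTop (by positivity)).eventually_ge_atTop _
  have e3 := Pool.Agent.H398R2.BV.ev_log 1 4 (1 / 2) (by norm_num)
  have e4 := Pool.Agent.H398R2.BV.ev_log 3 A κ hκ
  have e7 := Pool.Agent.H398R2.BV.ev_log (64 * (8 + 1) / κ) (A + 2) (α / 2) (by positivity)
  have e8 := tl.eventually_ge_atTop (128 / κ + 16 * (8 + 1) / κ)
  have e9 : ∀ᶠ x : ℝ in atTop, (z1 : ℝ) + 2 ≤ x ^ (α / 2) :=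
    (tendsto_rpow_atTop (by positivity)).eventually_ge_atTop _
  have evN := tendsto_natCast_atTop_atTop (R := ℝ) |>.eventually (e1.and (e2.and (e3.and (e4.and
    (e7.and (e8.and e9))))))
  obtain ⟨N0, HN⟩ := eventually_atTop.1 evN
  refine ⟨N0, fun N hN => ?_⟩
  obtain ⟨f1, f2, f3, f4, f7, f8, f9⟩ := HN N hN
  clear e1 e2 e3 e4 e7 e8 e9 evN HN
  obtain ⟨x, hx⟩ : ∃ x : ℝ, x = N := ⟨_, rfl⟩
  obtain ⟨L, hL⟩ : ∃ L : ℝ, L = Real.log N := ⟨_, rfl⟩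
  have hx0 : 0 < x := by rw [hx]; linarith
  have hx1 : 1 ≤ x := by rw [hx]; linarith
  have hκr : 1 ≤ 1 / κ := by rw [le_div_iff₀ hκ]; linarith
  have hLb : 128 / κ + 16 * (8 + 1) / κ ≤ L := by rw [hL]; exact f8
  have hL128 : 128 / κ ≤ L := by
    have : 0 ≤ 16 * (8 + (1 : ℝ)) / κ := by positivity
    linarith
  have hL16 : 16 * (8 + 1) / κ ≤ L := by
    have : 0 ≤ 128 / κ := by positivity
    linarith
  have hL1 : 1 ≤ L := by
    have : 1 ≤ 128 / κ := by rw [le_div_iff₀ hκ]; linarith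
    linarith
  have hL0 : 0 < L := by linarith
  rw [← hx] at f1 f2 f3 f4 f7 f9 ⊢
  rw [show Real.log x = L by rw [hx]; exact hL.symm] at f3 f4 f7 ⊢
  have hxL : Real.log x = L := by rw [hx]; exact hL.symm
  -- z and w
  have hz1r : (0 : ℝ) ≤ z1 := Nat.cast_nonneg _
  have hxα2 : 2 ≤ x ^ α := by
    have h1 : x ^ (α / 2) ≤ x ^ α := Real.rpow_le_rpow_of_exponent_le hx1 (by linarith)
    linarith
  have hxβ2 : 2 ≤ x ^ β := hxα2.trans (Real.rpow_le_rpow_of_exponent_le hx1 hαβ)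
  obtain ⟨J, hJ1, hJ2⟩ := exJ _ hxα2
  obtain ⟨J', hJ'1, hJ'2⟩ := exJ _ hxβ2
  obtain ⟨z, hz⟩ : ∃ z : ℕ, z = 2 ^ 2 ^ J := ⟨_, rfl⟩
  obtain ⟨w, hw⟩ : ∃ w : ℕ, w = 2 ^ 2 ^ J' := ⟨_, rfl⟩
  have hJ1 : (z : ℝ) ≤ x ^ α := by rw [hz]; exact hJ1
  have hJ2 : x ^ α < (z : ℝ) ^ 2 := by rw [hz]; exact hJ2
  have hJ'1 : (w : ℝ) ≤ x ^ β := by rw [hw]; exact hJ'1
  have hJ'2 : x ^ β < (w : ℝ) ^ 2 := by rw [hw]; exact hJ'2
  have hz0 : (0 : ℝ) < z := by rw [hz]; positivity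
  have hw0 : (0 : ℝ) < w := by rw [hw]; positivity
  have hzl : x ^ (α / 2) < z := by
    have h1 : (x ^ (α / 2)) ^ 2 = x ^ α := by
      rw [← Real.rpow_natCast, ← Real.rpow_mul hx0.le]
      congr 1
      push_cast
      ring
    rw [← h1] at hJ2
    exact lt_of_pow_lt_pow_left₀ 2 hz0.le hJ2
  have hzz1 : z1 ≤ z := by
    have h1 : (z1 : ℝ) ≤ z := by linarith
    exact_mod_cast h1
  have hz2 : 2 ≤ z := hz1.trans hzz1
  have hJJ : J ≤ J' := by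
    by_contra hcon
    have h1 : 2 ^ 2 ^ (J' + 1) ≤ 2 ^ 2 ^ J :=
      Nat.pow_le_pow_right (by norm_num) (Nat.pow_le_pow_right (by norm_num) (by omega))
    have h2 : (w : ℝ) ^ 2 ≤ z := by
      have h3 : w ^ 2 = 2 ^ 2 ^ (J' + 1) := by
        rw [hw, pow_succ 2 J', pow_mul]
      rw [← h3, ← hz] at h1
      exact_mod_cast h1
    have h4 : x ^ α ≤ x ^ β := Real.rpow_le_rpow_of_exponent_le hx1 hαβ
    linarith
  have hzw : z ≤ w := by
    rw [hz, hw]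
    exact Nat.pow_le_pow_right (by norm_num) (Nat.pow_le_pow_right (by norm_num) hJJ)
  -- logarithms
  have hlz1 : α * L / 2 ≤ Real.log z := by
    have h1 := Real.log_le_log (by positivity) hzl.le
    rw [Real.log_rpow hx0, hxL] at h1
    linarith
  have hlz2 : Real.log z ≤ α * L := by
    have h1 := Real.log_le_log hz0 hJ1
    rw [Real.log_rpow hx0, hxL] at h1
    exact h1
  have hlw1 : β * L / 2 ≤ Real.log w := by
    have h1 := Real.log_le_log (by positivity) hJ'2.le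
    rw [Real.log_rpow hx0, hxL, Real.log_pow] at h1
    push_cast at h1
    linarith
  have hlw2 : Real.log w ≤ β * L := by
    have h1 := Real.log_le_log hw0 hJ'1
    rw [Real.log_rpow hx0, hxL] at h1
    exact h1
  -- M, T, Q
  obtain ⟨M, hM⟩ : ∃ M : ℕ, M = ⌊x * L ^ A⌋₊ := ⟨_, rfl⟩
  have hMle : (M : ℝ) ≤ x * L ^ A := by rw [hM]; exact Nat.floor_le (by positivity)
  have hLA1 : 1 ≤ L ^ A := one_le_pow₀ hL1
  have hNM : N ≤ M := by
    rw [hM]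
    apply Nat.le_floor
    rw [← hx]
    exact le_mul_of_one_le_right hx0.le hLA1
  have hM1 : 1 ≤ M := by
    rw [hM]
    apply Nat.le_floor
    push_cast
    exact one_le_mul_of_one_le_of_one_le hx1 hLA1
  have hM0 : (0 : ℝ) < M := by exact_mod_cast hM1
  have hLAκ : L ^ A ≤ x ^ κ := by
    have : 0 ≤ L ^ A := by positivity
    linarith
  have hlM : Real.log M ≤ 2 * L := by
    have h1 : (M : ℝ) ≤ x ^ (2 : ℝ) := by
      refine hMle.trans ?_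
      calc x * L ^ A ≤ x * x ^ κ := mul_le_mul_of_nonneg_left hLAκ hx0.le
        _ = x ^ (1 + κ) := by rw [Real.rpow_add hx0, Real.rpow_one]
        _ ≤ x ^ (2 : ℝ) := Real.rpow_le_rpow_of_exponent_le hx1 (by linarith)
    have h2 := Real.log_le_log hM0 h1
    rw [Real.log_rpow hx0, hxL] at h2
    exact h2
  have hlM0 : 0 ≤ Real.log M := Real.log_natCast_nonneg M
  obtain ⟨T, hT⟩ : ∃ T : ℕ, T = ⌊x / L ^ 4⌋₊ := ⟨_, rfl⟩
  have hTle : (T : ℝ) ≤ x / L ^ 4 := by rw [hT]; exact Nat.floor_le (by positivity)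
  obtain ⟨Q, hQ⟩ : ∃ Q : ℕ, Q = ⌊x ^ (1 - κ)⌋₊ := ⟨_, rfl⟩
  have hQ1 : 1 ≤ Q := by
    rw [hQ]
    apply Nat.le_floor
    push_cast
    exact Real.one_le_rpow hx1 (by linarith)
  have hlQ : Real.log Q ≤ L := by
    have h1 : (Q : ℝ) ≤ x := by
      rw [hQ]
      refine (Nat.floor_le (by positivity)).trans ?_
      calc x ^ (1 - κ) ≤ x ^ (1 : ℝ) := Real.rpow_le_rpow_of_exponent_le hx1 (by linarith)
        _ = x := Real.rpow_one x
    have h2 := Real.log_le_log (by exact_mod_cast hQ1) h1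
    rw [hxL] at h2
    exact h2
  have hzα2 : (z : ℝ) ^ 2 ≤ x ^ (2 * α) := by
    calc (z : ℝ) ^ 2 ≤ (x ^ α) ^ 2 := pow_le_pow_left₀ hz0.le hJ1 _
      _ = x ^ (2 * α) := by
        rw [← Real.rpow_natCast, ← Real.rpow_mul hx0.le]
        congr 1
        push_cast
        ring
  have hwβ2 : (w : ℝ) ^ 2 ≤ x ^ (2 * β) := by
    calc (w : ℝ) ^ 2 ≤ (x ^ β) ^ 2 := pow_le_pow_left₀ hw0.le hJ'1 _
      _ = x ^ (2 * β) := by
        rw [← Real.rpow_natCast, ← Real.rpow_mul hx0.le]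
        congr 1
        push_cast
        ring
  have c4 : z ^ 2 * (C0 * w ^ (C0 * C0)) ≤ Q := by
    rw [hQ]
    apply Nat.le_floor
    push_cast
    have h1 : (w : ℝ) ^ (C0 * C0) ≤ x ^ (1 / 8 : ℝ) := by
      calc (w : ℝ) ^ (C0 * C0) ≤ (x ^ β) ^ (C0 * C0) := pow_le_pow_left₀ hw0.le hJ'1 _
        _ = x ^ (1 / 8 : ℝ) := by
          rw [← Real.rpow_natCast, ← Real.rpow_mul hx0.le]
          congr 1
          push_cast
          rw [hβ]
          field_simp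
    calc (z : ℝ) ^ 2 * ((C0 : ℝ) * (w : ℝ) ^ (C0 * C0)) ≤ x ^ (2 * α) * (x ^ (κ / 2) * x ^ (1 / 8 : ℝ)) := by
          apply mul_le_mul hzα2 _ (by positivity) (by positivity)
          exact mul_le_mul f2 h1 (by positivity) (by positivity)
      _ = x ^ (2 * α + (κ / 2 + 1 / 8)) := by
        rw [← Real.rpow_add hx0, ← Real.rpow_add hx0]
      _ ≤ x ^ (1 - κ) := Real.rpow_le_rpow_of_exponent_le hx1 (by linarith)
  have c1 : z ^ 2 * w ^ 2 ≤ T := by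
    rw [hT]
    apply Nat.le_floor
    push_cast
    rw [le_div_iff₀ (by positivity)]
    calc (z : ℝ) ^ 2 * (w : ℝ) ^ 2 * L ^ 4 ≤ x ^ (2 * α) * x ^ (2 * β) * x ^ (1 / 2 : ℝ) := by
          apply mul_le_mul _ (by linarith) (by positivity) (by positivity)
          exact mul_le_mul hzα2 hwβ2 (by positivity) (by positivity)
      _ = x ^ (2 * α + 2 * β + 1 / 2) := by rw [← Real.rpow_add hx0, ← Real.rpow_add hx0]
      _ ≤ x ^ (1 : ℝ) := Real.rpow_le_rpow_of_exponent_le hx1 (by linarith)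
      _ = x := Real.rpow_one x
  intro S v X g r W H hv hm hW0 hVW hR t ht
  have hv' : ∀ n ∈ S, v n ≤ M := by
    intro n hn
    rw [hM]
    exact Nat.le_floor (hv n hn)
  have hmain := HA S v X g r M T J J' Q z w H hz hw hJJ c1 hv' hm hQ1 c4
  have htz : t ≤ z := by
    have h1 : (t : ℝ) ≤ z := ht.trans hzl.le
    exact_mod_cast h1
  have hmono : ∑ n ∈ S.filter (fun n => ¬ Gz t (v n)), L2 (v n) ≤ ∑ n ∈ S.filter (fun n => ¬ Gz z (v n)), L2 (v n) := by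
    apply sum_le_sum_of_subset_of_nonneg
    · intro n hn
      rw [mem_filter] at hn ⊢
      exact ⟨hn.1, fun h => hn.2 (Gz_mono htz h)⟩
    · intro n _ _
      exact L2_nonneg _
  refine hmono.trans (hmain.trans ?_)
  obtain ⟨R, hRd⟩ : ∃ R, R = ∑ m ∈ Icc 1 Q, r m := ⟨_, rfl⟩
  rw [← hQ] at hR
  rw [← hRd] at hR ⊢
  have hR0 : 0 ≤ R := by
    rw [hRd]
    exact sum_nonneg fun m hm => H.r0 (mem_Icc.1 hm).1
  obtain ⟨Vw, hVwd⟩ : ∃ Vw, Vw = ∏ p ∈ PP w, (1 - g p) := ⟨_, rfl⟩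
  rw [← hVwd]
  have hX0 := H.X0
  have hwN : w ≤ N := by
    have h1 : (w : ℝ) ≤ x := by
      refine hJ'1.trans ?_
      calc x ^ β ≤ x ^ (1 : ℝ) := Real.rpow_le_rpow_of_exponent_le hx1 (by linarith)
        _ = x := Real.rpow_one x
    rw [hx] at h1
    exact_mod_cast h1
  have hVw : Vw ≤ W * (Cm / Real.log w) := by
    rw [hVwd]
    have h1 : x ^ (α / 2) ≤ w := by
      have h2 : (z : ℝ) ≤ w := by exact_mod_cast hzw
      linarith
    exact (hVW w h1 hwN).trans (mul_le_mul_of_nonneg_left (HM w (hzz1.trans hzw)).2 hW0)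
  obtain ⟨P, hP⟩ : ∃ P, P = X * W := ⟨_, rfl⟩
  have hP0 : 0 ≤ P := by rw [hP]; positivity
  rw [← hP]
  have hXVw : X * Vw ≤ P * (Cm / Real.log w) := by
    rw [hP, mul_assoc]
    exact mul_le_mul_of_nonneg_left hVw hX0
  have hlz0 : 0 < Real.log z := lt_of_lt_of_le (by positivity) hlz1
  have hJ'1b : ((J' : ℝ) + 1) ≤ 2 * L := by
    have h1 : (J' : ℝ) + 1 ≤ (2 : ℝ) ^ J' := by
      have : J' + 1 ≤ 2 ^ J' := Nat.lt_two_pow_self
      exact_mod_cast this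
    have h2 : Real.log w = 2 ^ J' * Real.log 2 := by
      rw [hw]
      push_cast
      rw [Real.log_pow]
      push_cast
      ring
    have h3 : β * L ≤ L := by
      have : β ≤ 1 := by linarith
      exact mul_le_of_le_one_left hL0.le this
    have hl2 := Real.log_two_gt_d9
    have h4 : (2 : ℝ) ^ J' * (1 / 2) ≤ 2 ^ J' * Real.log 2 := mul_le_mul_of_nonneg_left (by linarith) (by positivity)
    linarith
  have hMz : 64 * (8 + 1) / κ * L ^ 2 * ((M : ℝ) / z) ≤ x := by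
    have h1 : (M : ℝ) / z ≤ x * L ^ A / x ^ (α / 2) := div_le_div₀ (by positivity) hMle (by positivity) hzl.le
    calc 64 * (8 + 1) / κ * L ^ 2 * ((M : ℝ) / z) ≤ 64 * (8 + 1) / κ * L ^ 2 * (x * L ^ A / x ^ (α / 2)) :=
          mul_le_mul_of_nonneg_left h1 (by positivity)
      _ = (64 * (8 + 1) / κ * L ^ (A + 2)) * (x / x ^ (α / 2)) := by
        rw [pow_add]
        ring
      _ ≤ x ^ (α / 2) * (x / x ^ (α / 2)) := mul_le_mul_of_nonneg_right f7 (by positivity)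
      _ = x := by field_simp
  have hL16' : 16 * (8 + 1) ≤ κ * L := by
    have := (div_le_iff₀ hκ).1 hL16
    linarith
  have hL128' : 128 ≤ κ * L := by
    have := (div_le_iff₀ hκ).1 hL128
    linarith
  have hα1 : α ≤ 1 := by linarith
  have hlzL : Real.log z ≤ L := hlz2.trans (mul_le_of_le_one_left hL0.le hα1)
  have k1 := nm_T1 hκ hx0 hL1 (le_refl (1 : ℝ)) hL16' hTle hMz (Nat.cast_nonneg T) (by positivity) hlM0 hlM
  have k2 : 2 * ((T : ℝ) + 2 * (M / (z : ℝ))) * (2 * Real.log M ^ 2) ≤ κ / 4 * x := by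
    refine le_trans ?_ k1
    apply mul_le_mul_of_nonneg_left _ (by positivity)
    have : 0 ≤ 1 * L ^ 2 := by positivity
    linarith
  have k3 := rt2 C1 Cm α β L P (X * Vw) (Real.log M) (Real.log z) (Real.log w) hC1.le hCm.le hα0 hβ0 hL1 hP0 hlw1
    hXVw hlM0 hlM hlz0.le hlz2
  have hαβ' : α / β ≤ 4 * C0 * κ := by rw [hα, hβ]; exact nm_ab hκ hC0r hC0r
  have k4 : 32 * C1 * Cm * (α / β) * (P * L) ≤ 128 * C0 * C1 * Cm * κ * (P * L) := by
    apply mul_le_mul_of_nonneg_right _ (by positivity)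
    calc 32 * C1 * Cm * (α / β) ≤ 32 * C1 * Cm * (4 * C0 * κ) := mul_le_mul_of_nonneg_left hαβ' (by positivity)
      _ = _ := by ring
  have k5 := nm_T2' hL0 hlz0.le hlzL hlM0 hlM (Real.log_natCast_nonneg Q) hlQ hR0 (by positivity) hJ'1b
    (nm_R hx0 hκ hL1 hL128' hR)
  have k6 : 0 < κ * x := by positivity
  linarith

end Pool.Agent.Q148.BA
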