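import Pool.Agent.Q148.BA.RestB

/-! The contribution of the values which are neither primes nor products of two large primes: families. -/

set_option autoImplicit false

namespace Pool.Agent.Q148.BA

open Finset Filter
open Pool.Agent.H560R3.GB (C₂ sing)
open Pool.Agent.Y882.EHF (S few_affine)
open Pool.Agent.TH926.EH (E pc)
open Pool.Agent.H442R2.EHI (piAP)

open Classical in
theorem rest_app : ∃ C : ℝ, 0 < C ∧ ∃ c : ℝ, 0 < c ∧ c ≤ 1 ∧ ∀ κ : ℝ, 0 < κ → κ ≤ 1 / 8 → ∀ A₀ : ℕ,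
    ∃ N0 : ℕ, ∀ N : ℕ, N0 ≤ N → ∀ h : ℕ, 1 ≤ h → Even h → (h : ℝ) ≤ (N : ℝ) ^ (2 : ℝ) →
    ∀ (v : ℕ → ℕ),
      (∀ p ∈ PP N, (v p : ℝ) ≤ N * Real.log N ^ A₀) →
      (∀ m, 1 ≤ m → ((PP N).filter (fun p => v p = m)).card ≤ 2) →
      ∑ q ∈ Icc 1 ⌊(N : ℝ) ^ (1 - κ)⌋₊, |A (PP N) v q - ((PP N).card : ℝ) * gh h q| ≤ N / Real.log N ^ 10 →
      ∀ t : ℕ, (t : ℝ) ≤ (N : ℝ) ^ (c * κ) →
      ∑ p ∈ (PP N).filter (fun p => ¬ Gz t (v p)), L2 (v p) ≤ C * κ * sing h * N := by
  obtain ⟨C, hC, c, hc, hc1, H⟩ := rest_bas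
  refine ⟨4 * C + 1, by positivity, c, hc, hc1, ?_⟩
  intro κ hκ hκ8 A₀
  obtain ⟨N0, HN⟩ := H κ hκ hκ8 A₀
  obtain ⟨N1, HN1⟩ := pi_unif κ hκ (by linarith)
  have hθ : 0 < c * κ := by positivity
  obtain ⟨K, hK⟩ : ∃ K : ℕ, K = ⌈2 / (c * κ)⌉₊ + 1 := ⟨_, rfl⟩
  have hKθ : 2 < (c * κ) * K := by
    have h1 : 2 / (c * κ) ≤ ⌈2 / (c * κ)⌉₊ := Nat.le_ceil _
    have h2 : 2 / (c * κ) + 1 ≤ K := by rw [hK]; push_cast; linarith
    have h3 := mul_le_mul_of_nonneg_left h2 hθ.le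
    have h4 : (c * κ) * (2 / (c * κ) + 1) = 2 + (c * κ) := by field_simp
    linarith
  have e3 := (tendsto_rpow_atTop hθ).eventually_ge_atTop 5
  obtain ⟨N2, HN2⟩ := eventually_atTop.1 ((tendsto_natCast_atTop_atTop (R := ℝ)).eventually
    (e3.and (eventually_ge_atTop 2)))
  refine ⟨max N0 (max N1 N2), fun N hN h hh1 hhe hh2 v hv hm hR t ht => ?_⟩
  obtain ⟨f3, f4⟩ := HN2 N ((le_max_right _ _).trans ((le_max_right _ _).trans hN))
  have hN0 : (0 : ℝ) < N := by linarith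
  have g2 := HN1 N ((le_max_left _ _).trans ((le_max_right _ _).trans hN)) N le_rfl
  obtain ⟨s, hs⟩ : ∃ s, s = sing h := ⟨_, rfl⟩
  have hs1 : 1 ≤ s := by rw [hs]; exact sing_ge h
  have hW : ∀ y : ℕ, (N : ℝ) ^ (c * κ) ≤ y → y ≤ N → ∏ p ∈ PP y, (1 - gh h p) ≤ (2 * s) * V1 y := by
    intro y hy _
    have hy5 : (5 : ℝ) ≤ y := f3.trans hy
    have hy3 : 3 ≤ y := by
      have : (3 : ℝ) ≤ y := by linarith
      exact_mod_cast this
    have hKh : h < y ^ K := by
      have h6 : (h : ℝ) < (y : ℝ) ^ K := by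
        calc (h : ℝ) ≤ (N : ℝ) ^ (2 : ℝ) := hh2
          _ < (N : ℝ) ^ ((c * κ) * K) := Real.rpow_lt_rpow_of_exponent_lt (by linarith) hKθ
          _ = ((N : ℝ) ^ (c * κ)) ^ K := by rw [Real.rpow_mul hN0.le, Real.rpow_natCast]
          _ ≤ (y : ℝ) ^ K := pow_le_pow_left₀ (by positivity) hy _
      exact_mod_cast h6
    rw [V_form h y hhe (by omega), mul_comm]
    apply mul_le_mul_of_nonneg_right _ (V1_pos y).le
    have h6 := (sing_cmp h y K hh1 hKh hy3).1
    rw [← hs] at h6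
    have h7 : 1 / (y : ℝ) ≤ 1 / 2 := one_div_le_one_div_of_le (by norm_num) (by linarith)
    have h8 : 0 ≤ 2 * P3 y * D3 h y := by
      have := P3_pos y
      have := D3_ge h y
      positivity
    have h9 : 2 * P3 y * D3 h y * (1 / 2) ≤ 2 * P3 y * D3 h y * (1 - 1 / (y : ℝ)) :=
      mul_le_mul_of_nonneg_left (by linarith) h8
    linarith
  have h1 := HN N ((le_max_left _ _).trans hN) (PP N) v (PP N).card (gh h)
    (fun q => |A (PP N) v q - ((PP N).card : ℝ) * gh h q|) (2 * s)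
    (dens_gh h hhe (PP N) v (PP N).card (Nat.cast_nonneg _)) hv hm (by positivity) hW hR t ht
  refine h1.trans ?_
  rw [← hs]
  have h2 : ((PP N).card : ℝ) * Real.log N ≤ 2 * N := by
    have := (abs_le.1 g2).2
    nlinarith
  have h3 : ((PP N).card : ℝ) * (2 * s) * Real.log N ≤ 2 * s * (2 * N) := by
    calc ((PP N).card : ℝ) * (2 * s) * Real.log N = 2 * s * (((PP N).card : ℝ) * Real.log N) := by ring
      _ ≤ _ := mul_le_mul_of_nonneg_left h2 (by linarith)
  have h4 : C * κ * (((PP N).card : ℝ) * (2 * s) * Real.log N) ≤ C * κ * (2 * s * (2 * N)) :=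
    mul_le_mul_of_nonneg_left h3 (by positivity)
  have h5 : κ * N ≤ κ * (s * N) := mul_le_mul_of_nonneg_left (le_mul_of_one_le_left hN0.le hs1) hκ.le
  have h6 : (4 * C + 1) * κ * s * N = C * κ * (2 * s * (2 * N)) + κ * (s * N) := by ring
  rw [h6]
  linarith

open Classical in
/-- **the rest, for families** -/
theorem rest_fam : ∃ C : ℝ, 0 < C ∧ ∃ c : ℝ, 0 < c ∧ c ≤ 1 ∧ ∀ κ : ℝ, 0 < κ → κ ≤ 1 / 8 → ∀ A₀ : ℕ,
    ∃ N0 : ℕ, ∀ N : ℕ, N0 ≤ N → ∀ u : ℕ → ℕ, (∀ q, 1 ≤ q → (u q).Coprime q) →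
    ∀ (I : Finset ℕ), (∀ b ∈ I, (b : ℝ) ≤ (N : ℝ) ^ (2 : ℝ)) →
    ∃ Ex : Finset ℕ, (Ex.card : ℝ) ≤ (N : ℝ) ^ (1 - 3 / 2 * κ) ∧
    ∀ b ∈ I, b ∉ Ex → ∀ h : ℕ, 1 ≤ h → Even h → (h : ℝ) ≤ (N : ℝ) ^ (2 : ℝ) → ∀ v : ℕ → ℕ,
      Seq N A₀ h v (fun q => b * u q) → ∀ t : ℕ, (t : ℝ) ≤ (N : ℝ) ^ (c * κ) →
      ∑ p ∈ (PP N).filter (fun p => ¬ Gz t (v p)), L2 (v p) ≤ C * κ * sing h * N := by
  obtain ⟨C, hC, c, hc, hc1, H⟩ := rest_app
  refine ⟨C, hC, c, hc, hc1, ?_⟩
  intro κ hκ hκ8 A₀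
  obtain ⟨N0, HN⟩ := H κ hκ hκ8 A₀
  obtain ⟨B, N1, HF⟩ := few_affine 12 κ 2 hκ (by norm_num)
  have e2 := Pool.Agent.H398R2.BV.ev_log 1 B (κ / 2) (by positivity)
  have e3 := Real.tendsto_log_atTop.eventually_ge_atTop 2
  have e4 := Pool.Agent.H398R2.BV.ev_log 2 10 κ hκ
  obtain ⟨N2, HN2⟩ := eventually_atTop.1 ((tendsto_natCast_atTop_atTop (R := ℝ)).eventually
    (e2.and (e3.and (e4.and (eventually_ge_atTop 2)))))
  refine ⟨max N0 (max N1 N2), fun N hN u hu I hI => ?_⟩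
  obtain ⟨f2, f3, f4, f5⟩ := HN2 N ((le_max_right _ _).trans ((le_max_right _ _).trans hN))
  have hN0 : (0 : ℝ) < N := by linarith
  obtain ⟨Q, hQ⟩ : ∃ Q : ℕ, Q = ⌊(N : ℝ) ^ (1 - κ)⌋₊ := ⟨_, rfl⟩
  have hQle : (Q : ℝ) ≤ (N : ℝ) ^ (1 - κ) := by rw [hQ]; exact Nat.floor_le (by positivity)
  refine ⟨I.filter (fun b => (N : ℝ) / Real.log N ^ 12 < S N Q (fun q => b * u q)), ?_, ?_⟩
  · have h1 := HF N ((le_max_left _ _).trans ((le_max_right _ _).trans hN)) Q hQle u (fun _ => 0) hu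
      (I.filter (fun b => (N : ℝ) / Real.log N ^ 12 < S N Q (fun q => b * u q))) (by
      intro b hb
      rw [mem_filter] at hb
      exact ⟨hI b hb.1, by simpa using hb.2⟩)
    refine h1.trans ?_
    have h2 : (Q : ℝ) ^ 2 / N ≤ (N : ℝ) ^ (1 - 2 * κ) := by
      rw [div_le_iff₀ hN0]
      calc (Q : ℝ) ^ 2 ≤ ((N : ℝ) ^ (1 - κ)) ^ 2 := pow_le_pow_left₀ (Nat.cast_nonneg _) hQle 2
        _ = (N : ℝ) ^ (1 - 2 * κ + 1) := by
          rw [← Real.rpow_natCast, ← Real.rpow_mul hN0.le]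
          congr 1
          push_cast
          ring
        _ = (N : ℝ) ^ (1 - 2 * κ) * N := by rw [Real.rpow_add hN0, Real.rpow_one]
    calc (Q : ℝ) ^ 2 / N * Real.log N ^ B ≤ (N : ℝ) ^ (1 - 2 * κ) * (N : ℝ) ^ (κ / 2) := by
          apply mul_le_mul h2 (by linarith) (by positivity) (by positivity)
      _ = (N : ℝ) ^ (1 - 3 / 2 * κ) := by
        rw [← Real.rpow_add hN0]
        congr 1
        ring
  · intro b hb hbE h hh1 hhe hh2 v hv t ht
    have g2 : S N Q (fun q => b * u q) ≤ N / Real.log N ^ 12 := by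
      by_contra hcon
      exact hbE (mem_filter.2 ⟨hb, not_le.1 hcon⟩)
    apply HN N ((le_max_left _ _).trans hN) h hh1 hhe hh2 v _ hv.two _ t ht
    · intro p hp
      rw [mem_PP] at hp
      exact hv.le p hp.1 hp.2
    · rw [← hQ]
      refine (hv.sum_le N Q le_rfl).trans ?_
      have h2 : (N : ℝ) / Real.log N ^ 12 ≤ N / (2 * Real.log N ^ 10) := by
        apply div_le_div_of_nonneg_left hN0.le (by positivity)
        have h5 : Real.log N ^ 12 = Real.log N ^ 10 * Real.log N ^ 2 := by ring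
        rw [h5, mul_comm]
        apply mul_le_mul_of_nonneg_left _ (by positivity)
        nlinarith
      have h3 : (Q : ℝ) ≤ N / (2 * Real.log N ^ 10) := by
        rw [le_div_iff₀ (by positivity)]
        calc (Q : ℝ) * (2 * Real.log N ^ 10) ≤ (N : ℝ) ^ (1 - κ) * (N : ℝ) ^ κ :=
              mul_le_mul hQle f4 (by positivity) (by positivity)
          _ = N := by
            rw [← Real.rpow_add hN0]
            conv_rhs => rw [← Real.rpow_one (N : ℝ)]
            congr 1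
            ring
      have h4 : (N : ℝ) / (2 * Real.log N ^ 10) + N / (2 * Real.log N ^ 10) = N / Real.log N ^ 10 := by
        have : Real.log N ≠ 0 := by linarith
        field_simp
        ring
      linarith

/-- the number of the `p ≤ y` for which `v p` is a prime -/
noncomputable def N1 (v : ℕ → ℕ) (y : ℕ) : ℝ := (((PP y).filter (fun p => (v p).Prime)).card : ℝ)

open Classical in
/-- the number of the `p ≤ y` for which `v p` is the product of two different primes `> t` -/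
noncomputable def N2 (v : ℕ → ℕ) (t : ℝ) (y : ℕ) : ℝ :=
  (((PP y).filter (fun p => ∃ q r : ℕ, q.Prime ∧ r.Prime ∧ t < q ∧ q < r ∧ v p = q * r)).card : ℝ)

/-- the upper bound for the number of the prime values -/
theorem N1_le (κ : ℝ) (hκ : 0 < κ) (hκ8 : κ ≤ 1 / 8) : ∃ N0 : ℕ, ∀ N : ℕ, N0 ≤ N → ∀ (y : ℕ) (v : ℕ → ℕ), y ≤ N →
    (∀ m, 1 ≤ m → ((PP N).filter (fun p => v p = m)).card ≤ 2) →
    N1 v y * Real.log N ^ 2 ≤ (1 + κ) * ∑ p ∈ PP y, L2 (v p) + κ * N := by
  have tl := Real.tendsto_log_atTop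
  have e1 : ∀ᶠ x : ℝ in atTop, 12 * Real.log (Real.log x) ≤ κ * Real.log x := by
    have h1 : Tendsto (fun y : ℝ => Real.log y / y) atTop (nhds 0) :=
      Real.isLittleO_log_id_atTop.tendsto_div_nhds_zero
    have h2 := (h1.comp tl).eventually_le_const (show (0 : ℝ) < κ / 12 by positivity)
    filter_upwards [h2, tl.eventually_gt_atTop 0] with x h3 h4
    simp only [Function.comp] at h3
    rw [div_le_div_iff₀ h4 (by positivity)] at h3
    linarith
  have e2 := tl.eventually_ge_atTop (2 / κ)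
  obtain ⟨N0, HN⟩ := eventually_atTop.1 ((tendsto_natCast_atTop_atTop (R := ℝ)).eventually
    (e1.and (e2.and (eventually_ge_atTop 1))))
  refine ⟨N0, fun N hN y v hy hm => ?_⟩
  obtain ⟨f1, f2, f3⟩ := HN N hN
  obtain ⟨L, hL⟩ : ∃ L, L = Real.log N := ⟨_, rfl⟩
  rw [← hL] at f1 f2 ⊢
  have hκi : 16 ≤ 2 / κ := by rw [le_div_iff₀ hκ]; linarith
  have hL1 : 1 ≤ L := by linarith
  have hL0 : 0 < L := by linarith
  have hN0 : (0 : ℝ) < N := by linarith
  obtain ⟨T, hT⟩ : ∃ T : ℕ, T = ⌊(N : ℝ) / L ^ 3⌋₊ := ⟨_, rfl⟩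
  have hTle : (T : ℝ) ≤ N / L ^ 3 := by rw [hT]; exact Nat.floor_le (by positivity)
  have hsplit : N1 v y ≤ 2 * T + (((PP y).filter (fun p => (v p).Prime ∧ T < v p)).card : ℝ) := by
    unfold N1
    have h1 : (PP y).filter (fun p => (v p).Prime) ⊆
        (PP N).filter (fun p => v p ∈ Icc 1 T) ∪ (PP y).filter (fun p => (v p).Prime ∧ T < v p) := by
      intro p hp
      rw [mem_filter] at hp
      rw [mem_union, mem_filter, mem_filter, mem_Icc]
      by_cases h : v p ≤ T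
      · exact Or.inl ⟨PP_mono hy hp.1, hp.2.one_le, h⟩
      · exact Or.inr ⟨hp.1, hp.2, by omega⟩
    have h2 : ((PP N).filter (fun p => v p ∈ Icc 1 T)).card ≤ 2 * T := by
      have h3 : ((PP N).filter (fun p => v p ∈ Icc 1 T)).card ≤
          2 * (((PP N).filter (fun p => v p ∈ Icc 1 T)).image v).card := by
        apply card_le_mul_card_image
        intro m hm'
        rw [mem_image] at hm'
        obtain ⟨p, hp, rfl⟩ := hm'
        rw [mem_filter, mem_Icc] at hp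
        refine le_trans (card_le_card ?_) (hm (v p) hp.2.1)
        intro x hx
        rw [mem_filter, mem_filter] at hx
        rw [mem_filter]
        exact ⟨hx.1.1, hx.2⟩
      have h4 : (((PP N).filter (fun p => v p ∈ Icc 1 T)).image v).card ≤ T := by
        calc (((PP N).filter (fun p => v p ∈ Icc 1 T)).image v).card ≤ (Icc 1 T).card := by
              apply card_le_card
              intro m hm'
              rw [mem_image] at hm'
              obtain ⟨p, hp, rfl⟩ := hm'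
              exact (mem_filter.1 hp).2
          _ = T := by rw [Nat.card_Icc, Nat.add_sub_cancel]
      omega
    have h3 := (card_le_card h1).trans (card_union_le _ _)
    have h4 : ((PP y).filter (fun p => (v p).Prime)).card ≤ 2 * T +
        ((PP y).filter (fun p => (v p).Prime ∧ T < v p)).card := by omega
    exact_mod_cast h4
  have hsum : (((PP y).filter (fun p => (v p).Prime ∧ T < v p)).card : ℝ) * (L * (1 - κ / 4)) ^ 2 ≤
      ∑ p ∈ PP y, L2 (v p) := by
    calc (((PP y).filter (fun p => (v p).Prime ∧ T < v p)).card : ℝ) * (L * (1 - κ / 4)) ^ 2 =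
        ∑ _p ∈ (PP y).filter (fun p => (v p).Prime ∧ T < v p), (L * (1 - κ / 4)) ^ 2 := by
          rw [sum_const, nsmul_eq_mul]
      _ ≤ ∑ p ∈ (PP y).filter (fun p => (v p).Prime ∧ T < v p), L2 (v p) := by
          apply sum_le_sum
          intro p hp
          rw [mem_filter] at hp
          obtain ⟨_, hp1, hp2⟩ := hp
          have h1 : (N : ℝ) / L ^ 3 < v p := by
            rw [hT] at hp2
            exact Nat.lt_of_floor_lt hp2
          have h2 : L * (1 - κ / 4) ≤ Real.log (v p) := by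
            have h3 := Real.log_le_log (by positivity) h1.le
            rw [Real.log_div hN0.ne' (by positivity), Real.log_pow, ← hL] at h3
            push_cast at h3
            linarith
          have h3 : L2 (v p) = Real.log (v p) ^ 2 := by
            rw [L2_val, ArithmeticFunction.vonMangoldt_apply_prime hp1, Nat.Prime.divisors hp1,
              sum_insert (by
                rw [mem_singleton]
                exact hp1.one_lt.ne), sum_singleton, ArithmeticFunction.vonMangoldt_apply_one, zero_mul,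
              Nat.div_self hp1.pos, ArithmeticFunction.vonMangoldt_apply_one, mul_zero]
            ring
          rw [h3]
          apply pow_le_pow_left₀ _ h2
          apply mul_nonneg hL0.le
          linarith
      _ ≤ _ := sum_le_sum_of_subset_of_nonneg (filter_subset _ _) (fun p _ _ => L2_nonneg _)
  obtain ⟨F, hF⟩ : ∃ F : ℝ, F = (((PP y).filter (fun p => (v p).Prime ∧ T < v p)).card : ℝ) := ⟨_, rfl⟩
  rw [← hF] at hsplit hsum
  have hF0 : 0 ≤ F := by rw [hF]; positivity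
  have h1 : F * L ^ 2 ≤ (1 + κ) * ∑ p ∈ PP y, L2 (v p) := by
    have h0 : 1 - κ / 2 ≤ (1 - κ / 4) ^ 2 := by
      have e : (1 - κ / 4) ^ 2 = 1 - κ / 2 + (κ / 4) ^ 2 := by ring
      rw [e]
      have := sq_nonneg (κ / 4)
      linarith
    have h0' : 1 ≤ (1 + κ) * (1 - κ / 2) := by
      have e : (1 + κ) * (1 - κ / 2) = 1 + κ / 2 * (1 - κ) := by ring
      rw [e]
      have : 0 ≤ κ / 2 * (1 - κ) := mul_nonneg (by linarith) (by linarith)
      linarith
    have h2 : 1 ≤ (1 + κ) * (1 - κ / 4) ^ 2 := h0'.trans (mul_le_mul_of_nonneg_left h0 (by linarith))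
    calc F * L ^ 2 = 1 * (F * L ^ 2) := (one_mul _).symm
      _ ≤ ((1 + κ) * (1 - κ / 4) ^ 2) * (F * L ^ 2) := mul_le_mul_of_nonneg_right h2 (by positivity)
      _ = (1 + κ) * (F * (L * (1 - κ / 4)) ^ 2) := by ring
      _ ≤ _ := mul_le_mul_of_nonneg_left hsum (by linarith)
  have h2 : 2 * (T : ℝ) * L ^ 2 ≤ κ * N := by
    have h3 : (T : ℝ) * L ^ 2 ≤ N / L ^ 3 * L ^ 2 := mul_le_mul_of_nonneg_right hTle (by positivity)
    have h4 : (N : ℝ) / L ^ 3 * L ^ 2 = N / L := by field_simp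
    have h5 : (N : ℝ) / L ≤ κ / 2 * N := by
      rw [div_le_iff₀ hL0]
      have h6 : 2 ≤ κ * L := by
        rw [div_le_iff₀ hκ] at f2
        linarith
      nlinarith
    linarith
  have h3 : N1 v y * L ^ 2 ≤ (2 * T + F) * L ^ 2 := mul_le_mul_of_nonneg_right hsplit (by positivity)
  linarith

open Classical in
/-- the lower bound for the number of the values which are primes or products of two primes -/
theorem N2_ge (κ : ℝ) (hκ : 0 < κ) (hκ8 : κ ≤ 1 / 8) (A₀ : ℕ) : ∃ N0 : ℕ, ∀ N : ℕ, N0 ≤ N → ∀ (y : ℕ) (v : ℕ → ℕ),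
    y ≤ N → (∀ p ∈ PP y, (v p : ℝ) ≤ N * Real.log N ^ A₀) → ∀ (t : ℕ) (t' : ℝ), (∀ q : ℕ, t < q → t' < (q : ℝ)) →
    2 * ∑ p ∈ PP y, L2 (v p) ≤ (1 + κ) * (2 * N1 v y + N2 v t' y) * Real.log N ^ 2 +
      2 * ∑ p ∈ (PP N).filter (fun p => ¬ Gz t (v p)), L2 (v p) := by
  have tl := Real.tendsto_log_atTop
  have e1 : ∀ᶠ x : ℝ in atTop, (4 * A₀ + 4) * Real.log (Real.log x) ≤ κ * Real.log x := by
    have h1 : Tendsto (fun y : ℝ => Real.log y / y) atTop (nhds 0) :=
      Real.isLittleO_log_id_atTop.tendsto_div_nhds_zero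
    have h2 := (h1.comp tl).eventually_le_const (show (0 : ℝ) < κ / (4 * A₀ + 4) by positivity)
    filter_upwards [h2, tl.eventually_gt_atTop 0] with x h3 h4
    simp only [Function.comp] at h3
    rw [div_le_div_iff₀ h4 (by positivity)] at h3
    linarith
  have e2 := tl.eventually_ge_atTop 1
  obtain ⟨N0, HN⟩ := eventually_atTop.1 ((tendsto_natCast_atTop_atTop (R := ℝ)).eventually
    (e1.and (e2.and (eventually_ge_atTop 1))))
  refine ⟨N0, fun N hN y v hy hv t t' ht => ?_⟩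
  obtain ⟨f1, f2, f3⟩ := HN N hN
  obtain ⟨L, hL⟩ : ∃ L, L = Real.log N := ⟨_, rfl⟩
  rw [← hL] at f1 f2 hv ⊢
  have hL0 : 0 < L := by linarith
  have hN0 : (0 : ℝ) < N := by linarith
  have hlL : 0 ≤ Real.log L := Real.log_nonneg f2
  have hlog : ∀ p ∈ PP y, 1 ≤ v p → Real.log (v p) ≤ L * (1 + κ / 4) := by
    intro p hp h1
    have h2 := Real.log_le_log (by exact_mod_cast h1) (hv p hp)
    rw [Real.log_mul hN0.ne' (by positivity), Real.log_pow, ← hL] at h2
    have h3 : (0 : ℝ) ≤ A₀ := Nat.cast_nonneg A₀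
    have h4 : A₀ * Real.log L ≤ κ * L / 4 := by nlinarith
    linarith
  have hκs : (1 + κ / 4) ^ 2 ≤ 1 + κ := by nlinarith
  have hpt : ∀ p ∈ PP y, 2 * L2 (v p) ≤ (1 + κ) * L ^ 2 * ((if (v p).Prime then 2 else 0) +
      (if ∃ q r : ℕ, q.Prime ∧ r.Prime ∧ t' < q ∧ q < r ∧ v p = q * r then 1 else 0)) +
      2 * (if ¬ Gz t (v p) then L2 (v p) else 0) := by
    intro p hp
    have hL2 := L2_nonneg (v p)
    by_cases hG : Gz t (v p)
    · rw [if_neg (not_not.2 hG), mul_zero, add_zero]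
      rcases hG with ⟨h1, h2⟩ | ⟨q, r, h1, h2, h3, h4, h5⟩
      · rw [if_pos h1]
        have h6 := hlog p hp h1.one_le
        have h7 : L2 (v p) ≤ (1 + κ) * L ^ 2 := by
          refine (L2_le _).trans ?_
          calc Real.log (v p) ^ 2 ≤ (L * (1 + κ / 4)) ^ 2 := pow_le_pow_left₀ (Real.log_natCast_nonneg _) h6 2
            _ = (1 + κ / 4) ^ 2 * L ^ 2 := by ring
            _ ≤ _ := mul_le_mul_of_nonneg_right hκs (by positivity)
        have h8 : 0 ≤ (1 + κ) * L ^ 2 * (if ∃ q r : ℕ, q.Prime ∧ r.Prime ∧ t' < q ∧ q < r ∧ v p = q * r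
            then (1 : ℝ) else 0) := by
          apply mul_nonneg (by positivity)
          split_ifs <;> norm_num
        rw [mul_add]
        linarith
      · have h6 : ∃ q r : ℕ, q.Prime ∧ r.Prime ∧ t' < q ∧ q < r ∧ v p = q * r :=
          ⟨q, r, h1, h2, ht q h3, h4, h5⟩
        rw [if_pos h6]
        have hv1 : 1 ≤ v p := by rw [h5]; exact Nat.mul_pos h1.pos h2.pos
        have h7 := hlog p hp hv1
        have h8 := L2_pq q 1 r h1 h2 h4.ne le_rfl
        rw [pow_one, ← h5] at h8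
        have hq0 : (0 : ℝ) < q := by exact_mod_cast h1.pos
        have hr0 : (0 : ℝ) < r := by exact_mod_cast h2.pos
        have h9 : Real.log (v p) = Real.log q + Real.log r := by
          rw [h5, Nat.cast_mul, Real.log_mul hq0.ne' hr0.ne']
        have h10 : 2 * L2 (v p) ≤ (1 + κ) * L ^ 2 := by
          calc 2 * L2 (v p) ≤ 4 * (Real.log q * Real.log r) := by linarith
            _ ≤ (Real.log q + Real.log r) ^ 2 := by nlinarith [sq_nonneg (Real.log q - Real.log r)]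
            _ = Real.log (v p) ^ 2 := by rw [h9]
            _ ≤ (L * (1 + κ / 4)) ^ 2 := pow_le_pow_left₀ (Real.log_natCast_nonneg _) h7 2
            _ = (1 + κ / 4) ^ 2 * L ^ 2 := by ring
            _ ≤ _ := mul_le_mul_of_nonneg_right hκs (by positivity)
        have h11 : 0 ≤ (1 + κ) * L ^ 2 * (if (v p).Prime then (2 : ℝ) else 0) := by
          apply mul_nonneg (by positivity)
          split_ifs <;> norm_num
        rw [mul_add]
        linarith
    · rw [if_pos hG]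
      have h8 : 0 ≤ (1 + κ) * L ^ 2 * ((if (v p).Prime then (2 : ℝ) else 0) +
          (if ∃ q r : ℕ, q.Prime ∧ r.Prime ∧ t' < q ∧ q < r ∧ v p = q * r then (1 : ℝ) else 0)) := by
        apply mul_nonneg (by positivity)
        split_ifs <;> norm_num
      linarith
  have h1 := sum_le_sum hpt
  rw [← mul_sum, sum_add_distrib, ← mul_sum, ← mul_sum, sum_add_distrib] at h1
  have h2 : ∑ p ∈ PP y, (if (v p).Prime then (2 : ℝ) else 0) = 2 * N1 v y := by
    unfold N1
    rw [← sum_filter, sum_const, nsmul_eq_mul]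
    ring
  have h3 : ∑ p ∈ PP y, (if ∃ q r : ℕ, q.Prime ∧ r.Prime ∧ t' < q ∧ q < r ∧ v p = q * r then (1 : ℝ) else 0) =
      N2 v t' y := by
    unfold N2
    rw [← sum_filter, sum_const, nsmul_eq_mul, mul_one]
  have h4 : ∑ p ∈ PP y, (if ¬ Gz t (v p) then L2 (v p) else 0) ≤
      ∑ p ∈ (PP N).filter (fun p => ¬ Gz t (v p)), L2 (v p) := by
    rw [← sum_filter]
    exact sum_le_sum_of_subset_of_nonneg (filter_subset_filter _ (PP_mono hy)) (fun p _ _ => L2_nonneg _)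
  rw [h2, h3] at h1
  have h5 : (1 + κ) * (2 * N1 v y + N2 v t' y) * L ^ 2 = (1 + κ) * L ^ 2 * (2 * N1 v y + N2 v t' y) := by ring
  rw [h5]
  linarith

end Pool.Agent.Q148.BA
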