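import Pool.Agent.Q148.BA.Rough

/-! Sums over integers without small prime factors, 2. -/

set_option autoImplicit false

namespace Pool.Agent.Q148.BA

open Finset Filter

/-- the sparse set -/
def Bad (z T m : ℕ) : Prop := m ≤ T ∨ (∃ p a : ℕ, p.Prime ∧ p ≤ z ∧ p ^ a ∣ m ∧ z ^ 2 < p ^ a) ∨
  (∃ p : ℕ, p.Prime ∧ z < p ∧ p ^ 2 ∣ m)

theorem mult_count (M k : ℕ) : ((((Icc 1 M).filter (fun m => k ∣ m)).card : ℕ) : ℝ) ≤ (M : ℝ) / k := by
  have h1 : ((Icc 1 M).filter (fun m => k ∣ m)).card = M / k := by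
    have : Icc 1 M = Ioc 0 M := by
      ext x
      rw [mem_Icc, mem_Ioc]
      omega
    rw [this, Nat.Ioc_filter_dvd_card_eq_div]
  rw [h1]
  exact Nat.cast_div_le

open Classical in
theorem card_bad (z T M : ℕ) (hz : 1 ≤ z) :
    ((((Icc 1 M).filter (fun m => Bad z T m)).card : ℕ) : ℝ) ≤ T + 2 * (M / (z : ℝ)) := by
  have hz0 : (0 : ℝ) < z := by exact_mod_cast hz
  have hM0 : (0 : ℝ) ≤ M := Nat.cast_nonneg _
  have hex : ∀ p : ℕ, ∃ a : ℕ, 2 ≤ p → z ^ 2 < p ^ a := by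
    intro p
    by_cases hp : 2 ≤ p
    · exact ⟨z ^ 2, fun _ => Nat.lt_pow_self hp⟩
    · exact ⟨0, fun h => absurd h hp⟩
  obtain ⟨e, he⟩ : ∃ e : ℕ → ℕ, ∀ p, 2 ≤ p → z ^ 2 < p ^ e p ∧ ∀ a, z ^ 2 < p ^ a → e p ≤ a := by
    refine ⟨fun p => Nat.find (hex p), fun p hp => ⟨Nat.find_spec (hex p) hp, fun a ha => ?_⟩⟩
    exact Nat.find_min' (hex p) (fun _ => ha)
  have hsub : (Icc 1 M).filter (fun m => Bad z T m) ⊆ Icc 1 T ∪
      ((PP z).biUnion (fun p => (Icc 1 M).filter (fun m => p ^ e p ∣ m)) ∪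
      (Ioc z M).biUnion (fun p => (Icc 1 M).filter (fun m => p ^ 2 ∣ m))) := by
    intro m hm
    rw [mem_filter] at hm
    obtain ⟨hm1, hb⟩ := hm
    rw [mem_Icc] at hm1
    rw [mem_union, mem_union, mem_biUnion, mem_biUnion, mem_Icc]
    rcases hb with h | ⟨p, a, hp, hpz, hd, hlt⟩ | ⟨p, hp, hpz, hd⟩
    · exact Or.inl ⟨hm1.1, h⟩
    · refine Or.inr (Or.inl ⟨p, mem_PP.2 ⟨hp, hpz⟩, ?_⟩)
      rw [mem_filter, mem_Icc]
      exact ⟨hm1, (pow_dvd_pow p ((he p hp.two_le).2 a hlt)).trans hd⟩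
    · refine Or.inr (Or.inr ⟨p, ?_, ?_⟩)
      · rw [mem_Ioc]
        refine ⟨hpz, ?_⟩
        have h1 := Nat.le_of_dvd hm1.1 hd
        nlinarith [hp.one_lt]
      · rw [mem_filter, mem_Icc]
        exact ⟨hm1, hd⟩
  have hc := (card_le_card hsub).trans ((card_union_le _ _).trans
    (Nat.add_le_add_left ((card_union_le _ _).trans (Nat.add_le_add card_biUnion_le card_biUnion_le)) _))
  have h1 : ((Icc 1 T).card : ℝ) = T := by rw [Nat.card_Icc]; simp
  have h2 : ∑ p ∈ PP z, ((((Icc 1 M).filter (fun m => p ^ e p ∣ m)).card : ℕ) : ℝ) ≤ M / (z : ℝ) := by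
    calc ∑ p ∈ PP z, ((((Icc 1 M).filter (fun m => p ^ e p ∣ m)).card : ℕ) : ℝ) ≤
        ∑ _p ∈ PP z, (M : ℝ) / (z : ℝ) ^ 2 := by
          apply sum_le_sum
          intro p hp
          refine (mult_count M (p ^ e p)).trans ?_
          apply div_le_div_of_nonneg_left hM0 (by positivity)
          have := (he p (mem_PP.1 hp).1.two_le).1
          exact_mod_cast this.le
      _ = ((PP z).card : ℝ) * ((M : ℝ) / (z : ℝ) ^ 2) := by rw [sum_const, nsmul_eq_mul]
      _ ≤ (z : ℝ) * ((M : ℝ) / (z : ℝ) ^ 2) := by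
          apply mul_le_mul_of_nonneg_right _ (by positivity)
          have : (PP z).card ≤ z := by
            unfold PP
            calc _ ≤ (Icc 1 z).card := card_filter_le _ _
              _ = z := by rw [Nat.card_Icc]; omega
          exact_mod_cast this
      _ = M / (z : ℝ) := by
          field_simp
  have h3 : ∑ p ∈ Ioc z M, ((((Icc 1 M).filter (fun m => p ^ 2 ∣ m)).card : ℕ) : ℝ) ≤ M / (z : ℝ) := by
    calc ∑ p ∈ Ioc z M, ((((Icc 1 M).filter (fun m => p ^ 2 ∣ m)).card : ℕ) : ℝ) ≤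
        ∑ p ∈ Ioc z M, (M : ℝ) * ((p : ℝ) ^ 2)⁻¹ := by
          apply sum_le_sum
          intro p _
          refine (mult_count M (p ^ 2)).trans ?_
          push_cast
          rw [div_eq_mul_inv]
      _ = (M : ℝ) * ∑ p ∈ Ioc z M, ((p : ℝ) ^ 2)⁻¹ := by rw [mul_sum]
      _ ≤ (M : ℝ) * (z : ℝ)⁻¹ := by
          apply mul_le_mul_of_nonneg_left _ hM0
          rcases le_or_gt z M with h | h
          · refine (sum_Ioc_inv_sq_le_sub (by omega) h).trans ?_
            have : (0 : ℝ) ≤ (M : ℝ)⁻¹ := by positivity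
            linarith
          · rw [Ioc_eq_empty (by omega), sum_empty]
            positivity
      _ = M / (z : ℝ) := by rw [div_eq_mul_inv]
  have hc' : ((((Icc 1 M).filter (fun m => Bad z T m)).card : ℕ) : ℝ) ≤ ((Icc 1 T).card : ℝ) +
      (∑ p ∈ PP z, ((((Icc 1 M).filter (fun m => p ^ e p ∣ m)).card : ℕ) : ℝ) +
      ∑ p ∈ Ioc z M, ((((Icc 1 M).filter (fun m => p ^ 2 ∣ m)).card : ℕ) : ℝ)) := by
    exact_mod_cast hc
  rw [h1] at hc'
  linarith

/-- the products of Mertens -/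
noncomputable def V1 (z : ℕ) : ℝ := ∏ p ∈ PP z, (1 - 1 / (p : ℝ))

theorem V1_pos (z : ℕ) : 0 < V1 z := by
  unfold V1
  apply prod_pos
  intro p hp
  have h2 : (2 : ℝ) ≤ p := by exact_mod_cast (mem_PP.1 hp).1.two_le
  rw [sub_pos, div_lt_one (by linarith)]
  linarith

/-- Mertens' third theorem -/
theorem mertens : ∃ (c C : ℝ) (z1 : ℕ), 0 < c ∧ 0 < C ∧ 2 ≤ z1 ∧ ∀ z : ℕ, z1 ≤ z →
    c / Real.log z ≤ V1 z ∧ V1 z ≤ C / Real.log z := by
  have h := Pool.Agent.H305R2.mertens_three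
  set G := Real.exp Real.eulerMascheroniConstant with hG
  have hG0 : 0 < G := Real.exp_pos _
  have e1 := h.eventually_const_le (show G / 2 < G by linarith)
  have e2 := h.eventually_le_const (show G < 2 * G by linarith)
  obtain ⟨z1, H⟩ := eventually_atTop.1 (e1.and (e2.and (eventually_ge_atTop 2)))
  refine ⟨1 / (2 * G), 1 / (G / 2), max z1 2, by positivity, by positivity, le_max_right _ _, fun z hz => ?_⟩
  obtain ⟨f1, f2, f3⟩ := H z ((le_max_left _ _).trans hz)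
  have hlog : 0 < Real.log z := Real.log_pos (by exact_mod_cast f3)
  have hV : (∏ p ∈ (Finset.Icc 1 z).filter Nat.Prime, (1 - (p : ℝ)⁻¹)⁻¹) = (V1 z)⁻¹ := by
    unfold V1 PP
    rw [← prod_inv_distrib]
    apply prod_congr rfl
    intro p _
    rw [one_div]
  rw [hV] at f1 f2
  have hV0 := V1_pos z
  rw [le_div_iff₀ hlog] at f1
  rw [div_le_iff₀ hlog] at f2
  constructor
  · rw [div_le_iff₀ hlog, div_le_iff₀ (by positivity)]
    have := mul_le_mul_of_nonneg_left f2 hV0.le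
    rw [mul_inv_cancel₀ hV0.ne'] at this
    linarith
  · rw [le_div_iff₀ hlog, le_div_iff₀ (by positivity)]
    have := mul_le_mul_of_nonneg_left f1 hV0.le
    rw [mul_inv_cancel₀ hV0.ne'] at this
    linarith

variable {S : Finset ℕ} {v : ℕ → ℕ} {X : ℝ} {g r : ℕ → ℝ}

theorem Dens.sqf (H : Dens S v X g r) (d : ℕ) (hd : Squarefree d) : g d = ∏ p ∈ d.primeFactors, g p := by
  have h := H.prod 1 d.primeFactors (fun p hp => Nat.prime_of_mem_primeFactors hp) (by
    intro p hp h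
    have := Nat.prime_of_mem_primeFactors hp
    exact this.one_lt.ne' (Nat.dvd_one.1 h))
  rw [H.one, one_mul, one_mul, Nat.prod_primeFactors_of_squarefree hd] at h
  exact h

theorem Dens.sqf_nn (H : Dens S v X g r) (d : ℕ) (hd : Squarefree d) : 0 ≤ g d := by
  rw [H.sqf d hd]
  exact prod_nonneg fun p hp => H.nn1 (Nat.prime_of_mem_primeFactors hp)

theorem gsum (H : Dens S v X g r) (z D : ℕ) (hzD : z ≤ D) : ∑ d ∈ DD z D, g d ≤ V1 z / V1 D := by
  classical
  have h1 : ∑ d ∈ DD z D, g d ≤ ∑ T ∈ (PP D \ PP z).powerset, ∏ p ∈ T, g p := by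
    have e1 : ∑ d ∈ DD z D, g d = ∑ T ∈ (DD z D).image (fun d => d.primeFactors), ∏ p ∈ T, g p := by
      rw [sum_image]
      · apply sum_congr rfl
        intro d hd
        exact H.sqf d (mem_DD.1 hd).2.1
      · intro d hd d' hd' h
        rw [← Nat.prod_primeFactors_of_squarefree (mem_DD.1 hd).2.1,
          ← Nat.prod_primeFactors_of_squarefree (mem_DD.1 hd').2.1]
        simp only at h
        rw [h]
    rw [e1]
    apply sum_le_sum_of_subset_of_nonneg
    · intro T hT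
      rw [mem_image] at hT
      obtain ⟨d, hd, rfl⟩ := hT
      rw [mem_powerset]
      intro p hp
      have hd' := mem_DD.1 hd
      have hpp := Nat.prime_of_mem_primeFactors hp
      rw [Finset.mem_sdiff, mem_PP, mem_PP]
      refine ⟨⟨hpp, (Nat.le_of_mem_primeFactors hp).trans hd'.1.2⟩, fun h => ?_⟩
      exact hd'.2.2 p hpp h.2 (Nat.dvd_of_mem_primeFactors hp)
    · intro T hT _
      rw [mem_powerset] at hT
      apply prod_nonneg
      intro p hp
      have := hT hp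
      rw [Finset.mem_sdiff, mem_PP] at this
      exact H.nn1 this.1.1
  have h2 : ∑ T ∈ (PP D \ PP z).powerset, ∏ p ∈ T, g p = ∏ p ∈ PP D \ PP z, (1 + g p) :=
    (Finset.prod_one_add _).symm
  rw [h2] at h1
  refine h1.trans ?_
  have hsub : PP z ⊆ PP D := fun p hp => mem_PP.2 ⟨(mem_PP.1 hp).1, (mem_PP.1 hp).2.trans hzD⟩
  have h3 : V1 D = V1 z * ∏ p ∈ PP D \ PP z, (1 - 1 / (p : ℝ)) := by
    unfold V1
    rw [mul_comm, prod_sdiff hsub]
  have hfac : ∀ p ∈ PP D \ PP z, 0 < 1 - 1 / (p : ℝ) ∧ 1 + g p ≤ (1 - 1 / (p : ℝ))⁻¹ := by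
    intro p hp
    rw [Finset.mem_sdiff, mem_PP] at hp
    have h2 : (2 : ℝ) ≤ p := by exact_mod_cast hp.1.1.two_le
    have h4 : 0 < 1 - 1 / (p : ℝ) := by
      rw [sub_pos, div_lt_one (by linarith)]
      linarith
    refine ⟨h4, ?_⟩
    have h5 := H.p1 p hp.1.1
    have h6 : (1 - 1 / (p : ℝ))⁻¹ = 1 + 1 / ((p : ℝ) - 1) := by
      have : (p : ℝ) - 1 ≠ 0 := by linarith
      field_simp
      ring
    rw [h6]
    linarith
  have h4 : ∏ p ∈ PP D \ PP z, (1 + g p) ≤ (∏ p ∈ PP D \ PP z, (1 - 1 / (p : ℝ)))⁻¹ := by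
    rw [← prod_inv_distrib]
    apply Finset.prod_le_prod
    · intro p hp
      rw [Finset.mem_sdiff, mem_PP] at hp
      have := H.nn1 hp.1.1
      linarith
    · intro p hp
      exact (hfac p hp).2
  refine h4.trans (le_of_eq ?_)
  rw [h3]
  have h5 : 0 < ∏ p ∈ PP D \ PP z, (1 - 1 / (p : ℝ)) := prod_pos fun p hp => (hfac p hp).1
  have h6 := V1_pos z
  field_simp

theorem logsum : ∃ C : ℝ, 0 < C ∧ ∀ (S : Finset ℕ) (v : ℕ → ℕ) (X : ℝ) (g r : ℕ → ℝ), Dens S v X g r →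
    ∀ z Z : ℕ, 2 ≤ z → ∑ x ∈ KK z Z, Real.log x.1 * g (x.1 ^ x.2) ≤ C * Real.log z := by
  classical
  obtain ⟨C0, HC⟩ := Pool.Agent.Helper601.Mertens.mertens_log
  refine ⟨4 * (1 + 2 * |C0|), by positivity, fun S v X g r H z Z hz => ?_⟩
  have hlz : 0.69 ≤ Real.log z := by
    have h1 := Real.log_two_gt_d9
    have h2 : Real.log 2 ≤ Real.log z := Real.log_le_log (by norm_num) (by exact_mod_cast hz)
    linarith
  have h1 : ∑ x ∈ KK z Z, Real.log x.1 * g (x.1 ^ x.2) ≤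
      ∑ p ∈ PP z, ∑ a ∈ Icc 1 Z, Real.log p * (2 / (p : ℝ) ^ a) := by
    rw [← sum_product']
    unfold KK
    refine (sum_le_sum (g := fun x : ℕ × ℕ => Real.log x.1 * (2 / (x.1 : ℝ) ^ x.2)) ?_).trans ?_
    · intro x hx
      rw [mem_filter, mem_product, mem_PP, mem_Icc] at hx
      exact mul_le_mul_of_nonneg_left (H.pow x.1 x.2 hx.1.1.1 hx.1.2.1) (Real.log_natCast_nonneg _)
    · apply sum_le_sum_of_subset_of_nonneg (filter_subset _ _)
      intro x _ _
      have := Real.log_natCast_nonneg x.1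
      positivity
  have h2 : ∀ p ∈ PP z, ∑ a ∈ Icc 1 Z, Real.log p * (2 / (p : ℝ) ^ a) ≤ 4 * (Real.log p / p) := by
    intro p hp
    have hp2 : (2 : ℝ) ≤ p := by exact_mod_cast (mem_PP.1 hp).1.two_le
    have hlp := Real.log_natCast_nonneg p
    have h3 : ∀ Z : ℕ, ∑ a ∈ Icc 1 Z, 1 / (p : ℝ) ^ a ≤ 2 / p - 1 / (p : ℝ) ^ Z * (1 / 2) * 0 := by
      intro Z
      have h4 : ∑ a ∈ Icc 1 Z, 1 / (p : ℝ) ^ a ≤ 1 / ((p : ℝ) - 1) * (1 - 1 / (p : ℝ) ^ Z) := by
        induction Z with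
        | zero => simp
        | succ Z ih =>
          rw [sum_Icc_succ_top (by omega)]
          have hpZ : (0 : ℝ) < (p : ℝ) ^ Z := by positivity
          have h5 : 1 / ((p : ℝ) - 1) * (1 - 1 / (p : ℝ) ^ (Z + 1)) =
              1 / ((p : ℝ) - 1) * (1 - 1 / (p : ℝ) ^ Z) + 1 / (p : ℝ) ^ (Z + 1) := by
            have : (p : ℝ) - 1 ≠ 0 := by linarith
            field_simp
            ring
          rw [h5]
          linarith
      have h5 : 1 / ((p : ℝ) - 1) * (1 - 1 / (p : ℝ) ^ Z) ≤ 1 / ((p : ℝ) - 1) := by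
        have h6 : 0 ≤ 1 / (p : ℝ) ^ Z := by positivity
        have h7 : 0 ≤ 1 / ((p : ℝ) - 1) := by
          apply div_nonneg (by norm_num)
          linarith
        nlinarith
      have h6 : 1 / ((p : ℝ) - 1) ≤ 2 / p := by
        rw [div_le_div_iff₀ (by linarith) (by linarith)]
        linarith
      linarith
    have h4 : ∑ a ∈ Icc 1 Z, Real.log p * (2 / (p : ℝ) ^ a) =
        2 * Real.log p * ∑ a ∈ Icc 1 Z, 1 / (p : ℝ) ^ a := by
      rw [mul_sum]
      apply sum_congr rfl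
      intro a _
      ring
    rw [h4]
    have h5 := mul_le_mul_of_nonneg_left (h3 Z) (by positivity : (0 : ℝ) ≤ 2 * Real.log p)
    refine h5.trans (le_of_eq ?_)
    ring
  refine h1.trans ((sum_le_sum h2).trans ?_)
  rw [← mul_sum]
  have h3 := (abs_le.1 (HC z (by omega))).2
  have h4 : ∑ p ∈ PP z, Real.log p / p ≤ Real.log z + |C0| := by
    unfold PP
    linarith [le_abs_self C0]
  have h5 : |C0| ≤ 2 * |C0| * Real.log z := by
    have := abs_nonneg C0
    nlinarith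
  nlinarith

end Pool.Agent.Q148.BA
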