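import Pool.Agent.Q148.BA.Main

/-! The asymptotic sieve for `Λ₂`: the sum over the sequence. -/

set_option autoImplicit false

namespace Pool.Agent.Q148.BA

open Finset

/-- the main term (without the density of the integers without small prime factors) -/
noncomputable def GG (z D : ℕ) (N : ℝ) (g : ℕ → ℝ) : ℝ :=
  ∑ d ∈ DD z D, (ArithmeticFunction.moebius d : ℝ) * Real.log (N / d) ^ 2 * g d

theorem rough_iff (z m : ℕ) : Rough z m ↔ ∀ p ∈ PP z, ¬ p ∣ m := by
  unfold Rough
  constructor
  · intro h p hp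
    rw [mem_PP] at hp
    exact h p hp.1 hp.2
  · intro h p hp hpz
    exact h p (mem_PP.2 ⟨hp, hpz⟩)

open Classical in
theorem abs1 (S : Finset ℕ) (v : ℕ → ℕ) (X : ℝ) (g : ℕ → ℝ) (N M z w T D E K : ℕ) (ℓ lam : ℝ)
    (hz : 2 ≤ z) (hzw : z ≤ w) (hT : z ^ 2 * w ^ 2 ≤ T) (hv : ∀ n ∈ S, v n ≤ M)
    (hm : ∀ m, 1 ≤ m → (S.filter (fun n => v n = m)).card ≤ 2) (hK : M < z ^ K)
    (hD : D ≤ N) (hD1 : 1 ≤ D) (hNM : N ≤ M) (hE : M ≤ D * E)
    (hℓ : ∀ m : ℕ, T < m → m ≤ M → |Real.log m - Real.log N| ≤ ℓ)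
    (hlam : ∀ d : ℕ, D < d → d ≤ M → |Real.log (N / (d : ℝ))| ≤ lam) (hℓ0 : 0 ≤ ℓ) :
    |∑ n ∈ S, L2 (v n) - X * (∏ p ∈ PP z, (1 - g p)) * GG z D N g| ≤
      2 * (T + 2 * (M / (z : ℝ))) * (2 * Real.log M ^ 2 + 2 ^ K * Real.log N ^ 2) +
      ∑ x ∈ KK z (z ^ 2), 2 * (Real.log x.1 * Real.log M) * B S v (x.1 ^ x.2) ((PP w).erase x.1) +
      B S v 1 (PP z) * (2 ^ K * (ℓ * (2 * Real.log M))) + lam ^ 2 * ∑ e ∈ DD z E, B S v e (PP z) +
      Real.log N ^ 2 * ∑ d ∈ DD z D, |B S v d (PP z) - X * (g d * ∏ p ∈ PP z, (1 - g p))| := by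
  have hN1 : 1 ≤ N := hD1.trans hD
  have hN0 : (0 : ℝ) < N := by exact_mod_cast hN1
  have hA := stepA S v M z w T hz hzw hT hv hm
  set V := ∏ p ∈ PP z, (1 - g p) with hV
  -- the splitting
  have hs := sum_filter_add_sum_filter_not S (fun n => Rough z (v n)) (fun n => L2 (v n))
  -- the rough part
  have hR1 : ∀ n ∈ S.filter (fun n => Rough z (v n)), 1 ≤ v n := by
    intro n hn
    rw [mem_filter] at hn
    by_contra hcon
    have h0 : v n = 0 := by omega
    exact hn.2 2 Nat.prime_two hz (by rw [h0]; exact dvd_zero 2)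
  have hBr : |∑ n ∈ S.filter (fun n => Rough z (v n)), L2 (v n) -
      ∑ n ∈ S.filter (fun n => Rough z (v n)), FF z D N (v n)| ≤
      2 * (T + 2 * (M / (z : ℝ))) * (Real.log M ^ 2 + 2 ^ K * Real.log N ^ 2) +
      B S v 1 (PP z) * (2 ^ K * (ℓ * (2 * Real.log M))) + lam ^ 2 * ∑ e ∈ DD z E, B S v e (PP z) := by
    rw [← sum_sub_distrib]
    refine (abs_sum_le_sum_abs _ _).trans ((sum_le_sum fun n hn => rough_pt (v n) N M z T D E K ℓ lam
      (by omega) (hR1 n hn) (hv n (mem_filter.1 hn).1) (mem_filter.1 hn).2 hK hD hD1 hNM hE hℓ hlam hℓ0).trans ?_)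
    rw [sum_add_distrib, sum_add_distrib]
    apply add_le_add
    · apply add_le_add
      · have h1 : ∑ n ∈ S.filter (fun n => Rough z (v n)), (if Bad z T (v n) then
            Real.log M ^ 2 + 2 ^ K * Real.log N ^ 2 else 0) ≤
            ∑ n ∈ S.filter (fun n => 1 ≤ v n ∧ Bad z T (v n)),
              (Real.log M ^ 2 + 2 ^ K * Real.log N ^ 2) := by
          rw [← sum_filter]
          apply sum_le_sum_of_subset_of_nonneg
          · intro n hn
            rw [mem_filter] at hn
            have h1 := hR1 n hn.1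
            rw [mem_filter] at hn
            rw [mem_filter]
            exact ⟨hn.1.1, h1, hn.2⟩
          · intro n _ _
            positivity
        refine h1.trans ?_
        rw [sum_const, nsmul_eq_mul]
        exact mul_le_mul_of_nonneg_right (cnt_bad S v M z T (by omega) hv hm) (by positivity)
      · rw [sum_const, nsmul_eq_mul]
        apply mul_le_mul_of_nonneg_right _ (by
          have := Real.log_natCast_nonneg M
          positivity)
        unfold B
        apply le_of_eq
        congr 2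
        ext n
        rw [mem_filter, mem_filter, rough_iff]
        simp
    · rw [← mul_sum]
      apply mul_le_mul_of_nonneg_left _ (by positivity)
      have h1 : ∀ n ∈ S.filter (fun n => Rough z (v n)),
          ((((DD z E).filter (fun e => e ∣ v n)).card : ℕ) : ℝ) =
          ∑ e ∈ DD z E, if e ∣ v n then (1 : ℝ) else 0 := by
        intro n _
        rw [card_filter]
        push_cast
        rfl
      rw [sum_congr rfl h1, sum_comm]
      apply le_of_eq
      apply sum_congr rfl
      intro e _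
      unfold B
      rw [card_filter, Nat.cast_sum, sum_filter]
      apply sum_congr rfl
      intro n _
      push_cast
      by_cases h2 : Rough z (v n)
      · by_cases h3 : e ∣ v n
        · rw [if_pos h2, if_pos h3, if_pos ⟨h3, (rough_iff z _).1 h2⟩]
        · rw [if_pos h2, if_neg h3, if_neg (fun h => h3 h.1)]
      · rw [if_neg h2, if_neg (fun h => h2 ((rough_iff z _).2 h.2))]
  have hC : |∑ n ∈ S.filter (fun n => Rough z (v n)), FF z D N (v n) - X * V * GG z D N g| ≤
      Real.log N ^ 2 * ∑ d ∈ DD z D, |B S v d (PP z) - X * (g d * V)| := by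
    have e1 : ∑ n ∈ S.filter (fun n => Rough z (v n)), FF z D N (v n) =
        ∑ d ∈ DD z D, (ArithmeticFunction.moebius d : ℝ) * Real.log (N / (d : ℝ)) ^ 2 * B S v d (PP z) := by
      unfold FF
      have h1 : ∀ n ∈ S.filter (fun n => Rough z (v n)),
          ∑ d ∈ (DD z D).filter (fun d => d ∣ v n), (ArithmeticFunction.moebius d : ℝ) *
            Real.log (N / (d : ℝ)) ^ 2 =
          ∑ d ∈ DD z D, if d ∣ v n then (ArithmeticFunction.moebius d : ℝ) *
            Real.log (N / (d : ℝ)) ^ 2 else 0 := fun n _ => sum_filter _ _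
      rw [sum_congr rfl h1, sum_comm]
      apply sum_congr rfl
      intro d _
      unfold B
      rw [card_filter, Nat.cast_sum, mul_sum, sum_filter]
      apply sum_congr rfl
      intro n _
      push_cast
      by_cases h2 : Rough z (v n)
      · by_cases h3 : d ∣ v n
        · rw [if_pos h2, if_pos h3, if_pos ⟨h3, (rough_iff z _).1 h2⟩, mul_one]
        · rw [if_pos h2, if_neg h3, if_neg (fun h => h3 h.1), mul_zero]
      · rw [if_neg h2, if_neg (fun h => h2 ((rough_iff z _).2 h.2)), mul_zero]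
    have e2 : X * V * GG z D N g = ∑ d ∈ DD z D, (ArithmeticFunction.moebius d : ℝ) *
        Real.log (N / (d : ℝ)) ^ 2 * (X * (g d * V)) := by
      unfold GG
      rw [mul_sum]
      apply sum_congr rfl
      intro d _
      ring
    rw [e1, e2, ← sum_sub_distrib, mul_sum]
    refine (abs_sum_le_sum_abs _ _).trans (sum_le_sum fun d hd => ?_)
    rw [← mul_sub, abs_mul]
    apply mul_le_mul_of_nonneg_right _ (abs_nonneg _)
    rw [mem_DD] at hd
    have hd0 : (0 : ℝ) < d := by exact_mod_cast hd.1.1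
    rw [abs_mul, abs_of_nonneg (sq_nonneg (Real.log (N / (d : ℝ))))]
    have h4 : 0 ≤ Real.log (N / (d : ℝ)) := by
      apply Real.log_nonneg
      rw [le_div_iff₀ hd0, one_mul]
      exact_mod_cast hd.1.2.trans hD
    have h5 : Real.log (N / (d : ℝ)) ≤ Real.log N := by
      rw [Real.log_div hN0.ne' hd0.ne']
      have := Real.log_natCast_nonneg d
      linarith
    calc |(ArithmeticFunction.moebius d : ℝ)| * Real.log (N / (d : ℝ)) ^ 2 ≤
        1 * Real.log (N / (d : ℝ)) ^ 2 := mul_le_mul_of_nonneg_right (abs_mu d) (sq_nonneg _)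
      _ ≤ Real.log N ^ 2 := by
        rw [one_mul]
        exact pow_le_pow_left₀ h4 h5 2
  have hA0 : 0 ≤ ∑ n ∈ S.filter (fun n => ¬ Rough z (v n)), L2 (v n) := sum_nonneg fun n _ => L2_nonneg _
  rw [← hs]
  rw [abs_le] at hBr hC ⊢
  constructor
  · have : 0 ≤ 2 * ((T : ℝ) + 2 * (M / (z : ℝ))) * Real.log M ^ 2 := by positivity
    have h2 : 0 ≤ ∑ x ∈ KK z (z ^ 2), 2 * (Real.log x.1 * Real.log M) *
        B S v (x.1 ^ x.2) ((PP w).erase x.1) := by
      apply sum_nonneg
      intro x _
      have := Real.log_natCast_nonneg x.1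
      have := Real.log_natCast_nonneg M
      unfold B
      positivity
    linarith [hBr.1, hC.1]
  · linarith [hBr.2, hC.2]

end Pool.Agent.Q148.BA
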